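import Pool.Agent.Lib.MS.SpecB

/-!
MP_00e23e_nt, Lib/MS, chapter B, module Beo (the model is Lib/ML/Bt1): Type I, common factor e (helper47).
-/

namespace Pool.Agent.Lib.MS

open Finset Pool.Agent.Lib.EH3 Pool.Agent.Lib.TB Pool.Agent.Results.MP_00e23e_nt Pool.Agent.Lib.MI

private lemma Beo_sqrt (C T : ℝ) (A : ℕ) (hC : 0 < C) (hT : 1 ≤ T) :
    Real.sqrt (C * T ^ A) ≤ (1 + C) * T ^ A := by
  rw [Real.sqrt_le_iff]
  have hTA : 1 ≤ T ^ A := one_le_pow₀ hT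
  have hTA0 : 0 ≤ T ^ A := zero_le_one.trans hTA
  refine ⟨by positivity, ?_⟩
  have h1 : C * T ^ A ≤ C * (T ^ A * T ^ A) :=
    mul_le_mul_of_nonneg_left (le_mul_of_one_le_left hTA0 hTA) hC.le
  have h2 : C ≤ (1 + C) ^ 2 := by nlinarith
  calc C * T ^ A ≤ C * (T ^ A * T ^ A) := h1
    _ ≤ (1 + C) ^ 2 * (T ^ A * T ^ A) := mul_le_mul_of_nonneg_right h2 (by positivity)
    _ = ((1 + C) * T ^ A) ^ 2 := by ring

private lemma Beo_step (n K J Q Q' p : ℝ) (hJ : 0 ≤ J) (hp : 0 ≤ p) (hQ : 0 ≤ Q)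
    (hK : 0 ≤ K) (h : n ^ 2 ≤ K * J ^ 2 * Q') (hQ' : Q' ≤ p ^ 2 * Q) :
    n ≤ p * (J * (Real.sqrt K * Real.sqrt Q)) := by
  have h1 : n ^ 2 ≤ (p * (J * (Real.sqrt K * Real.sqrt Q))) ^ 2 := by
    have e : (p * (J * (Real.sqrt K * Real.sqrt Q))) ^ 2 = K * J ^ 2 * (p ^ 2 * Q) := by
      rw [mul_pow, mul_pow, mul_pow, Real.sq_sqrt hK, Real.sq_sqrt hQ]
      ring
    rw [e]
    exact h.trans (mul_le_mul_of_nonneg_left hQ' (by positivity))
  exact le_trans (le_abs_self n) (abs_le_of_sq_le_sq h1 (by positivity))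

/-- the inner bracket -/
private lemma Beo_inner (e S V Y0 L L' N G V1 Y1 p : ℝ) (he : 1 ≤ e) (hS : 0 < S) (hV : 0 < V)
    (hY0 : 0 < Y0) (hL : 0 < L) (hL' : 0 ≤ L') (hN : 0 < N) (hG : e * G ≤ S) (hG' : 3 * S ≤ 4 * e * G)
    (hV1 : e * V1 ≤ V) (hV1' : V ≤ 2 * e * V1) (hY1 : Y0 ≤ e * Y1) (hp : 1 ≤ p) :
    1 / L + Real.sqrt (1 + G / (V1 * (p * Y1))) / (Real.sqrt (L * V1) * G) +
      Real.sqrt (4 * e * L' * V1) * G / N ≤
    3 * e ^ 2 * (1 / L + Real.sqrt (1 + S / (V * Y0)) / (Real.sqrt (L * V) * S) +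
      Real.sqrt (L' * V) * S / N) := by
  have he0 : 0 < e := by linarith
  have hG0 : 0 < G := by
    by_contra h
    have : e * G ≤ 0 := mul_nonpos_of_nonneg_of_nonpos he0.le (not_lt.1 h)
    nlinarith
  have hV10 : 0 < V1 := by
    by_contra h
    have : e * V1 ≤ 0 := mul_nonpos_of_nonneg_of_nonpos he0.le (not_lt.1 h)
    nlinarith
  have hY10 : 0 < Y1 := by
    by_contra h
    have : e * Y1 ≤ 0 := mul_nonpos_of_nonneg_of_nonpos he0.le (not_lt.1 h)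
    linarith
  have hp0 : 0 < p := by linarith
  have he2 : 1 ≤ e ^ 2 := one_le_pow₀ he
  have hGS : G ≤ S := by nlinarith
  -- the three terms
  have t1 : 1 / L ≤ 3 * e ^ 2 * (1 / L) := by
    have h0 : 0 ≤ 1 / L := by positivity
    nlinarith
  have s2 : Real.sqrt (2 * e) * Real.sqrt (2 * e) = 2 * e := Real.mul_self_sqrt (by positivity)
  have a1 : Real.sqrt (1 + G / (V1 * (p * Y1))) ≤ Real.sqrt (2 * e) * Real.sqrt (1 + S / (V * Y0)) := by
    rw [← Real.sqrt_mul (by positivity)]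
    refine Real.sqrt_le_sqrt ?_
    have h1 : G / (V1 * (p * Y1)) ≤ 2 * e * (S / (V * Y0)) := by
      rw [← mul_div_assoc, div_le_div_iff₀ (by positivity) (by positivity)]
      have k1 : V * Y0 ≤ 2 * e * V1 * (e * Y1) := mul_le_mul hV1' hY1 hY0.le (by positivity)
      have k2 : G * (V * Y0) ≤ G * (2 * e * V1 * (e * Y1)) := mul_le_mul_of_nonneg_left k1 hG0.le
      have k3 : G * (2 * e * V1 * (e * Y1)) = (e * G) * (2 * e * (V1 * Y1)) := by ring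
      have k4 : (e * G) * (2 * e * (V1 * Y1)) ≤ S * (2 * e * (V1 * Y1)) :=
        mul_le_mul_of_nonneg_right hG (by positivity)
      have k5 : S * (2 * e * (V1 * Y1)) ≤ 2 * e * S * (V1 * (p * Y1)) := by
        have : V1 * Y1 ≤ V1 * (p * Y1) :=
          mul_le_mul_of_nonneg_left (le_mul_of_one_le_left hY10.le hp) hV10.le
        calc S * (2 * e * (V1 * Y1)) = 2 * e * S * (V1 * Y1) := by ring
          _ ≤ 2 * e * S * (V1 * (p * Y1)) := mul_le_mul_of_nonneg_left this (by positivity)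
      linarith
    have h2 : (1 : ℝ) ≤ 2 * e * 1 := by linarith
    linarith
  have b1 : Real.sqrt (L * V) * S ≤ (4 * e / 3) * Real.sqrt (2 * e) * (Real.sqrt (L * V1) * G) := by
    have h1 : Real.sqrt (L * V) ≤ Real.sqrt (2 * e) * Real.sqrt (L * V1) := by
      rw [← Real.sqrt_mul (by positivity)]
      refine Real.sqrt_le_sqrt ?_
      have := mul_le_mul_of_nonneg_left hV1' hL.le
      linarith
    have h2 : S ≤ (4 * e / 3) * G := by linarith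
    calc Real.sqrt (L * V) * S ≤ (Real.sqrt (2 * e) * Real.sqrt (L * V1)) * ((4 * e / 3) * G) :=
          mul_le_mul h1 h2 hS.le (by positivity)
      _ = (4 * e / 3) * Real.sqrt (2 * e) * (Real.sqrt (L * V1) * G) := by ring
  have hb0 : 0 < Real.sqrt (L * V) * S := by positivity
  have hb1 : 0 < Real.sqrt (L * V1) * G := by positivity
  have ha0 : 0 ≤ Real.sqrt (1 + S / (V * Y0)) := Real.sqrt_nonneg _
  have t2 : Real.sqrt (1 + G / (V1 * (p * Y1))) / (Real.sqrt (L * V1) * G) ≤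
      3 * e ^ 2 * (Real.sqrt (1 + S / (V * Y0)) / (Real.sqrt (L * V) * S)) := by
    rw [← mul_div_assoc, div_le_div_iff₀ hb1 hb0]
    calc Real.sqrt (1 + G / (V1 * (p * Y1))) * (Real.sqrt (L * V) * S)
        ≤ (Real.sqrt (2 * e) * Real.sqrt (1 + S / (V * Y0))) *
          ((4 * e / 3) * Real.sqrt (2 * e) * (Real.sqrt (L * V1) * G)) :=
          mul_le_mul a1 b1 hb0.le (by positivity)
      _ = (Real.sqrt (2 * e) * Real.sqrt (2 * e)) * (4 * e / 3) *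
          (Real.sqrt (1 + S / (V * Y0)) * (Real.sqrt (L * V1) * G)) := by ring
      _ = (8 / 3 * e ^ 2) * (Real.sqrt (1 + S / (V * Y0)) * (Real.sqrt (L * V1) * G)) := by
          rw [s2]; ring
      _ ≤ (3 * e ^ 2) * (Real.sqrt (1 + S / (V * Y0)) * (Real.sqrt (L * V1) * G)) :=
          mul_le_mul_of_nonneg_right (by nlinarith) (by positivity)
      _ = 3 * e ^ 2 * Real.sqrt (1 + S / (V * Y0)) * (Real.sqrt (L * V1) * G) := by ring
  have t3 : Real.sqrt (4 * e * L' * V1) * G / N ≤ 3 * e ^ 2 * (Real.sqrt (L' * V) * S / N) := by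
    have h1 : Real.sqrt (4 * e * L' * V1) ≤ 2 * Real.sqrt (L' * V) := by
      have h4 : Real.sqrt (4 * (L' * V)) = 2 * Real.sqrt (L' * V) := by
        rw [Real.sqrt_mul (by norm_num), show (4 : ℝ) = 2 ^ 2 by norm_num,
          Real.sqrt_sq (by norm_num)]
      rw [← h4]
      refine Real.sqrt_le_sqrt ?_
      have := mul_le_mul_of_nonneg_left hV1 hL'
      linarith
    rw [← mul_div_assoc]
    refine div_le_div_of_nonneg_right ?_ hN.le
    have h5 : 0 ≤ Real.sqrt (L' * V) * S := by positivity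
    calc Real.sqrt (4 * e * L' * V1) * G ≤ (2 * Real.sqrt (L' * V)) * S :=
          mul_le_mul h1 hGS hG0.le (by positivity)
      _ = 2 * (Real.sqrt (L' * V) * S) := by ring
      _ ≤ 3 * e ^ 2 * (Real.sqrt (L' * V) * S) := mul_le_mul_of_nonneg_right (by nlinarith) h5
  calc _ ≤ 3 * e ^ 2 * (1 / L) +
        3 * e ^ 2 * (Real.sqrt (1 + S / (V * Y0)) / (Real.sqrt (L * V) * S)) +
        3 * e ^ 2 * (Real.sqrt (L' * V) * S / N) := add_le_add (add_le_add t1 t2) t3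
    _ = _ := by ring

/-- the bracket of T1e is at most 4^i 7 Q -/
private lemma Beo_brk (e V Y0 V1 Y1 p ρ ι : ℝ) (I : ℝ) (he : 1 ≤ e) (hV : 0 < V)
    (hY0 : 0 < Y0) (hV10 : 0 < V1) (hY10 : 0 < Y1) (hV1' : V ≤ 2 * e * V1) (hY1' : e * Y1 ≤ 2 * Y0)
    (hp : 1 ≤ p) (hI : I ≤ 3 * e ^ 2 * ι) (hι : 0 ≤ ι) (hρ : ρ = Real.sqrt ι) :
    p * Y1 / V1 + (p * Y1) ^ 2 * Real.sqrt I ≤ p ^ 2 * (7 * (Y0 / V + Y0 ^ 2 * ρ)) := by
  have he0 : 0 < e := by linarith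
  have hp0 : 0 < p := by linarith
  have hρ0 : 0 ≤ ρ := by rw [hρ]; exact Real.sqrt_nonneg _
  have h1 : Y1 / V1 ≤ 4 * (Y0 / V) := by
    rw [← mul_div_assoc, div_le_div_iff₀ hV10 hV]
    have k1 := mul_le_mul_of_nonneg_left hV1' hY10.le
    have k2 := mul_le_mul_of_nonneg_right hY1' hV10.le
    nlinarith
  have h2 : Real.sqrt I ≤ (7 / 4) * e * ρ := by
    refine (Real.sqrt_le_sqrt hI).trans ?_
    rw [hρ, Real.sqrt_le_left (by positivity), mul_pow, Real.sq_sqrt hι]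
    nlinarith [mul_nonneg (sq_nonneg e) hι]
  have h3 : (e * Y1) * (e * Y1) ≤ (2 * Y0) * (2 * Y0) := mul_le_mul hY1' hY1' (by positivity) (by positivity)
  have h4 : Y1 ^ 2 * e ≤ 4 * Y0 ^ 2 := by
    have k : Y1 ^ 2 * e * 1 ≤ Y1 ^ 2 * e * e := mul_le_mul_of_nonneg_left he (by positivity)
    nlinarith
  have h5 : Y1 ^ 2 * Real.sqrt I ≤ 7 * (Y0 ^ 2 * ρ) := by
    calc Y1 ^ 2 * Real.sqrt I ≤ Y1 ^ 2 * ((7 / 4) * e * ρ) := mul_le_mul_of_nonneg_left h2 (by positivity)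
      _ = (7 / 4) * ρ * (Y1 ^ 2 * e) := by ring
      _ ≤ (7 / 4) * ρ * (4 * Y0 ^ 2) := mul_le_mul_of_nonneg_left h4 (by positivity)
      _ = 7 * (Y0 ^ 2 * ρ) := by ring
  have h6 : p * Y1 / V1 ≤ p ^ 2 * (Y1 / V1) := by
    have k : 0 ≤ Y1 / V1 := by positivity
    have k2 : p ≤ p ^ 2 := by nlinarith
    calc p * Y1 / V1 = p * (Y1 / V1) := by ring
      _ ≤ p ^ 2 * (Y1 / V1) := mul_le_mul_of_nonneg_right k2 k
  have h7 : 0 ≤ Y0 / V := by positivity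
  calc p * Y1 / V1 + (p * Y1) ^ 2 * Real.sqrt I
      ≤ p ^ 2 * (Y1 / V1) + p ^ 2 * (Y1 ^ 2 * Real.sqrt I) := add_le_add h6 (le_of_eq (by ring))
    _ = p ^ 2 * (Y1 / V1 + Y1 ^ 2 * Real.sqrt I) := by ring
    _ ≤ p ^ 2 * (7 * (Y0 / V + Y0 ^ 2 * ρ)) := by
        refine mul_le_mul_of_nonneg_left ?_ (by positivity)
        linarith

/-- the divisor of g -/
private lemma Beo_dvd {v e g V V1 : ℕ} (he : 1 ≤ e) (hv : v ∣ e * g) (hV : V < v) (hv2 : v ≤ 2 * V)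
    (h1 : e * V1 ≤ V) (h2 : V ≤ 2 * e * V1) :
    v / Nat.gcd v e ∣ g ∧ V1 < v / Nat.gcd v e ∧ v / Nat.gcd v e ≤ 4 * e * V1 := by
  have hg0 : 0 < Nat.gcd v e := Nat.gcd_pos_of_pos_right _ he
  have hcop : (v / Nat.gcd v e).Coprime (e / Nat.gcd v e) := Nat.coprime_div_gcd_div_gcd hg0
  have hm : v / Nat.gcd v e * Nat.gcd v e = v := Nat.div_mul_cancel (Nat.gcd_dvd_left v e)
  have hm2 : e / Nat.gcd v e * Nat.gcd v e = e := Nat.div_mul_cancel (Nat.gcd_dvd_right v e)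
  refine ⟨?_, ?_, ?_⟩
  · have h3 : v / Nat.gcd v e ∣ (e / Nat.gcd v e) * g := by
      refine Nat.dvd_of_mul_dvd_mul_right hg0 ?_
      rw [hm]
      have : (e / Nat.gcd v e) * g * Nat.gcd v e = e * g := by
        calc (e / Nat.gcd v e) * g * Nat.gcd v e = (e / Nat.gcd v e * Nat.gcd v e) * g := by ring
          _ = e * g := by rw [hm2]
      rw [this]
      exact hv
    exact hcop.dvd_of_dvd_mul_left h3
  · have h4 : Nat.gcd v e ≤ e := Nat.gcd_le_right _ he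
    have h5 : v ≤ v / Nat.gcd v e * e := by
      calc v = v / Nat.gcd v e * Nat.gcd v e := hm.symm
        _ ≤ v / Nat.gcd v e * e := Nat.mul_le_mul_left _ h4
    by_contra hc
    have h6 : v / Nat.gcd v e * e ≤ V1 * e := Nat.mul_le_mul_right _ (not_lt.1 hc)
    have h7 : V1 * e = e * V1 := Nat.mul_comm _ _
    omega
  · have h8 : v / Nat.gcd v e ≤ v := Nat.div_le_self _ _
    have h9 : 4 * e * V1 = 2 * (2 * e * V1) := by ring
    omega

/-- the class modulo r g -/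
private lemma Beo_class {r e g : ℕ} {a A : ℤ} (hsq : Squarefree (r * (e * g)))
    (h : ((r * g : ℕ) : ℤ) ∣ (e : ℤ) * a - A) :
    ((r * g : ℕ) : ℤ) ∣ a - (iv e (r * g) : ℤ) * A := by
  have hne : r * (e * g) ≠ 0 := hsq.ne_zero
  have hn : 1 ≤ r * g := by
    rcases Nat.eq_zero_or_pos (r * g) with h0 | h0
    · exfalso
      apply hne
      calc r * (e * g) = e * (r * g) := by ring
        _ = 0 := by rw [h0, mul_zero]
    · exact h0
  have hcop : e.Coprime (r * g) := by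
    have h1 : Squarefree (e * (r * g)) := by
      have : e * (r * g) = r * (e * g) := by ring
      rw [this]
      exact hsq
    exact Nat.coprime_of_squarefree_mul h1
  have h2 := iv_dvd hcop hn
  have h3 : a - (iv e (r * g) : ℤ) * A =
      (iv e (r * g) : ℤ) * ((e : ℤ) * a - A) - ((iv e (r * g) : ℤ) * e - 1) * a := by ring
  rw [h3]
  exact dvd_sub (h.mul_left _) (h2.mul_right _)

theorem tBeo (h1 : T1eStmt) (h2 : BdhStmt) : BeoStmt := by
  obtain ⟨C, hC, A, h⟩ := h1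
  refine ⟨192 * (1 + C), by positivity, A, ?_⟩
  intro X T a ρf A' e k R S M N H Y0 V L L' r0 v P γ ω hT he heS heV heY heM hR hN hL hX hRN hY0 hCf hω hCp hP
  have he' : (0 : ℝ) < e := by exact_mod_cast he
  have he1 : (1 : ℝ) ≤ e := by exact_mod_cast he
  have hS1 : 1 ≤ S := by omega
  have hV1' : 1 ≤ V := by omega
  have hY1' : 1 ≤ Y0 := by omega
  have hR' : (0 : ℝ) < R := by exact_mod_cast hR
  have hS' : (0 : ℝ) < S := by exact_mod_cast hS1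
  have hN' : (0 : ℝ) < N := by exact_mod_cast hN
  have hL1 : (0 : ℝ) < L := by exact_mod_cast hL
  have hY' : (0 : ℝ) < Y0 := by exact_mod_cast hY1'
  have hV' : (0 : ℝ) < V := by exact_mod_cast hV1'
  have hT1 : 1 ≤ T := hT.1
  have hTA : 1 ≤ T ^ A := one_le_pow₀ hT1
  have hTA0 : 0 ≤ T ^ A := zero_le_one.trans hTA
  -- natural divisions
  set G : ℕ := S / e with hGdef
  set V1 : ℕ := V / e with hV1def
  set M1 : ℕ := M / e + 1 with hM1def
  set Y1 : ℕ := Y0 / e + 1 with hY1def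
  have nM1 : 1 ≤ M1 := Nat.le_add_left 1 _
  have nY1 : 1 ≤ Y1 := Nat.le_add_left 1 _
  have nG : e * G ≤ S := Nat.mul_div_le _ _
  have nG' : S < e * (G + 1) := Nat.lt_mul_div_succ _ he
  have nV : e * V1 ≤ V := Nat.mul_div_le _ _
  have nV' : V < e * (V1 + 1) := Nat.lt_mul_div_succ _ he
  have nM : M < e * M1 := Nat.lt_mul_div_succ _ he
  have nM' : e * M1 ≤ 2 * M := by
    have : e * (M / e) ≤ M := Nat.mul_div_le _ _
    rw [hM1def, mul_add, mul_one]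
    omega
  have nY : Y0 < e * Y1 := Nat.lt_mul_div_succ _ he
  have nY' : e * Y1 ≤ 2 * Y0 := by
    have : e * (Y0 / e) ≤ Y0 := Nat.mul_div_le _ _
    rw [hY1def, mul_add, mul_one]
    omega
  have nG3 : 3 * S ≤ 4 * (e * G) := by
    rw [mul_add, mul_one] at nG'
    omega
  have nG1 : 1 ≤ G := by
    rcases Nat.eq_zero_or_pos G with h0 | h0
    · rw [h0, mul_zero] at nG3
      omega
    · exact h0
  have nV4 : 4 ≤ V1 := by
    rw [hV1def, Nat.le_div_iff_mul_le he]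
    exact heV
  have nV2 : V ≤ 2 * e * V1 := by
    rw [mul_add, mul_one] at nV'
    have : e * 1 ≤ e * V1 := Nat.mul_le_mul_left _ (by omega)
    have h3 : 2 * e * V1 = 2 * (e * V1) := by ring
    omega
  -- real versions
  have hG : (e : ℝ) * G ≤ S := by exact_mod_cast nG
  have hG3 : 3 * (S : ℝ) ≤ 4 * e * G := by
    have : (3 : ℝ) * S ≤ 4 * (e * G) := by exact_mod_cast nG3
    linarith
  have hV1a : (e : ℝ) * V1 ≤ V := by exact_mod_cast nV
  have hV1b : (V : ℝ) ≤ 2 * e * V1 := by exact_mod_cast nV2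
  have hY1a : (Y0 : ℝ) ≤ e * Y1 := by exact_mod_cast nY.le
  have hY1b : (e : ℝ) * Y1 ≤ 2 * Y0 := by exact_mod_cast nY'
  have hM1b : (e : ℝ) * M1 ≤ 2 * M := by exact_mod_cast nM'
  have hG0 : (0 : ℝ) < G := by exact_mod_cast nG1
  have hV10 : (0 : ℝ) < V1 := by exact_mod_cast (by omega : 0 < V1)
  have hY10 : (0 : ℝ) < Y1 := by exact_mod_cast nY1
  have hM10 : (0 : ℝ) < M1 := by exact_mod_cast nM1
  have hGS : (G : ℝ) ≤ S := by
    have := le_mul_of_one_le_left hG0.le he1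
    linarith
  set ι : ℝ := 1 / (L : ℝ) +
      Real.sqrt (1 + (S : ℝ) / ((V : ℝ) * Y0)) / (Real.sqrt ((L : ℝ) * V) * S) +
      Real.sqrt ((L' : ℝ) * V) * S / N with hι
  have hι0 : 0 ≤ ι := by positivity
  set ρ : ℝ := Real.sqrt ι with hρ
  have hρ0 : 0 ≤ ρ := Real.sqrt_nonneg _
  set Q : ℝ := (Y0 : ℝ) / V + (Y0 : ℝ) ^ 2 * ρ with hQ
  have hQ0 : 0 ≤ Q := by positivity
  set J : ℝ := (R : ℝ) * (G : ℝ) ^ 2 * N with hJ
  have hJ0 : 0 ≤ J := by positivity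
  set E : ℝ := J * (Real.sqrt (C * T ^ A) * Real.sqrt (7 * Q)) with hE
  have hE0 : 0 ≤ E := by positivity
  have hRG : 4 * (R * G ^ 2) ≤ M1 * Y1 := by
    have he2 : 0 < e ^ 2 := by positivity
    refine Nat.le_of_mul_le_mul_left ?_ he2
    calc e ^ 2 * (4 * (R * G ^ 2)) = 4 * (R * (e * G) ^ 2) := by ring
      _ ≤ 4 * (R * S ^ 2) :=
          Nat.mul_le_mul_left _ (Nat.mul_le_mul_left _ (Nat.pow_le_pow_left nG 2))
      _ ≤ M * Y0 := hY0
      _ ≤ (e * M1) * (e * Y1) := Nat.mul_le_mul nM.le nY.le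
      _ = e ^ 2 * (M1 * Y1) := by ring
  have hb := h2 a ρf e k R G M1 N H Y1 (PE P e) γ ω E hR nG1 nM1 nY1 hRG hE0 hCf (by
    intro i Hs γ' hi hHs hn hsup
    have hp1 : (1 : ℝ) ≤ 2 ^ i := one_le_pow₀ (by norm_num)
    have hi' : ((2 ^ i * Y1 : ℕ) : ℝ) ≤ 2 * (2 * H + Y0) := by
      have k1 : ((2 ^ i * Y1 : ℕ) : ℝ) ≤ 2 * H + Y1 := by exact_mod_cast hi
      have k2 : (Y1 : ℝ) ≤ e * Y1 := le_mul_of_one_le_left hY10.le he1
      have k3 : (0 : ℝ) ≤ H := Nat.cast_nonneg _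
      linarith
    have hX' : 1600 * (e : ℝ) ^ 2 * (R : ℝ) ^ 2 * (G : ℝ) ^ 4 * (N : ℝ) ^ 2 * (V1 : ℝ) ^ 2 *
        (((2 ^ i * Y1 : ℕ) : ℝ)) ^ 2 * (L : ℝ) ^ 2 ≤ X := by
      refine le_trans ?_ hX
      have k1 : (((2 ^ i * Y1 : ℕ) : ℝ)) ^ 2 ≤ (2 * (2 * H + Y0 : ℝ)) ^ 2 :=
        pow_le_pow_left₀ (by positivity) hi' 2
      have k2 : ((e : ℝ) * V1) ^ 2 ≤ (V : ℝ) ^ 2 := pow_le_pow_left₀ (by positivity) hV1a 2
      have k3 : (G : ℝ) ^ 4 ≤ (S : ℝ) ^ 4 := pow_le_pow_left₀ hG0.le hGS 4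
      calc 1600 * (e : ℝ) ^ 2 * (R : ℝ) ^ 2 * (G : ℝ) ^ 4 * (N : ℝ) ^ 2 * (V1 : ℝ) ^ 2 *
            (((2 ^ i * Y1 : ℕ) : ℝ)) ^ 2 * (L : ℝ) ^ 2
          = 1600 * (R : ℝ) ^ 2 * (N : ℝ) ^ 2 * (L : ℝ) ^ 2 *
            ((G : ℝ) ^ 4 * (((e : ℝ) * V1) ^ 2 * (((2 ^ i * Y1 : ℕ) : ℝ)) ^ 2)) := by ring
        _ ≤ 1600 * (R : ℝ) ^ 2 * (N : ℝ) ^ 2 * (L : ℝ) ^ 2 *
            ((S : ℝ) ^ 4 * ((V : ℝ) ^ 2 * (2 * (2 * H + Y0 : ℝ)) ^ 2)) := by
            refine mul_le_mul_of_nonneg_left ?_ (by positivity)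
            exact mul_le_mul k3 (mul_le_mul k2 k1 (by positivity) (by positivity))
              (by positivity) (by positivity)
        _ = 6400 * ((R : ℝ) ^ 2 * (S : ℝ) ^ 4 * (N : ℝ) ^ 2 * (V : ℝ) ^ 2 * (2 * H + Y0 : ℝ) ^ 2 *
            (L : ℝ) ^ 2) := by ring
        _ ≤ 10000 * ((R : ℝ) ^ 2 * (S : ℝ) ^ 4 * (N : ℝ) ^ 2 * (V : ℝ) ^ 2 * (2 * H + Y0 : ℝ) ^ 2 *
            (L : ℝ) ^ 2) := mul_le_mul_of_nonneg_right (by norm_num) (by positivity)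
        _ = _ := by ring
    have h3 := h X T a (fun r g => (iv e (r * g) : ℤ) * A' r (e * g)) ρf e k R G N (2 ^ i * Y1) V1 L L' r0
      (fun g => v (e * g) / Nat.gcd (v (e * g)) e) Hs γ' ω hT he hR nG1 hN
      (Nat.mul_pos (by positivity) nY1) (by omega) hL hX' hRN hHs hn hω (by
        intro h' r s1 s2 hne
        have hm := (mem_PE he).1 (hsup h' r s1 s2 hne).1
        obtain ⟨-, q1, q2, q3, q4, q5, q6⟩ := hP (r, e * s1) hm
        exact ⟨q1, q2, q3, Beo_dvd he q4 q5 q6 nV nV2⟩) (by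
        intro h' r s1 s2 hne hcop
        obtain ⟨k1, k2⟩ := hsup h' r s1 s2 hne
        have m1 := (mem_PE he).1 k1
        have m2 := (mem_PE he).1 k2
        exact Beo_class (hP (r, e * s2) m2).1 (hCp r s1 s2 m1 m2 hcop).2)
    refine Beo_step _ (C * T ^ A) J (7 * Q) _ (2 ^ i) hJ0 (by positivity) (by positivity) (by positivity) h3 ?_
    have hin := Beo_inner e S V Y0 L L' N G V1 Y1 (2 ^ i) he1 hS' hV' hY' hL1 (Nat.cast_nonneg _) hN' hG hG3
      hV1a hV1b hY1a hp1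
    have hbr := Beo_brk e V Y0 V1 Y1 (2 ^ i) ρ ι _ he1 hV' hY' hV10 hY10 hV1b hY1b hp1 hin hι0 hρ
    push_cast
    exact hbr)
  refine hb.trans ?_
  have e1 : 32 * (M1 : ℝ) * E / ((R : ℝ) * (G : ℝ) ^ 2) =
      32 * ((M1 : ℝ) * N) * Real.sqrt (7 * Q) * Real.sqrt (C * T ^ A) := by
    rw [hE, hJ]
    field_simp
  rw [e1]
  have e2 : (M1 : ℝ) * N ≤ 2 * ((M : ℝ) * N / e) := by
    rw [← mul_div_assoc, le_div_iff₀ he']
    have := mul_le_mul_of_nonneg_right hM1b hN'.le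
    linarith
  have e3 : Real.sqrt (7 * Q) ≤ 3 * Real.sqrt Q := by
    rw [Real.sqrt_le_left (by positivity), mul_pow, Real.sq_sqrt hQ0]
    linarith
  have e4 := Beo_sqrt C T A hC hT1
  calc 32 * ((M1 : ℝ) * N) * Real.sqrt (7 * Q) * Real.sqrt (C * T ^ A)
      ≤ 32 * (2 * ((M : ℝ) * N / e)) * (3 * Real.sqrt Q) * ((1 + C) * T ^ A) := by
        refine mul_le_mul (mul_le_mul (mul_le_mul_of_nonneg_left e2 (by norm_num)) e3
          (Real.sqrt_nonneg _) (by positivity)) e4 (Real.sqrt_nonneg _) (by positivity)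
    _ = 192 * (1 + C) * T ^ A * ((M : ℝ) * N / e) * Real.sqrt Q := by ring

end Pool.Agent.Lib.MS
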