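import Pool.Agent.Lib.MS.SpecB

/-!
MP_00e23e_nt, directory Lib/MS, chapter B, module Bet (helper96): Type II, common factor e.
-/

namespace Pool.Agent.Lib.MS

open Finset Pool.Agent.Lib.EH3 Pool.Agent.Lib.TB Pool.Agent.Results.MP_00e23e_nt Pool.Agent.Lib.MI

private lemma Bet_sqrt {C t : ℝ} (hC : 0 < C) (ht : 1 ≤ t) : Real.sqrt (C * t) ≤ (1 + C) * t := by
  rw [Real.sqrt_le_left (by positivity)]
  have h1 : C * t ≤ (1 + C) * t := by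
    apply mul_le_mul_of_nonneg_right _ (by linarith)
    linarith
  have h2 : 1 ≤ (1 + C) * t := by nlinarith
  nlinarith

private lemma Bet_div {m e : ℕ} (he : 1 ≤ e) :
    ((m / e : ℕ) : ℝ) * e ≤ m ∧ (m : ℝ) ≤ (((m / e : ℕ) : ℝ) + 1) * e := by
  constructor
  · exact_mod_cast Nat.div_mul_le_self m e
  · have h : m < (m / e + 1) * e := by
      have h1 := Nat.div_add_mod m e
      have h2 := Nat.mod_lt m (Nat.lt_of_lt_of_le Nat.zero_lt_one he)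
      calc m = e * (m / e) + m % e := h1.symm
        _ < e * (m / e) + e := by omega
        _ = (m / e + 1) * e := by ring
    exact_mod_cast h.le

private lemma Bet_G {S e : ℕ} (he : 1 ≤ e) (h : 4 * e ≤ S) : 4 ≤ S / e ∧ ((S / e : ℕ) : ℝ) * e ≤ S ∧
    3 * (S : ℝ) ≤ 4 * (((S / e : ℕ) : ℝ) * e) ∧ ((S / e : ℕ) : ℝ) ≤ S := by
  obtain ⟨h1, h2⟩ := Bet_div (m := S) he
  have hepos : 0 < e := he
  have h3 : (4 : ℝ) * e ≤ S := by exact_mod_cast h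
  refine ⟨(Nat.le_div_iff_mul_le hepos).2 h, h1, ?_, ?_⟩
  · rw [add_mul, one_mul] at h2
    linarith
  · exact_mod_cast Nat.div_le_self S e

private lemma Bet_M {M e : ℕ} (he : 1 ≤ e) (h : e ≤ M) : (M : ℝ) ≤ ((M / e + 1 : ℕ) : ℝ) * e ∧
    ((M / e + 1 : ℕ) : ℝ) * e ≤ 2 * M := by
  obtain ⟨h1, h2⟩ := Bet_div (m := M) he
  have h3 : (e : ℝ) ≤ M := by exact_mod_cast h
  rw [Nat.cast_add, Nat.cast_one]
  refine ⟨h2, ?_⟩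
  rw [add_mul, one_mul]
  linarith

private lemma Bet_Y {Y e : ℕ} (he : 1 ≤ e) (h : 1 ≤ Y) : (Y : ℝ) ≤ ((Y / e + 1 : ℕ) : ℝ) * e ∧
    ((Y / e + 1 : ℕ) : ℝ) * e ≤ Y + e ∧ ((Y / e + 1 : ℕ) : ℝ) ≤ 2 * Y := by
  obtain ⟨h1, h2⟩ := Bet_div (m := Y) he
  have h3 : (1 : ℝ) ≤ Y := by exact_mod_cast h
  have h4 : ((Y / e : ℕ) : ℝ) ≤ Y := by exact_mod_cast Nat.div_le_self Y e
  rw [Nat.cast_add, Nat.cast_one]
  refine ⟨h2, ?_, ?_⟩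
  · rw [add_mul, one_mul]
    linarith
  · linarith

private lemma Bet_MY {R G e S M Y M1 Y1 : ℝ} (hR : 0 < R) (he : 0 < e) (hG : 0 ≤ G) (hY : 0 ≤ Y) (hM1 : 0 ≤ M1)
    (h1 : G * e ≤ S) (h2 : M ≤ M1 * e) (h3 : Y ≤ Y1 * e) (h : 4 * (R * S ^ 2) ≤ M * Y) :
    4 * (R * G ^ 2) ≤ M1 * Y1 := by
  have q0 : 0 ≤ G * e := mul_nonneg hG he.le
  have q1 : (G * e) ^ 2 ≤ S ^ 2 := pow_le_pow_left₀ q0 h1 2
  have q2 : R * (G * e) ^ 2 ≤ R * S ^ 2 := mul_le_mul_of_nonneg_left q1 hR.le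
  have q3 : M * Y ≤ (M1 * e) * (Y1 * e) := mul_le_mul h2 h3 hY (mul_nonneg hM1 he.le)
  have q4 : 4 * (R * G ^ 2) * e ^ 2 ≤ (M1 * Y1) * e ^ 2 := by
    have e1 : 4 * (R * G ^ 2) * e ^ 2 = 4 * (R * (G * e) ^ 2) := by ring
    have e2 : (M1 * Y1) * e ^ 2 = (M1 * e) * (Y1 * e) := by ring
    rw [e1, e2]
    linarith
  exact le_of_mul_le_mul_right q4 (by positivity)

/-- the class of b / e -/
private lemma Bet_cls {e r : ℕ} {x y w : ℤ} (h : e.Coprime r) (hr : 1 ≤ r) (h1 : (r : ℤ) ∣ (e : ℤ) * x - y)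
    (h2 : (r : ℤ) ∣ y - w) : (r : ℤ) ∣ x - (iv e r : ℤ) * w := by
  have h3 := iv_dvd h hr
  have h4 : (r : ℤ) ∣ (e : ℤ) * x - w := by
    have := dvd_add h1 h2
    rwa [sub_add_sub_cancel] at this
  have h5 : x - (iv e r : ℤ) * w = (iv e r : ℤ) * ((e : ℤ) * x - w) - ((iv e r : ℤ) * e - 1) * x := by ring
  rw [h5]
  exact dvd_sub (dvd_mul_of_dvd_right h4 _) (dvd_mul_of_dvd_left h3 _)

/-- the middle term -/
private lemma Bet_mid {G S e Y Y1 : ℝ} (hS : 0 < S) (he : 1 ≤ e) (hG : 3 * S ≤ 4 * (G * e)) (heS : 4 * e ≤ S)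
    (hY : 0 ≤ Y) (hY1 : Y1 * e ≤ Y + e) : Y1 / (G ^ 2 * e) ≤ 4 * (Y / S ^ 2 + 1 / S) := by
  have he0 : 0 < e := by linarith
  have hG0 : 0 < G := by
    by_contra hc
    have : G * e ≤ 0 := mul_nonpos_of_nonpos_of_nonneg (not_lt.1 hc) he0.le
    linarith
  have h1 : 9 * S ^ 2 ≤ 16 * (G ^ 2 * e ^ 2) := by
    have := pow_le_pow_left₀ (by positivity) hG 2
    calc 9 * S ^ 2 = (3 * S) ^ 2 := by ring
      _ ≤ (4 * (G * e)) ^ 2 := this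
      _ = 16 * (G ^ 2 * e ^ 2) := by ring
  have h2 : Y1 / (G ^ 2 * e) = (Y1 * e) / (G ^ 2 * e ^ 2) := by
    field_simp
  rw [h2, div_le_iff₀ (by positivity)]
  have h3 : Y + e ≤ Y + S / 4 := by linarith
  have h4 : 4 * (Y / S ^ 2 + 1 / S) * (9 / 16 * S ^ 2) = 9 / 4 * Y + 9 / 4 * S := by
    field_simp
    ring
  have h5 : 4 * (Y / S ^ 2 + 1 / S) * (9 / 16 * S ^ 2) ≤ 4 * (Y / S ^ 2 + 1 / S) * (G ^ 2 * e ^ 2) := by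
    apply mul_le_mul_of_nonneg_left _ (by positivity)
    linarith
  linarith

/-- the bracket -/
private lemma Bet_brk {G S e Y Y1 R N p w : ℝ} (hS : 0 < S) (he : 1 ≤ e) (hG : 3 * S ≤ 4 * (G * e)) (heS : 4 * e ≤ S)
    (hY : 0 ≤ Y) (hY1 : Y1 * e ≤ Y + e) (hG0 : 0 ≤ G) (hGe : G * e ≤ S) (hYY : Y1 ≤ 2 * Y) (hY0 : 0 ≤ Y1)
    (hR : 0 < R) (hN : 0 < N) (hp : 1 ≤ p) (hw : 0 ≤ w) :
    w * (p * Y1) ^ 2 * (e * G ^ 4) / N + (p * Y1) / (G ^ 2 * e) + (p * Y1) ^ 2 / R ≤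
      p ^ 2 * (4 * (w * Y ^ 2 * S ^ 4 / N + Y / S ^ 2 + Y ^ 2 / R + 1 / S)) := by
  have he0 : 0 < e := by linarith
  have hp0 : 0 ≤ p := by linarith
  have hY2 : Y1 ^ 2 ≤ 4 * Y ^ 2 := by
    calc Y1 ^ 2 ≤ (2 * Y) ^ 2 := pow_le_pow_left₀ hY0 hYY 2
      _ = 4 * Y ^ 2 := by ring
  have hGe4 : e * G ^ 4 ≤ S ^ 4 := by
    have h3 : e ≤ e ^ 4 := le_self_pow₀ he (by norm_num)
    calc e * G ^ 4 ≤ e ^ 4 * G ^ 4 := mul_le_mul_of_nonneg_right h3 (by positivity)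
      _ = (G * e) ^ 4 := by ring
      _ ≤ S ^ 4 := pow_le_pow_left₀ (by positivity) hGe 4
  have a1 : w * (p * Y1) ^ 2 * (e * G ^ 4) / N ≤ p ^ 2 * (4 * (w * Y ^ 2 * S ^ 4 / N)) := by
    have h3 : Y1 ^ 2 * (e * G ^ 4) ≤ 4 * Y ^ 2 * S ^ 4 := mul_le_mul hY2 hGe4 (by positivity) (by positivity)
    have h4 : 0 ≤ w * p ^ 2 / N := by positivity
    calc w * (p * Y1) ^ 2 * (e * G ^ 4) / N = (w * p ^ 2 / N) * (Y1 ^ 2 * (e * G ^ 4)) := by ring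
      _ ≤ (w * p ^ 2 / N) * (4 * Y ^ 2 * S ^ 4) := mul_le_mul_of_nonneg_left h3 h4
      _ = p ^ 2 * (4 * (w * Y ^ 2 * S ^ 4 / N)) := by ring
  have a3 : (p * Y1) ^ 2 / R ≤ p ^ 2 * (4 * (Y ^ 2 / R)) := by
    have h4 : 0 ≤ p ^ 2 / R := by positivity
    calc (p * Y1) ^ 2 / R = (p ^ 2 / R) * Y1 ^ 2 := by ring
      _ ≤ (p ^ 2 / R) * (4 * Y ^ 2) := mul_le_mul_of_nonneg_left hY2 h4
      _ = p ^ 2 * (4 * (Y ^ 2 / R)) := by ring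
  have a2 : p * Y1 / (G ^ 2 * e) ≤ p ^ 2 * (4 * (Y / S ^ 2 + 1 / S)) := by
    have h3 := Bet_mid hS he hG heS hY hY1
    have h4 : p ≤ p ^ 2 := le_self_pow₀ hp (by norm_num)
    have h5 : 0 ≤ Y1 / (G ^ 2 * e) := by positivity
    calc p * Y1 / (G ^ 2 * e) = p * (Y1 / (G ^ 2 * e)) := by ring
      _ ≤ p ^ 2 * (Y1 / (G ^ 2 * e)) := mul_le_mul_of_nonneg_right h4 h5
      _ ≤ p ^ 2 * (4 * (Y / S ^ 2 + 1 / S)) := mul_le_mul_of_nonneg_left h3 (by positivity)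
  calc w * (p * Y1) ^ 2 * (e * G ^ 4) / N + (p * Y1) / (G ^ 2 * e) + (p * Y1) ^ 2 / R
      ≤ p ^ 2 * (4 * (w * Y ^ 2 * S ^ 4 / N)) + p ^ 2 * (4 * (Y / S ^ 2 + 1 / S)) + p ^ 2 * (4 * (Y ^ 2 / R)) :=
        add_le_add (add_le_add a1 a2) a3
    _ = p ^ 2 * (4 * (w * Y ^ 2 * S ^ 4 / N + Y / S ^ 2 + Y ^ 2 / R + 1 / S)) := by ring

/-- the size condition -/
private lemma Bet_sz {R G S N y Y2 X : ℝ} (hG : 0 ≤ G) (hGS : G ≤ S) (hy : 0 ≤ y) (hyY : y ≤ 2 * Y2)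
    (hX : 400 * R ^ 2 * S ^ 4 * N ^ 2 * Y2 ^ 2 ≤ X) : 100 * R ^ 2 * G ^ 4 * N ^ 2 * y ^ 2 ≤ X := by
  refine le_trans ?_ hX
  have h6 : y ^ 2 ≤ (2 * Y2) ^ 2 := pow_le_pow_left₀ hy hyY 2
  have h7 : G ^ 4 ≤ S ^ 4 := pow_le_pow_left₀ hG hGS 4
  calc 100 * R ^ 2 * G ^ 4 * N ^ 2 * y ^ 2 ≤ 100 * R ^ 2 * S ^ 4 * N ^ 2 * (2 * Y2) ^ 2 := by
        apply mul_le_mul _ h6 (by positivity) (by positivity)
        apply mul_le_mul_of_nonneg_right _ (by positivity)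
        exact mul_le_mul_of_nonneg_left h7 (by positivity)
    _ = 400 * R ^ 2 * S ^ 4 * N ^ 2 * Y2 ^ 2 := by ring

private lemma Bet_sq {K D Q p : ℝ} (hD : 0 ≤ D) (hQ : 0 ≤ Q) :
    (p * (K * Real.sqrt D * (2 * Real.sqrt Q))) ^ 2 = D * K ^ 2 * (p ^ 2 * (4 * Q)) := by
  have e1 : Real.sqrt D ^ 2 = D := Real.sq_sqrt hD
  have e2 : Real.sqrt Q ^ 2 = Q := Real.sq_sqrt hQ
  calc (p * (K * Real.sqrt D * (2 * Real.sqrt Q))) ^ 2 =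
      Real.sqrt D ^ 2 * K ^ 2 * (p ^ 2 * (4 * Real.sqrt Q ^ 2)) := by ring
    _ = D * K ^ 2 * (p ^ 2 * (4 * Q)) := by rw [e1, e2]

private lemma Bet_fin {C t M1 M N e q R G : ℝ} (hC : 0 < C) (ht : 1 ≤ t) (he : 0 < e) (hN : 0 < N) (hR : 0 < R)
    (hG : 0 < G) (hM1 : 0 ≤ M1) (hM : M1 * e ≤ 2 * M) (hq : 0 ≤ q) :
    32 * M1 * ((R * G ^ 2 * N) * Real.sqrt (C * t) * (2 * q)) / (R * G ^ 2) ≤
      128 * (1 + C) * t * (M * N / e) * q := by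
  have h3 : 32 * M1 * ((R * G ^ 2 * N) * Real.sqrt (C * t) * (2 * q)) / (R * G ^ 2) =
      64 * (Real.sqrt (C * t) * ((M1 * N) * q)) := by
    field_simp
    ring
  have h4 := Bet_sqrt hC ht
  have h5 : 0 ≤ (M1 * N) * q := by positivity
  have h6 : M1 ≤ 2 * (M / e) := by
    rw [← mul_div_assoc, le_div_iff₀ he]
    exact hM
  have h7 : (M1 * N) * q ≤ (2 * (M / e) * N) * q :=
    mul_le_mul_of_nonneg_right (mul_le_mul_of_nonneg_right h6 hN.le) hq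
  have h8 : 0 ≤ (1 + C) * t := by positivity
  have h9 := mul_le_mul_of_nonneg_right h4 h5
  have h10 := mul_le_mul_of_nonneg_left h7 h8
  have h11 : 128 * (1 + C) * t * (M * N / e) * q = 64 * ((1 + C) * t * ((2 * (M / e) * N) * q)) := by ring
  rw [h3, h11]
  linarith

theorem tBet (h1 : T2eStmt) (h2 : BdhStmt) : BetStmt := by
  obtain ⟨C, hC, A0, hT2⟩ := h1
  refine ⟨128 * (1 + C), by positivity, A0, ?_⟩
  intro X T z a ρ A b e k R S M N H Y0 P γ ω hT he heS heM heN hR hN hY hX hMY hCf hω hP hC2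
  have hTA : 1 ≤ T ^ A0 := one_le_pow₀ hT.1
  have he' : (1 : ℝ) ≤ e := by exact_mod_cast he
  have heS' : 4 * (e : ℝ) ≤ S := by exact_mod_cast heS
  have hMY' : (4 : ℝ) * (R * (S : ℝ) ^ 2) ≤ M * Y0 := by exact_mod_cast hMY
  have hR' : (0 : ℝ) < R := by exact_mod_cast hR
  have hN' : (0 : ℝ) < N := by exact_mod_cast hN
  have he0 : (0 : ℝ) < e := lt_of_lt_of_le one_pos he'
  have hS' : (0 : ℝ) < S := lt_of_lt_of_le (mul_pos four_pos he0) heS'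
  obtain ⟨hG4, hGe, hG3, hGS⟩ := Bet_G he heS
  obtain ⟨hMa, hMb⟩ := Bet_M he heM
  obtain ⟨hYc, hYd, hYe⟩ := Bet_Y he hY
  have hM1pos : 1 ≤ M / e + 1 := Nat.le_add_left 1 _
  have hY1pos : 1 ≤ Y0 / e + 1 := Nat.le_add_left 1 _
  have hG1 : 1 ≤ S / e := le_trans (by norm_num) hG4
  generalize M / e + 1 = M1 at *
  generalize Y0 / e + 1 = Y1 at *
  generalize S / e = G at *
  have hG0 : (0 : ℝ) < G := by exact_mod_cast hG1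
  have hMY1 : 4 * (R * G ^ 2) ≤ M1 * Y1 := by
    have := Bet_MY hR' he0 hG0.le (Nat.cast_nonneg Y0) (Nat.cast_nonneg M1) hGe hMa hYc hMY'
    exact_mod_cast this
  have hQ0 : 0 ≤ Real.sqrt R * (Y0 : ℝ) ^ 2 * (S : ℝ) ^ 4 / N + (Y0 : ℝ) / (S : ℝ) ^ 2 + (Y0 : ℝ) ^ 2 / R + 1 / S := by
    positivity
  have hD0 : 0 ≤ C * T ^ A0 := mul_nonneg hC.le (le_trans zero_le_one hTA)
  have hE0 : 0 ≤ ((R : ℝ) * (G : ℝ) ^ 2 * N) * Real.sqrt (C * T ^ A0) * (2 * Real.sqrt (Real.sqrt R * (Y0 : ℝ) ^ 2 *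
      (S : ℝ) ^ 4 / N + (Y0 : ℝ) / (S : ℝ) ^ 2 + (Y0 : ℝ) ^ 2 / R + 1 / S)) :=
    mul_nonneg (mul_nonneg (by positivity) (Real.sqrt_nonneg _)) (mul_nonneg zero_le_two (Real.sqrt_nonneg _))
  refine (h2 a ρ e k R G M1 N H Y1 (PE P e) γ ω _ hR hG1 hM1pos hY1pos hMY1 hE0 hCf ?_).trans
    (Bet_fin hC hTA he0 hN' hR' hG0 (Nat.cast_nonneg M1) hMb (Real.sqrt_nonneg _))
  intro i Hs γ' hi hHs hγ' hsup
  have hp : (1 : ℝ) ≤ 2 ^ i := one_le_pow₀ (by norm_num)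
  have hi' : ((2 ^ i * Y1 : ℕ) : ℝ) ≤ 2 * H + Y1 := by exact_mod_cast hi
  have hi2 : ((2 ^ i * Y1 : ℕ) : ℝ) ≤ 2 * (2 * H + Y0) := by
    have : (0 : ℝ) ≤ H := Nat.cast_nonneg _
    linarith
  have hH1 : 1 ≤ 2 ^ i * Y1 := Nat.one_le_iff_ne_zero.2 (Nat.mul_ne_zero (by positivity) (Nat.one_le_iff_ne_zero.1 hY1pos))
  have hb : ∀ h r s1 s2, γ' h r s1 s2 ≠ 0 → e.Coprime r ∧
      (s1.Coprime s2 → (r : ℤ) ∣ a r s1 s2 - (fun r => (iv e r : ℤ) * b r) r) := by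
    intro h r s1 s2 hne
    obtain ⟨m1, m2⟩ := hsup h r s1 s2 hne
    rw [mem_PE he] at m1 m2
    have hw := hP.1.1 _ m1
    have hr1 : 1 ≤ r := le_trans hR hw.1.le
    have hcr : e.Coprime r := by
      have h3 : r.Coprime (e * s1) := Nat.coprime_of_squarefree_mul hw.2.2.2.2.1
      exact (Nat.Coprime.coprime_mul_right_right h3).symm
    refine ⟨hcr, fun hcop => ?_⟩
    have k1 := (hC2 r s1 s2 m1 m2 hcop).1
    have k2 : (r : ℤ) ∣ (e : ℤ) * a r s1 s2 - A r (e * s1) :=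
      (Int.natCast_dvd_natCast.2 (dvd_mul_right _ _)).trans k1
    have k3 : (r : ℤ) ∣ A r (e * s1) - b r := hw.2.2.2.2.2.2.1
    exact Bet_cls hcr hr1 k2 k3
  have h7 := hT2 X T a (fun r => (iv e r : ℤ) * b r) ρ e k R G N (2 ^ i * Y1) Hs γ' ω hT he heN hR hG1 hN
    hH1 (Bet_sz hG0.le hGS (Nat.cast_nonneg _) hi2 hX) hHs hγ' hω hb
  have h8 := Bet_brk (w := Real.sqrt R) hS' he' hG3 heS' (Nat.cast_nonneg Y0) hYd hG0.le hGe hYe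
    (Nat.cast_nonneg Y1) hR' hN' hp (Real.sqrt_nonneg _)
  have h9 : ((2 ^ i * Y1 : ℕ) : ℝ) = (2 : ℝ) ^ i * Y1 := by push_cast; ring
  rw [h9] at h7
  refine (pow_le_pow_iff_left₀ (norm_nonneg _) (mul_nonneg (by positivity) hE0) two_ne_zero).1 ?_
  rw [Bet_sq hD0 hQ0]
  exact h7.trans (mul_le_mul_of_nonneg_left h8 (mul_nonneg hD0 (sq_nonneg _)))

end Pool.Agent.Lib.MS
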