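import Pool.Agent.Lib.MS.SpecD

/-!
MP_00e23e_nt, Lib/MS, module Dey: opening the square, the pairs with Inc separated (helper85; model Lib/ML/Dex.lean).
-/

namespace Pool.Agent.Lib.MS

open Finset Pool.Agent.Lib.EH3 Pool.Agent.Lib.TB Pool.Agent.Results.MP_00e23e_nt Pool.Agent.Lib.MI

private lemma Dey_ten_sum {ι : Type} (s : Finset ι) (M : ℕ) (g : ι → ℕ → ℂ) :
    Ten M (fun m => ∑ i ∈ s, g i m) = ∑ i ∈ s, Ten M (g i) := by
  unfold Ten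
  rw [← Finset.mul_sum]
  refine congrArg _ ?_
  calc ∑ i ∈ range M, ∑ j ∈ range M, ∑ k ∈ s, g k (i + j + M / 2)
      = ∑ i ∈ range M, ∑ k ∈ s, ∑ j ∈ range M, g k (i + j + M / 2) :=
        Finset.sum_congr rfl fun i _ => Finset.sum_comm
    _ = ∑ k ∈ s, ∑ i ∈ range M, ∑ j ∈ range M, g k (i + j + M / 2) := Finset.sum_comm

private lemma Dey_ten_mul (M : ℕ) (x : ℂ) (g : ℕ → ℂ) :
    Ten M (fun m => x * g m) = x * Ten M g := by
  unfold Ten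
  simp only [← Finset.mul_sum]
  ring

private lemma Dey_tr_cast (M : ℕ) (F : ℕ → ℝ) : ((TR M F : ℝ) : ℂ) = Ten M (fun m => (F m : ℂ)) := by
  unfold TR Ten
  push_cast
  rfl

private lemma Dey_conj_dl (a : ℤ) (q t : ℕ) : (starRingEnd ℂ) (dl a q t) = dl a q t := by
  unfold dl
  split_ifs <;> simp

private lemma Dey_conj_Dl (a : ℤ) (r s t : ℕ) : (starRingEnd ℂ) (Dl a r s t) = Dl a r s t := by
  unfold Dl
  simp only [map_sub, map_mul, map_div₀, map_one, map_natCast, Dey_conj_dl]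

private lemma Dey_dl_congr (a a' : ℤ) (q t : ℕ) (h : (q : ℤ) ∣ a - a') : dl a q t = dl a' q t := by
  unfold dl
  have h1 : ((q : ℤ) ∣ (t : ℤ) - a) ↔ ((q : ℤ) ∣ (t : ℤ) - a') := by
    constructor
    · intro h2
      have h3 := dvd_add h2 h
      rwa [show (t : ℤ) - a + (a - a') = (t : ℤ) - a' by ring] at h3
    · intro h2
      have h3 := dvd_sub h2 h
      rwa [show (t : ℤ) - a' - (a - a') = (t : ℤ) - a by ring] at h3
  by_cases h2 : (q : ℤ) ∣ (t : ℤ) - a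
  · rw [if_pos h2, if_pos (h1.mp h2)]
  · rw [if_neg h2, if_neg (fun h3 => h2 (h1.mpr h3))]

private lemma Dey_Dl_congr (a a' : ℤ) (r s t : ℕ) (h : ((r * s : ℕ) : ℤ) ∣ a - a') :
    Dl a r s t = Dl a' r s t := by
  unfold Dl
  rw [Dey_dl_congr a a' (r * s) t h, Dey_dl_congr a a' r t
    (dvd_trans (by push_cast; exact dvd_mul_right _ _) h)]

private lemma Dey_sq (A : ℕ → ℕ → ℤ) (r S N m : ℕ) (β : ℕ → ℂ) (c : ℕ × ℕ → ℂ) :
    ((‖∑ s ∈ Ioc S (2 * S), c (r, s) * ∑ n ∈ Ioc N (2 * N), β n * Dl (A r s) r s (m * n)‖ ^ 2 : ℝ) : ℂ) =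
      ∑ s1 ∈ Ioc S (2 * S), ∑ s2 ∈ Ioc S (2 * S), ∑ n1 ∈ Ioc N (2 * N), ∑ n2 ∈ Ioc N (2 * N),
        c (r, s1) * (starRingEnd ℂ) (c (r, s2)) * (β n1 * (starRingEnd ℂ) (β n2)) *
          (Dl (A r s1) r s1 (m * n1) * Dl (A r s2) r s2 (m * n2)) := by
  push_cast
  rw [← Complex.mul_conj', map_sum, Finset.sum_mul_sum]
  refine Finset.sum_congr rfl fun s1 _ => Finset.sum_congr rfl fun s2 _ => ?_
  rw [map_mul, map_sum]
  have h1 : c (r, s1) * (∑ n ∈ Ioc N (2 * N), β n * Dl (A r s1) r s1 (m * n)) *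
      ((starRingEnd ℂ) (c (r, s2)) * ∑ n ∈ Ioc N (2 * N),
        (starRingEnd ℂ) (β n * Dl (A r s2) r s2 (m * n))) =
      c (r, s1) * (starRingEnd ℂ) (c (r, s2)) * ((∑ n ∈ Ioc N (2 * N), β n * Dl (A r s1) r s1 (m * n)) *
        ∑ n ∈ Ioc N (2 * N), (starRingEnd ℂ) (β n * Dl (A r s2) r s2 (m * n))) := by ring
  rw [h1, Finset.sum_mul_sum, Finset.mul_sum]
  refine Finset.sum_congr rfl fun n1 _ => ?_
  rw [Finset.mul_sum]
  refine Finset.sum_congr rfl fun n2 _ => ?_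
  rw [map_mul, Dey_conj_Dl]
  ring

private lemma Dey_tr (A : ℕ → ℕ → ℤ) (r S M N : ℕ) (β : ℕ → ℂ) (c : ℕ × ℕ → ℂ) :
    ((TR M (fun m => ‖∑ s ∈ Ioc S (2 * S), c (r, s) *
      ∑ n ∈ Ioc N (2 * N), β n * Dl (A r s) r s (m * n)‖ ^ 2) : ℝ) : ℂ) =
      ∑ s1 ∈ Ioc S (2 * S), ∑ s2 ∈ Ioc S (2 * S), ∑ n1 ∈ Ioc N (2 * N), ∑ n2 ∈ Ioc N (2 * N),
        c (r, s1) * (starRingEnd ℂ) (c (r, s2)) * (β n1 * (starRingEnd ℂ) (β n2)) *
          ML.Ph2 (A r s1) (A r s2) M r s1 s2 n1 n2 := by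
  rw [Dey_tr_cast]
  have h1 : (fun m : ℕ => ((‖∑ s ∈ Ioc S (2 * S), c (r, s) *
      ∑ n ∈ Ioc N (2 * N), β n * Dl (A r s) r s (m * n)‖ ^ 2 : ℝ) : ℂ)) = fun m =>
      ∑ s1 ∈ Ioc S (2 * S), ∑ s2 ∈ Ioc S (2 * S), ∑ n1 ∈ Ioc N (2 * N), ∑ n2 ∈ Ioc N (2 * N),
        c (r, s1) * (starRingEnd ℂ) (c (r, s2)) * (β n1 * (starRingEnd ℂ) (β n2)) *
          (Dl (A r s1) r s1 (m * n1) * Dl (A r s2) r s2 (m * n2)) := funext fun m => Dey_sq A r S N m β c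
  rw [h1, Dey_ten_sum]
  refine Finset.sum_congr rfl fun s1 _ => ?_
  rw [Dey_ten_sum]
  refine Finset.sum_congr rfl fun s2 _ => ?_
  rw [Dey_ten_sum]
  refine Finset.sum_congr rfl fun n1 _ => ?_
  rw [Dey_ten_sum]
  refine Finset.sum_congr rfl fun n2 _ => ?_
  rw [Dey_ten_mul]
  rfl

private lemma Dey_ten_sub (M : ℕ) (F G : ℕ → ℂ) : Ten M F - Ten M G = Ten M (fun m => F m - G m) := by
  unfold Ten
  rw [← mul_sub, ← Finset.sum_sub_distrib]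
  simp only [← Finset.sum_sub_distrib]

private lemma Dey_ten_le (M : ℕ) (F : ℕ → ℂ) (G : ℕ → ℝ) (h : ∀ m, ‖F m‖ ≤ G m) : ‖Ten M F‖ ≤ TR M G := by
  unfold Ten TR
  have h1 : ‖(4 / (M : ℂ))‖ = 4 / (M : ℝ) := by
    rw [norm_div, Complex.norm_natCast]
    norm_num
  rw [norm_mul, h1]
  refine mul_le_mul_of_nonneg_left ?_ (by positivity)
  exact norm_sum_le_of_le _ fun i _ => norm_sum_le_of_le _ fun j _ => h _

private lemma Dey_n1 (a : ℤ) (r s t : ℕ) : ‖dl a (r * s) t‖ = D1 a r s t := by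
  unfold dl D1
  split_ifs
  · exact norm_one
  · exact norm_zero

private lemma Dey_n2 (a : ℤ) (r s t : ℕ) : ‖(1 / (s : ℂ)) * dl a r t‖ = D2 a r s t := by
  unfold dl D2
  rw [norm_mul, norm_div, norm_one, Complex.norm_natCast]
  split_ifs
  · rw [norm_one]
  · rw [norm_zero]

open Classical in
private lemma Dey_bad (A : ℕ → ℕ → ℤ) (P : Finset (ℕ × ℕ)) (z1 : ℝ) (M r s1 s2 n1 n2 : ℕ) :
    ‖ML.Ph2 (A r s1) (A r s2) M r s1 s2 n1 n2 -
      (if Inc A P z1 r s1 s2 then Pf (A r s1) (A r s2) M (r * s1) (r * s2) n1 n2 else 0)‖ ≤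
      TR M (fun m => Db A P z1 r s1 s2 n1 n2 m) := by
  unfold ML.Ph2 Pf Db
  have key : ∀ m : ℕ, ‖Dl (A r s1) r s1 (m * n1) * Dl (A r s2) r s2 (m * n2) -
      dl (A r s1) (r * s1) (m * n1) * dl (A r s2) (r * s2) (m * n2)‖ ≤
      0 + D1 (A r s1) r s1 (m * n1) * D2 (A r s2) r s2 (m * n2) +
        D2 (A r s1) r s1 (m * n1) * D1 (A r s2) r s2 (m * n2) +
        D2 (A r s1) r s1 (m * n1) * D2 (A r s2) r s2 (m * n2) := by
    intro m
    have e : Dl (A r s1) r s1 (m * n1) * Dl (A r s2) r s2 (m * n2) -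
        dl (A r s1) (r * s1) (m * n1) * dl (A r s2) (r * s2) (m * n2) =
        -(dl (A r s1) (r * s1) (m * n1) * ((1 / (s2 : ℂ)) * dl (A r s2) r (m * n2))) +
        -(((1 / (s1 : ℂ)) * dl (A r s1) r (m * n1)) * dl (A r s2) (r * s2) (m * n2)) +
        ((1 / (s1 : ℂ)) * dl (A r s1) r (m * n1)) * ((1 / (s2 : ℂ)) * dl (A r s2) r (m * n2)) := by
      unfold Dl
      ring
    rw [e, zero_add]
    refine (norm_add_le _ _).trans (add_le_add ((norm_add_le _ _).trans (add_le_add ?_ ?_)) ?_)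
    · rw [norm_neg, norm_mul, Dey_n1, Dey_n2]
    · rw [norm_neg, norm_mul, Dey_n1, Dey_n2]
    · rw [norm_mul, Dey_n2, Dey_n2]
  by_cases hI : Inc A P z1 r s1 s2
  · rw [if_pos hI, Dey_ten_sub]
    refine Dey_ten_le M _ _ fun m => ?_
    rw [if_pos hI]
    exact key m
  · rw [if_neg hI, sub_zero]
    refine Dey_ten_le M _ _ fun m => ?_
    rw [if_neg hI]
    have h1 := norm_add_le (Dl (A r s1) r s1 (m * n1) * Dl (A r s2) r s2 (m * n2) -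
      dl (A r s1) (r * s1) (m * n1) * dl (A r s2) (r * s2) (m * n2))
      (dl (A r s1) (r * s1) (m * n1) * dl (A r s2) (r * s2) (m * n2))
    rw [sub_add_cancel, norm_mul (dl (A r s1) (r * s1) (m * n1)), Dey_n1, Dey_n1] at h1
    have h2 := key m
    linarith

theorem tDey : DeyStmt := by
  classical
  intro z1 A a R S M N P β c _ hCp hβ hc hcP
  have h1 : ((∑ r ∈ Ioc R (2 * R), TR M (fun m => ‖∑ s ∈ Ioc S (2 * S), c (r, s) *
      ∑ n ∈ Ioc N (2 * N), β n * Dl (A r s) r s (m * n)‖ ^ 2) : ℝ) : ℂ) =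
      ∑ r ∈ Ioc R (2 * R), ∑ s1 ∈ Ioc S (2 * S), ∑ s2 ∈ Ioc S (2 * S), ∑ n1 ∈ Ioc N (2 * N),
        ∑ n2 ∈ Ioc N (2 * N), c (r, s1) * (starRingEnd ℂ) (c (r, s2)) *
          (β n1 * (starRingEnd ℂ) (β n2)) * ML.Ph2 (A r s1) (A r s2) M r s1 s2 n1 n2 := by
    rw [Complex.ofReal_sum]
    exact Finset.sum_congr rfl fun r _ => Dey_tr A r S M N β c
  have h2 : ∑ r ∈ Ioc R (2 * R), ∑ s1 ∈ Ioc S (2 * S), ∑ s2 ∈ Ioc S (2 * S), ∑ n1 ∈ Ioc N (2 * N),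
        ∑ n2 ∈ Ioc N (2 * N), c (r, s1) * (starRingEnd ℂ) (c (r, s2)) *
          (β n1 * (starRingEnd ℂ) (β n2)) * ML.Ph2 (A r s1) (A r s2) M r s1 s2 n1 n2 =
      ∑ r ∈ Ioc R (2 * R), ∑ s1 ∈ Ioc S (2 * S), ∑ s2 ∈ Ioc S (2 * S), ∑ n1 ∈ Ioc N (2 * N),
        ∑ n2 ∈ Ioc N (2 * N), (if GdC (a r s1 s2) r s1 s2 n1 n2 then
          c (r, s1) * (starRingEnd ℂ) (c (r, s2)) *
          (β n1 * (starRingEnd ℂ) (β n2)) * Ph (a r s1 s2) M r s1 s2 n1 n2 else 0) +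
      ∑ r ∈ Ioc R (2 * R), ∑ s1 ∈ Ioc S (2 * S), ∑ s2 ∈ Ioc S (2 * S), ∑ n1 ∈ Ioc N (2 * N),
        ∑ n2 ∈ Ioc N (2 * N), (if Inc A P z1 r s1 s2 then
          c (r, s1) * (starRingEnd ℂ) (c (r, s2)) *
          (β n1 * (starRingEnd ℂ) (β n2)) * Pf (A r s1) (A r s2) M (r * s1) (r * s2) n1 n2 else 0) +
      ∑ r ∈ Ioc R (2 * R), ∑ s1 ∈ Ioc S (2 * S), ∑ s2 ∈ Ioc S (2 * S), ∑ n1 ∈ Ioc N (2 * N),
        ∑ n2 ∈ Ioc N (2 * N), (if GdC (a r s1 s2) r s1 s2 n1 n2 then 0 else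
          c (r, s1) * (starRingEnd ℂ) (c (r, s2)) *
          (β n1 * (starRingEnd ℂ) (β n2)) * (ML.Ph2 (A r s1) (A r s2) M r s1 s2 n1 n2 -
            (if Inc A P z1 r s1 s2 then Pf (A r s1) (A r s2) M (r * s1) (r * s2) n1 n2 else 0))) := by
    simp only [← Finset.sum_add_distrib]
    refine Finset.sum_congr rfl fun r _ => Finset.sum_congr rfl fun s1 _ =>
      Finset.sum_congr rfl fun s2 _ => Finset.sum_congr rfl fun n1 _ =>
      Finset.sum_congr rfl fun n2 _ => ?_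
    by_cases hG : GdC (a r s1 s2) r s1 s2 n1 n2
    · have hco : s1.Coprime s2 := hG.1.2.2.1
      have hI : ¬ Inc A P z1 r s1 s2 := fun h => h.2.2.1 hco
      rw [if_pos hG, if_pos hG, if_neg hI, add_zero, add_zero]
      by_cases hP1 : (r, s1) ∈ P
      · by_cases hP2 : (r, s2) ∈ P
        · obtain ⟨e1, e2⟩ := hCp r s1 s2 hP1 hP2 hco
          have h3 : ML.Ph2 (A r s1) (A r s2) M r s1 s2 n1 n2 = Ph (a r s1 s2) M r s1 s2 n1 n2 := by
            unfold ML.Ph2 Ph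
            refine congrArg _ (funext fun m => ?_)
            rw [Dey_Dl_congr _ _ r s1 (m * n1) e1, Dey_Dl_congr _ _ r s2 (m * n2) e2]
          rw [h3]
        · rw [hcP _ hP2]
          simp
      · rw [hcP _ hP1]
        simp
    · rw [if_neg hG, if_neg hG, zero_add]
      split_ifs
      · ring
      · ring
  have h3 : ∑ r ∈ Ioc R (2 * R), TR M (fun m => ‖∑ s ∈ Ioc S (2 * S), c (r, s) *
      ∑ n ∈ Ioc N (2 * N), β n * Dl (A r s) r s (m * n)‖ ^ 2) ≤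
      ‖((∑ r ∈ Ioc R (2 * R), TR M (fun m => ‖∑ s ∈ Ioc S (2 * S), c (r, s) *
      ∑ n ∈ Ioc N (2 * N), β n * Dl (A r s) r s (m * n)‖ ^ 2) : ℝ) : ℂ)‖ := by
    rw [Complex.norm_real, Real.norm_eq_abs]
    exact le_abs_self _
  refine h3.trans ?_
  rw [h1, h2]
  refine (norm_add_le _ _).trans (add_le_add (norm_add_le _ _) ?_)
  have hTR0 : ∀ r s1 s2 n1 n2 : ℕ, 0 ≤ TR M (fun m => Db A P z1 r s1 s2 n1 n2 m) := fun r s1 s2 n1 n2 =>
    (norm_nonneg _).trans (Dey_bad A P z1 M r s1 s2 n1 n2)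
  refine norm_sum_le_of_le _ fun r _ => norm_sum_le_of_le _ fun s1 _ =>
    norm_sum_le_of_le _ fun s2 _ => norm_sum_le_of_le _ fun n1 _ =>
    norm_sum_le_of_le _ fun n2 _ => ?_
  by_cases hG : GdC (a r s1 s2) r s1 s2 n1 n2
  · rw [if_pos hG, norm_zero]
    split_ifs
    · exact hTR0 _ _ _ _ _
    · exact le_rfl
  · rw [if_neg hG]
    by_cases hP1 : (r, s1) ∈ P
    · by_cases hP2 : (r, s2) ∈ P
      · rw [if_pos (show ML.Bd a P r s1 s2 n1 n2 from ⟨hP1, hP2, hG⟩), norm_mul]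
        have h4 : ‖c (r, s1) * (starRingEnd ℂ) (c (r, s2)) * (β n1 * (starRingEnd ℂ) (β n2))‖ ≤ 1 := by
          rw [norm_mul, norm_mul, norm_mul, Complex.norm_conj, Complex.norm_conj]
          have e1 := mul_le_one₀ (hc (r, s1)) (norm_nonneg _) (hc (r, s2))
          have e2 := mul_le_one₀ (hβ n1) (norm_nonneg _) (hβ n2)
          exact mul_le_one₀ e1 (by positivity) e2
        refine (mul_le_mul_of_nonneg_right h4 (norm_nonneg _)).trans ?_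
        rw [one_mul]
        exact Dey_bad A P z1 M r s1 s2 n1 n2
      · rw [hcP _ hP2, map_zero, mul_zero, zero_mul, zero_mul, norm_zero]
        split_ifs
        · exact hTR0 _ _ _ _ _
        · exact le_rfl
    · rw [hcP _ hP1, zero_mul, zero_mul, zero_mul, norm_zero]
      split_ifs
      · exact hTR0 _ _ _ _ _
      · exact le_rfl

end Pool.Agent.Lib.MS
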