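import Pool.Agent.Lib.MS.SpecD

/-!
MP_00e23e_nt, THEOREM MI, version 9, chapter D: existence of the class function a for a common factor e (helper90)
-/

namespace Pool.Agent.Lib.MS

open Finset Pool.Agent.Lib.EH3 Pool.Agent.Lib.TB Pool.Agent.Results.MP_00e23e_nt Pool.Agent.Lib.MI

private theorem Ecq_one (r s1 s2 A1 A2 B e : ℤ) (h1 : IsCoprime r s2) (h2 : IsCoprime s1 s2)
    (he : IsCoprime e (r * s1 * s2)) (h3 : r ∣ A1 - B) (h4 : r ∣ A2 - B) :
    ∃ x : ℤ, r * s1 ∣ e * x - A1 ∧ r * s2 ∣ e * x - A2 := by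
  obtain ⟨u, v, huv⟩ := h1.mul_left h2
  obtain ⟨p, q, hpq⟩ := he
  have k1 : r * s1 ∣ (A1 + u * (r * s1) * (A2 - A1)) - A1 := ⟨u * (A2 - A1), by ring⟩
  have k2 : r * s2 ∣ (A1 + u * (r * s1) * (A2 - A1)) - A2 := by
    apply h1.mul_dvd
    · have h5 : A1 + u * (r * s1) * (A2 - A1) - A2 =
          (A1 - B) - (A2 - B) + r * (u * s1 * (A2 - A1)) := by ring
      rw [h5]
      exact dvd_add (dvd_sub h3 h4) (dvd_mul_right _ _)
    · refine ⟨v * (A1 - A2), ?_⟩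
      linear_combination (A2 - A1) * huv
  set y : ℤ := A1 + u * (r * s1) * (A2 - A1) with hy
  refine ⟨p * y, ?_, ?_⟩
  · have h6 : e * (p * y) - A1 = (y - A1) + r * s1 * (-(s2 * q * y)) := by
      linear_combination y * hpq
    rw [h6]
    exact dvd_add k1 (dvd_mul_right _ _)
  · have h6 : e * (p * y) - A2 = (y - A2) + r * s2 * (-(s1 * q * y)) := by
      linear_combination y * hpq
    rw [h6]
    exact dvd_add k2 (dvd_mul_right _ _)

theorem tEcq : EcqStmt := by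
  intro A b R S e z P hP _
  have key : ∀ r g1 g2 : ℕ, ∃ x : ℤ, (r, e * g1) ∈ P → (r, e * g2) ∈ P → g1.Coprime g2 →
      ((r * g1 : ℕ) : ℤ) ∣ (e : ℤ) * x - A r (e * g1) ∧
        ((r * g2 : ℕ) : ℤ) ∣ (e : ℤ) * x - A r (e * g2) := by
    intro r g1 g2
    by_cases h : (r, e * g1) ∈ P ∧ (r, e * g2) ∈ P ∧ g1.Coprime g2
    · obtain ⟨h1, h2, h3⟩ := h
      obtain ⟨_, _, _, _, q1, _, c1, _⟩ := hP.1.1 _ h1
      obtain ⟨_, _, _, _, q2, _, c2, _⟩ := hP.1.1 _ h2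
      obtain ⟨a1, -, a2⟩ := Nat.squarefree_mul_iff.1 q1
      obtain ⟨b1, -, b2⟩ := Nat.squarefree_mul_iff.1 q2
      have e1 : e.Coprime g1 := (Nat.squarefree_mul_iff.1 a2).1
      have e2 : e.Coprime g2 := (Nat.squarefree_mul_iff.1 b2).1
      have e3 : r.Coprime e := a1.coprime_dvd_right (dvd_mul_right _ _)
      have e4 : r.Coprime g2 := b1.coprime_dvd_right (dvd_mul_left _ _)
      have e5 : e.Coprime (r * g1 * g2) := Nat.Coprime.mul_right (Nat.Coprime.mul_right e3.symm e1) e2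
      have e6 : IsCoprime (e : ℤ) ((r : ℤ) * (g1 : ℤ) * (g2 : ℤ)) := by
        have := Nat.isCoprime_iff_coprime.2 e5
        push_cast at this
        exact this
      obtain ⟨x, hx1, hx2⟩ := Ecq_one (r : ℤ) (g1 : ℤ) (g2 : ℤ) (A r (e * g1)) (A r (e * g2)) (b r)
        (e : ℤ) (Nat.isCoprime_iff_coprime.2 e4) (Nat.isCoprime_iff_coprime.2 h3) e6 c1 c2
      refine ⟨x, fun _ _ _ => ⟨?_, ?_⟩⟩
      · rw [Nat.cast_mul]
        exact hx1
      · rw [Nat.cast_mul]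
        exact hx2
    · exact ⟨0, fun h1 h2 h3 => absurd ⟨h1, h2, h3⟩ h⟩
  choose a ha using key
  exact ⟨a, fun r g1 g2 h1 h2 h3 => ha r g1 g2 h1 h2 h3⟩

end Pool.Agent.Lib.MS
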