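import Pool.Agent.Lib.MS.SpecD

/-!
MP_00e23e_nt, directory Lib/MS, module Ect (helper95): number of n in a class.
-/

namespace Pool.Agent.Lib.MS

open Finset Pool.Agent.Lib.EH3 Pool.Agent.Lib.TB Pool.Agent.Results.MP_00e23e_nt Pool.Agent.Lib.MI

theorem tEct : EctStmt := by
  intro e N ρ he heN
  have he0 : (0 : ℤ) < (e : ℤ) := by exact_mod_cast he
  have heR : (0 : ℝ) < (e : ℝ) := by exact_mod_cast he
  obtain ⟨v, hv⟩ : ∃ v : ℕ, (v : ℤ) = ρ % (e : ℤ) :=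
    ⟨(ρ % (e : ℤ)).toNat, Int.toNat_of_nonneg (Int.emod_nonneg _ he0.ne')⟩
  have hset : (Ioc N (2 * N)).filter (fun n : ℕ => (e : ℤ) ∣ (n : ℤ) - ρ) =
      (Ioc N (2 * N)).filter (fun n : ℕ => n ≡ v [MOD e]) := by
    apply Finset.filter_congr
    intro n _
    rw [← Int.natCast_modEq_iff, hv]
    constructor
    · intro h
      have h1 : ρ ≡ (n : ℤ) [ZMOD (e : ℤ)] := (Int.modEq_iff_dvd).2 h
      exact (h1.symm).trans (Int.mod_modEq ρ (e : ℤ)).symm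
    · intro h
      exact (Int.modEq_iff_dvd).1 ((h.trans (Int.mod_modEq ρ (e : ℤ))).symm)
  have hcard := Nat.Ioc_filter_modEq_card N (2 * N) (Nat.pos_of_ne_zero (by omega) : 0 < e) v
  rw [← hset] at hcard
  have hq : (0 : ℚ) < (e : ℚ) := by exact_mod_cast he
  have h1 := Int.floor_le ((((2 * N : ℕ) : ℚ) - v) / (e : ℚ))
  have h2 := Int.lt_floor_add_one (((N : ℚ) - v) / (e : ℚ))
  have h3 : (((2 * N : ℕ) : ℚ) - v) / (e : ℚ) - ((N : ℚ) - v) / (e : ℚ) = (N : ℚ) / e := by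
    push_cast
    ring
  have h4 : (1 : ℚ) ≤ (N : ℚ) / e := by
    rw [le_div_iff₀ hq, one_mul]
    exact_mod_cast heN
  have h5 : ((((Ioc N (2 * N)).filter (fun n : ℕ => (e : ℤ) ∣ (n : ℤ) - ρ)).card : ℤ) : ℚ) ≤
      2 * (N : ℚ) / e := by
    rw [hcard]
    push_cast
    rw [max_le_iff]
    push_cast at h1 h3
    constructor
    · have e1 : 2 * (N : ℚ) / e = (N : ℚ) / e + (N : ℚ) / e := by ring
      rw [e1]
      linarith
    · positivity
  have h6 : ((((Ioc N (2 * N)).filter (fun n : ℕ => (e : ℤ) ∣ (n : ℤ) - ρ)).card : ℕ) : ℚ) ≤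
      2 * (N : ℚ) / e := by exact_mod_cast h5
  have h7 : ((((((Ioc N (2 * N)).filter (fun n : ℕ => (e : ℤ) ∣ (n : ℤ) - ρ)).card : ℕ) : ℚ)) : ℝ) ≤
      ((2 * (N : ℚ) / e : ℚ) : ℝ) := by exact_mod_cast h6
  push_cast at h7
  exact h7

end Pool.Agent.Lib.MS
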