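import Pool.Agent.Lib.MS.SpecD

/-!
MP_00e23e_nt, directory Lib/MS, module Eda: the bad terms, both full, without the pairs with Inc
(helper65; the model is Lib/ML/Eea).
-/

namespace Pool.Agent.Lib.MS

open Finset Pool.Agent.Lib.EH3 Pool.Agent.Lib.TB Pool.Agent.Results.MP_00e23e_nt Pool.Agent.Lib.MI

private lemma Eda_gcd {q : ℕ} {x y : ℤ} (hq : Int.gcd x (q : ℤ) = 1)
    (h : (q : ℤ) ∣ y - x) : Int.gcd y (q : ℤ) = 1 := by
  have h3 : (Int.gcd y (q : ℤ) : ℤ) ∣ x := by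
    have h4 : (Int.gcd y (q : ℤ) : ℤ) ∣ y := Int.gcd_dvd_left _ _
    have h5 : (Int.gcd y (q : ℤ) : ℤ) ∣ y - x := (Int.gcd_dvd_right _ _).trans h
    have h6 := dvd_sub h4 h5
    rwa [sub_sub_cancel] at h6
  have h7 : Int.gcd y (q : ℤ) ∣ Int.gcd x (q : ℤ) := Int.dvd_gcd h3 (Int.gcd_dvd_right _ _)
  rw [hq] at h7
  exact Nat.dvd_one.1 h7

private lemma Eda_cop {q t : ℕ} {x : ℤ} (hq : Int.gcd x (q : ℤ) = 1)
    (h : (q : ℤ) ∣ (t : ℤ) - x) : t.Coprime q := by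
  have h1 := Eda_gcd hq h
  rwa [Int.gcd_natCast_natCast] at h1

/-- For a nonzero bad term s1, s2 are not coprime. -/
private lemma Eda_nc {A : ℕ → ℕ → ℤ} {b : ℕ → ℤ} {a : ℕ → ℕ → ℕ → ℤ} {R S : ℕ} {z z1 : ℝ}
    {P : Finset (ℕ × ℕ)} (hP : ML.Pr A b R S z z1 P) (hC : ML.Cp P A a) {r s1 s2 n1 n2 m : ℕ}
    (hB : ML.Bd a P r s1 s2 n1 n2) (h1 : ((r * s1 : ℕ) : ℤ) ∣ ((m * n1 : ℕ) : ℤ) - A r s1)
    (h2 : ((r * s2 : ℕ) : ℤ) ∣ ((m * n2 : ℕ) : ℤ) - A r s2) : ¬ s1.Coprime s2 := by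
  intro hc
  obtain ⟨hB1, hB2, hB3⟩ := hB
  obtain ⟨_, _, _, _, sq1, g1, b1, _⟩ := hP.1 _ hB1
  obtain ⟨_, _, _, _, sq2, g2, b2, _⟩ := hP.1 _ hB2
  simp only at sq1 sq2 g1 g2 b1 b2
  obtain ⟨hC1, hC2⟩ := hC r s1 s2 hB1 hB2 hc
  have c1 := Eda_cop g1 h1
  have c2 := Eda_cop g2 h2
  have cm : m.Coprime (r * s1) := Nat.Coprime.coprime_dvd_left (dvd_mul_right _ _) c1
  have cn1 : n1.Coprime (r * s1) := Nat.Coprime.coprime_dvd_left (dvd_mul_left _ _) c1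
  have cn2 : n2.Coprime (r * s2) := Nat.Coprime.coprime_dvd_left (dvd_mul_left _ _) c2
  have ga1 : Int.gcd (a r s1 s2) ((r * s1 : ℕ) : ℤ) = 1 := Eda_gcd g1 hC1
  have ga2 : Int.gcd (a r s1 s2) ((r * s2 : ℕ) : ℤ) = 1 := Eda_gcd g2 hC2
  refine hB3 ⟨⟨sq1, sq2, hc, cn1, cn2, ga1, ga2⟩, ?_⟩
  have e1 : (r : ℤ) ∣ ((m * n1 : ℕ) : ℤ) - A r s1 :=
    (Int.natCast_dvd_natCast.2 (dvd_mul_right _ _)).trans h1
  have e2 : (r : ℤ) ∣ ((m * n2 : ℕ) : ℤ) - A r s2 :=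
    (Int.natCast_dvd_natCast.2 (dvd_mul_right _ _)).trans h2
  have e3 : (r : ℤ) ∣ (m : ℤ) * ((n2 : ℤ) - n1) := by
    have h3 := dvd_sub (dvd_add e2 b2) (dvd_add e1 b1)
    have h4 : ((m * n2 : ℕ) : ℤ) - A r s2 + (A r s2 - b r) -
        (((m * n1 : ℕ) : ℤ) - A r s1 + (A r s1 - b r)) = (m : ℤ) * ((n2 : ℤ) - n1) := by
      push_cast
      ring
    rwa [h4] at h3
  have h5 : IsCoprime (r : ℤ) (m : ℤ) :=
    (Nat.isCoprime_iff_coprime.2 (Nat.Coprime.coprime_dvd_right (dvd_mul_right _ _) cm)).symm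
  exact h5.dvd_of_dvd_mul_left e3

private lemma Eda_D1_nonneg (a : ℤ) (r s t : ℕ) : 0 ≤ D1 a r s t := by
  unfold D1
  split_ifs <;> norm_num

theorem tEda (h1 : ML.EepStmt) (h2 : EqeStmt) : EdaStmt := by
  classical
  intro X T z z1 A b a R S M N P hSz hz1 hSN hP hC
  have hT : 1 ≤ T := hSz.1.1
  have hT5 : 1 ≤ T ^ 5 := one_le_pow₀ hT
  have hz : 1 ≤ z := hSz.2.1
  have hA := h1 X T z 1 A b R S M N P hSz hP
  have hB := h2 X T z z1 A b R S M N P hSz hz1 hSN hP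
  have hq1 : (0 : ℝ) ≤ (M : ℝ) * N * (1 + N / ((R : ℝ) * z)) := by positivity
  have hq2 : (0 : ℝ) ≤ (N : ℝ) ^ 2 * (S : ℝ) ^ 2 / z1 ^ 2 := by positivity
  have hq3 : (M : ℝ) * N * (N / ((R : ℝ) * z)) ≤ (M : ℝ) * N * (1 + N / ((R : ℝ) * z)) :=
    mul_le_mul_of_nonneg_left (by linarith) (by positivity)
  refine le_trans ?_ ((add_le_add hA hB).trans ?_)
  · rw [← Finset.sum_add_distrib]
    refine Finset.sum_le_sum fun m _ => ?_
    rw [← Finset.sum_add_distrib]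
    refine Finset.sum_le_sum fun r _ => ?_
    rw [← Finset.sum_add_distrib]
    refine Finset.sum_le_sum fun s1 _ => ?_
    rw [← Finset.sum_add_distrib]
    refine Finset.sum_le_sum fun s2 _ => ?_
    rw [← Finset.sum_add_distrib]
    refine Finset.sum_le_sum fun n1 _ => ?_
    rw [← Finset.sum_add_distrib]
    refine Finset.sum_le_sum fun n2 _ => ?_
    have hD : 0 ≤ D1 (A r s1) r s1 (m * n1) * D1 (A r s2) r s2 (m * n2) :=
      mul_nonneg (Eda_D1_nonneg _ _ _ _) (Eda_D1_nonneg _ _ _ _)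
    have hite : ∀ (c : Prop) [Decidable c], 0 ≤ (if c then
        D1 (A r s1) r s1 (m * n1) * D1 (A r s2) r s2 (m * n2) else 0) := by
      intro c _
      split_ifs
      · exact hD
      · exact le_rfl
    by_cases hBd : ML.Bd a P r s1 s2 n1 n2
    · rw [if_pos hBd]
      by_cases hI : Inc A P z1 r s1 s2
      · rw [if_pos hI]
        exact add_nonneg (hite _) (hite _)
      rw [if_neg hI]
      by_cases e1 : ((r * s1 : ℕ) : ℤ) ∣ ((m * n1 : ℕ) : ℤ) - A r s1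
      · by_cases e2 : ((r * s2 : ℕ) : ℤ) ∣ ((m * n2 : ℕ) : ℤ) - A r s2
        · have hnc := Eda_nc hP hC hBd e1 e2
          by_cases hc : ∃ p : ℕ, p.Prime ∧ p ∣ s1 ∧ p ∣ s2 ∧ (p : ℤ) ∣ A r s1 - A r s2
          · rw [if_pos ⟨hBd.1, hBd.2.1, hc⟩]
            exact le_add_of_nonneg_right (hite _)
          · have hc' : ∀ p : ℕ, p.Prime → p ∣ s1 → p ∣ s2 → ¬ (p : ℤ) ∣ A r s1 - A r s2 :=
              fun p hp hp1 hp2 hp3 => hc ⟨p, hp, hp1, hp2, hp3⟩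
            have hg : z1 < ((Nat.gcd s1 s2 : ℕ) : ℝ) := by
              by_contra hg
              exact hI ⟨hBd.1, hBd.2.1, hnc, not_lt.1 hg, hc'⟩
            rw [if_pos (show (r, s1) ∈ P ∧ (r, s2) ∈ P ∧ z1 < ((Nat.gcd s1 s2 : ℕ) : ℝ) ∧
              (∀ p : ℕ, p.Prime → p ∣ s1 → p ∣ s2 → ¬ (p : ℤ) ∣ A r s1 - A r s2) from
              ⟨hBd.1, hBd.2.1, hg, hc'⟩)]
            exact le_add_of_nonneg_left (hite _)
        · have e3 : D1 (A r s2) r s2 (m * n2) = 0 := if_neg e2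
          rw [e3, mul_zero, ite_self, ite_self, add_zero]
      · have e3 : D1 (A r s1) r s1 (m * n1) = 0 := if_neg e1
        rw [e3, zero_mul, ite_self, ite_self, add_zero]
    · rw [if_neg hBd]
      exact add_nonneg (hite _) (hite _)
  · have hT5q1 := mul_le_mul_of_nonneg_right hT5 hq1
    have hT5q2 := mul_le_mul_of_nonneg_right hT5 hq2
    rw [one_mul] at hT5q1 hT5q2
    have h3 : 160 * T ^ 5 * ((M : ℝ) * N * (1 + N / ((R : ℝ) * z)) +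
        (N : ℝ) ^ 2 * (S : ℝ) ^ 2 / z1 ^ 2) =
        60 * T ^ 5 * ((M : ℝ) * N * (1 + N / ((R : ℝ) * z))) +
        100 * (T ^ 5 * ((M : ℝ) * N * (1 + N / ((R : ℝ) * z)))) +
        160 * (T ^ 5 * ((N : ℝ) ^ 2 * (S : ℝ) ^ 2 / z1 ^ 2)) := by ring
    rw [h3]
    linarith

end Pool.Agent.Lib.MS
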