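import Pool.Agent.Lib.MS.SpecD

/-!
MP_00e23e_nt, MS/Edb: the bad terms, without the pairs with Inc in the full-full part (after ML/Eba). helper87.
-/

namespace Pool.Agent.Lib.MS

open Finset Pool.Agent.Lib.EH3 Pool.Agent.Lib.TB Pool.Agent.Results.MP_00e23e_nt Pool.Agent.Lib.MI

/-- the sum over the tuples -/
private noncomputable def Edb_S (R S N : ℕ) (F : ℕ → ℕ → ℕ → ℕ → ℕ → ℝ) : ℝ :=
  ∑ r ∈ Ioc R (2 * R), ∑ s1 ∈ Ioc S (2 * S), ∑ s2 ∈ Ioc S (2 * S),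
    ∑ n1 ∈ Ioc N (2 * N), ∑ n2 ∈ Ioc N (2 * N), F r s1 s2 n1 n2

private theorem Edb_le (R S N : ℕ) {F G : ℕ → ℕ → ℕ → ℕ → ℕ → ℝ}
    (h : ∀ r s1 s2 n1 n2, F r s1 s2 n1 n2 ≤ G r s1 s2 n1 n2) : Edb_S R S N F ≤ Edb_S R S N G :=
  Finset.sum_le_sum fun _ _ => Finset.sum_le_sum fun _ _ => Finset.sum_le_sum fun _ _ =>
    Finset.sum_le_sum fun _ _ => Finset.sum_le_sum fun _ _ => h _ _ _ _ _

private theorem Edb_add (R S N : ℕ) (F G : ℕ → ℕ → ℕ → ℕ → ℕ → ℝ) :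
    Edb_S R S N (fun r s1 s2 n1 n2 => F r s1 s2 n1 n2 + G r s1 s2 n1 n2) =
      Edb_S R S N F + Edb_S R S N G := by
  simp only [Edb_S, Finset.sum_add_distrib]

private theorem Edb_mul (R S N : ℕ) (c : ℝ) (F : ℕ → ℕ → ℕ → ℕ → ℕ → ℝ) :
    Edb_S R S N (fun r s1 s2 n1 n2 => c * F r s1 s2 n1 n2) = c * Edb_S R S N F := by
  simp only [Edb_S, Finset.mul_sum]

private theorem Edb_sum (R S N : ℕ) (A : Finset ℕ) (F : ℕ → ℕ → ℕ → ℕ → ℕ → ℕ → ℝ) :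
    Edb_S R S N (fun r s1 s2 n1 n2 => ∑ m ∈ A, F m r s1 s2 n1 n2) =
      ∑ m ∈ A, Edb_S R S N (F m) := by
  unfold Edb_S
  rw [Finset.sum_comm (s := A)]
  refine Finset.sum_congr rfl fun r _ => ?_
  rw [Finset.sum_comm (s := A)]
  refine Finset.sum_congr rfl fun s1 _ => ?_
  rw [Finset.sum_comm (s := A)]
  refine Finset.sum_congr rfl fun s2 _ => ?_
  rw [Finset.sum_comm (s := A)]
  refine Finset.sum_congr rfl fun n1 _ => ?_
  rw [Finset.sum_comm (s := A)]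

private theorem Edb_swap (R S N : ℕ) (F : ℕ → ℕ → ℕ → ℕ → ℕ → ℝ) :
    Edb_S R S N F = Edb_S R S N (fun r s1 s2 n1 n2 => F r s2 s1 n2 n1) := by
  unfold Edb_S
  refine Finset.sum_congr rfl fun r _ => ?_
  rw [Finset.sum_comm]
  refine Finset.sum_congr rfl fun s1 _ => Finset.sum_congr rfl fun s2 _ => ?_
  rw [Finset.sum_comm]

private theorem Edb_D1 (a : ℤ) (r s t : ℕ) : 0 ≤ D1 a r s t := by
  unfold D1
  split_ifs <;> norm_num

private theorem Edb_D2 (a : ℤ) (r s t : ℕ) : 0 ≤ D2 a r s t := by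
  unfold D2
  split_ifs <;> simp

open Classical in
private theorem Edb_Db (A : ℕ → ℕ → ℤ) (P : Finset (ℕ × ℕ)) (z1 : ℝ) (r s1 s2 n1 n2 m : ℕ) :
    0 ≤ Db A P z1 r s1 s2 n1 n2 m := by
  unfold Db
  have h1 : (0 : ℝ) ≤ (if Inc A P z1 r s1 s2 then 0 else
      D1 (A r s1) r s1 (m * n1) * D1 (A r s2) r s2 (m * n2)) := by
    split_ifs
    · exact le_rfl
    · exact mul_nonneg (Edb_D1 _ _ _ _) (Edb_D1 _ _ _ _)
  have h2 := mul_nonneg (Edb_D1 (A r s1) r s1 (m * n1)) (Edb_D2 (A r s2) r s2 (m * n2))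
  have h3 := mul_nonneg (Edb_D2 (A r s1) r s1 (m * n1)) (Edb_D1 (A r s2) r s2 (m * n2))
  have h4 := mul_nonneg (Edb_D2 (A r s1) r s1 (m * n1)) (Edb_D2 (A r s2) r s2 (m * n2))
  linarith

private theorem Edb_sym {a : ℤ} {r s1 s2 n1 n2 : ℕ}
    (h : GdC a r s1 s2 n1 n2) : GdC a r s2 s1 n2 n1 := by
  obtain ⟨⟨h1, h2, h3, h4, h5, h6, h7⟩, h8⟩ := h
  exact ⟨⟨h2, h1, h3.symm, h5, h4, h7, h6⟩, (dvd_sub_comm).1 h8⟩

private theorem Edb_symB {a : ℕ → ℕ → ℕ → ℤ} {P : Finset (ℕ × ℕ)} {r s1 s2 n1 n2 : ℕ} :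
    ML.Bd a P r s1 s2 n1 n2 ↔ ML.Bd (fun r s1 s2 => a r s2 s1) P r s2 s1 n2 n1 := by
  constructor
  · rintro ⟨h1, h2, h3⟩
    exact ⟨h2, h1, fun h => h3 (Edb_sym h)⟩
  · rintro ⟨h1, h2, h3⟩
    exact ⟨h2, h1, fun h => h3 (Edb_sym h)⟩

open Classical in
theorem tEdb (hDtr : MI.DtrStmt) (hEda : EdaStmt) (hEeb : ML.EebStmt) (hEec : ML.EecStmt) :
    EdbStmt := by
  intro X T z z1 A b a R S M N P hSz hz1 hSN hPr hCp
  have hCp' : ML.Cp P A (fun r s1 s2 => a r s2 s1) := by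
    intro r s1 s2 h1 h2 h12
    exact (hCp r s2 s1 h2 h1 h12.symm).symm
  have hA := hEda X T z z1 A b a R S M N P hSz hz1 hSN hPr hCp
  have hB := hEeb X T z 1 A b a R S M N P hSz hPr hCp
  have hBs := hEeb X T z 1 A b (fun r s1 s2 => a r s2 s1) R S M N P hSz hPr hCp'
  have hC := hEec X T z 1 A b a R S M N P hSz hPr hCp
  obtain ⟨hT, hz, hR, -, -, hM, -, -, -⟩ := hSz
  have hT1 : 1 ≤ T := hT.1
  set Q : ℝ := (M : ℝ) * N * (1 + N / ((R : ℝ) * z)) with hQ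
  set E : ℝ := (N : ℝ) ^ 2 * (S : ℝ) ^ 2 / z1 ^ 2 with hE
  have hQ0 : 0 ≤ Q := by
    rw [hQ]
    have : (0 : ℝ) < (R : ℝ) * z := mul_pos (by exact_mod_cast hR) (by linarith)
    positivity
  have hE0 : 0 ≤ E := by
    rw [hE]
    positivity
  have hsw : ∑ m ∈ Icc (M / 2) (3 * M), Edb_S R S N (fun r s1 s2 n1 n2 =>
      if ML.Bd a P r s1 s2 n1 n2 then D2 (A r s1) r s1 (m * n1) * D1 (A r s2) r s2 (m * n2) else 0) ≤
      14 * T ^ 2 * Q := by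
    refine le_trans (le_of_eq ?_) hBs
    refine Finset.sum_congr rfl fun m _ => ?_
    rw [Edb_swap]
    unfold Edb_S
    refine Finset.sum_congr rfl fun r _ => Finset.sum_congr rfl fun s1 _ =>
      Finset.sum_congr rfl fun s2 _ => Finset.sum_congr rfl fun n1 _ =>
      Finset.sum_congr rfl fun n2 _ => ?_
    show (if ML.Bd a P r s2 s1 n2 n1 then D2 (A r s2) r s2 (m * n2) * D1 (A r s1) r s1 (m * n1)
      else 0) = _
    by_cases h : ML.Bd a P r s2 s1 n2 n1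
    · rw [if_pos h, if_pos (Edb_symB.1 h), mul_comm]
    · rw [if_neg h, if_neg fun h' => h (Edb_symB.2 h')]
  have h1 : ∀ r s1 s2 n1 n2 : ℕ, TR M (fun m => Db A P z1 r s1 s2 n1 n2 m) ≤
      4 * ∑ m ∈ Icc (M / 2) (3 * M), Db A P z1 r s1 s2 n1 n2 m := fun r s1 s2 n1 n2 =>
    (hDtr M _ hM fun m => Edb_Db A P z1 r s1 s2 n1 n2 m).2
  have h2 : Edb_S R S N (fun r s1 s2 n1 n2 =>
      if ML.Bd a P r s1 s2 n1 n2 then TR M (fun m => Db A P z1 r s1 s2 n1 n2 m) else 0) ≤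
      Edb_S R S N (fun r s1 s2 n1 n2 => 4 * ∑ m ∈ Icc (M / 2) (3 * M),
        (((if ML.Bd a P r s1 s2 n1 n2 then (if Inc A P z1 r s1 s2 then 0 else
            D1 (A r s1) r s1 (m * n1) * D1 (A r s2) r s2 (m * n2)) else 0) +
          (if ML.Bd a P r s1 s2 n1 n2 then D1 (A r s1) r s1 (m * n1) * D2 (A r s2) r s2 (m * n2) else 0)) +
        ((if ML.Bd a P r s1 s2 n1 n2 then D2 (A r s1) r s1 (m * n1) * D1 (A r s2) r s2 (m * n2) else 0) +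
          (if ML.Bd a P r s1 s2 n1 n2 then D2 (A r s1) r s1 (m * n1) * D2 (A r s2) r s2 (m * n2) else 0)))) := by
    refine Edb_le R S N fun r s1 s2 n1 n2 => ?_
    by_cases h : ML.Bd a P r s1 s2 n1 n2
    · simp only [if_pos h]
      refine (h1 r s1 s2 n1 n2).trans (le_of_eq ?_)
      congr 1
      refine Finset.sum_congr rfl fun m _ => ?_
      unfold Db
      ring
    · simp only [if_neg h]
      simp
  have h3 : Edb_S R S N (fun r s1 s2 n1 n2 => 4 * ∑ m ∈ Icc (M / 2) (3 * M),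
        (((if ML.Bd a P r s1 s2 n1 n2 then (if Inc A P z1 r s1 s2 then 0 else
            D1 (A r s1) r s1 (m * n1) * D1 (A r s2) r s2 (m * n2)) else 0) +
          (if ML.Bd a P r s1 s2 n1 n2 then D1 (A r s1) r s1 (m * n1) * D2 (A r s2) r s2 (m * n2) else 0)) +
        ((if ML.Bd a P r s1 s2 n1 n2 then D2 (A r s1) r s1 (m * n1) * D1 (A r s2) r s2 (m * n2) else 0) +
          (if ML.Bd a P r s1 s2 n1 n2 then D2 (A r s1) r s1 (m * n1) * D2 (A r s2) r s2 (m * n2) else 0)))) =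
      4 * ((∑ m ∈ Icc (M / 2) (3 * M), Edb_S R S N (fun r s1 s2 n1 n2 =>
          if ML.Bd a P r s1 s2 n1 n2 then (if Inc A P z1 r s1 s2 then 0 else
            D1 (A r s1) r s1 (m * n1) * D1 (A r s2) r s2 (m * n2)) else 0)) +
        (∑ m ∈ Icc (M / 2) (3 * M), Edb_S R S N (fun r s1 s2 n1 n2 =>
          if ML.Bd a P r s1 s2 n1 n2 then D1 (A r s1) r s1 (m * n1) * D2 (A r s2) r s2 (m * n2) else 0)) +
        ((∑ m ∈ Icc (M / 2) (3 * M), Edb_S R S N (fun r s1 s2 n1 n2 =>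
          if ML.Bd a P r s1 s2 n1 n2 then D2 (A r s1) r s1 (m * n1) * D1 (A r s2) r s2 (m * n2) else 0)) +
        (∑ m ∈ Icc (M / 2) (3 * M), Edb_S R S N (fun r s1 s2 n1 n2 =>
          if ML.Bd a P r s1 s2 n1 n2 then D2 (A r s1) r s1 (m * n1) * D2 (A r s2) r s2 (m * n2) else 0)))) := by
    rw [Edb_mul, Edb_sum]
    simp only [Edb_add, Finset.sum_add_distrib]
  have hA' : (∑ m ∈ Icc (M / 2) (3 * M), Edb_S R S N (fun r s1 s2 n1 n2 =>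
      if ML.Bd a P r s1 s2 n1 n2 then (if Inc A P z1 r s1 s2 then 0 else
        D1 (A r s1) r s1 (m * n1) * D1 (A r s2) r s2 (m * n2)) else 0)) ≤
      160 * T ^ 5 * (Q + E) := hA
  have hB' : (∑ m ∈ Icc (M / 2) (3 * M), Edb_S R S N (fun r s1 s2 n1 n2 =>
      if ML.Bd a P r s1 s2 n1 n2 then D1 (A r s1) r s1 (m * n1) * D2 (A r s2) r s2 (m * n2) else 0)) ≤
      14 * T ^ 2 * Q := hB
  have hC' : (∑ m ∈ Icc (M / 2) (3 * M), Edb_S R S N (fun r s1 s2 n1 n2 =>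
      if ML.Bd a P r s1 s2 n1 n2 then D2 (A r s1) r s1 (m * n1) * D2 (A r s2) r s2 (m * n2) else 0)) ≤
      42 * T ^ 2 * Q := hC
  have h25 : T ^ 2 * Q ≤ T ^ 5 * Q :=
    mul_le_mul_of_nonneg_right (pow_le_pow_right₀ hT1 (by norm_num)) hQ0
  have h55 : 0 ≤ T ^ 5 * Q := mul_nonneg (by positivity) hQ0
  have h56 : 0 ≤ T ^ 5 * E := mul_nonneg (by positivity) hE0
  show Edb_S R S N (fun r s1 s2 n1 n2 =>
      if ML.Bd a P r s1 s2 n1 n2 then TR M (fun m => Db A P z1 r s1 s2 n1 n2 m) else 0) ≤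
    1000 * T ^ 5 * (Q + E)
  refine h2.trans ?_
  rw [h3]
  nlinarith

end Pool.Agent.Lib.MS
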