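import Pool.Agent.Lib.MS.SpecD
import Pool.Agent.Lib.EH3.LS2

/-!
MP_00e23e_nt, directory Lib/MS, module Efo (helper31): Fourier transform of a class modulo K.
-/

namespace Pool.Agent.Lib.MS

open Finset Pool.Agent.Lib.EH3 Pool.Agent.Lib.TB Pool.Agent.Results.MP_00e23e_nt Pool.Agent.Lib.MI

private lemma Efo_ten_sum (M : ℕ) {ι : Type} (s : Finset ι) (c : ℂ) (f : ι → ℕ → ℂ) (g : ι → ℂ) :
    Ten M (fun m => c * ∑ h ∈ s, f h m * g h) = c * ∑ h ∈ s, Ten M (f h) * g h := by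
  have h1 : ∀ i, ∑ j ∈ range M, c * ∑ h ∈ s, f h (i + j + M / 2) * g h =
      ∑ h ∈ s, ∑ j ∈ range M, c * (f h (i + j + M / 2) * g h) := by
    intro i
    simp_rw [mul_sum]
    exact sum_comm
  unfold Ten
  simp_rw [h1]
  rw [sum_comm, mul_sum, mul_sum]
  refine sum_congr rfl fun h _ => ?_
  simp_rw [mul_sum, sum_mul, mul_sum]
  refine sum_congr rfl fun i _ => sum_congr rfl fun j _ => ?_
  ring

/-- a sum over a period, centered -/
private lemma Efo_center (K : ℕ) (hK : 1 ≤ K) (F : ℤ → ℂ) (hF : ∀ h : ℤ, F (h - K) = F h) :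
    ∑ h ∈ range K, F (h : ℤ) =
      ∑ h ∈ (Icc (-(K : ℤ)) K).filter (fun h => -(K : ℤ) < 2 * h ∧ 2 * h ≤ K), F h := by
  refine sum_nbij' (fun h : ℕ => if 2 * (h : ℤ) ≤ K then (h : ℤ) else (h : ℤ) - K)
    (fun h : ℤ => (if 0 ≤ h then h else h + K).toNat) ?_ ?_ ?_ ?_ ?_
  · intro h hh
    have := mem_range.1 hh
    simp only [mem_filter, mem_Icc]
    split_ifs <;> omega
  · intro h hh
    simp only [mem_filter, mem_Icc] at hh
    simp only [mem_range]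
    split_ifs <;> omega
  · intro h hh
    have := mem_range.1 hh
    split_ifs <;> omega
  · intro h hh
    simp only [mem_filter, mem_Icc] at hh
    split_ifs <;> omega
  · intro h hh
    split_ifs with h1
    · rfl
    · exact (hF _).symm

private lemma Efo_tail (H K : ℕ) (hH : 1 ≤ H) (hHK : H ≤ K) :
    ∑ h ∈ (Icc (-(K : ℤ)) K).filter (fun h => (H : ℤ) < |h|), (((h : ℝ) ^ 2)⁻¹) ≤ 2 / (H : ℝ) := by
  have h1 : (Icc (-(K : ℤ)) K).filter (fun h => (H : ℤ) < |h|) ⊆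
      (Ioc H K).image (fun n : ℕ => (n : ℤ)) ∪ (Ioc H K).image (fun n : ℕ => -(n : ℤ)) := by
    intro h hh
    simp only [mem_filter, mem_Icc] at hh
    obtain ⟨⟨ha, hb⟩, hc⟩ := hh
    rw [mem_union, mem_image, mem_image]
    rcases le_or_gt 0 h with h0 | h0
    · left
      rw [abs_of_nonneg h0] at hc
      exact ⟨h.toNat, by rw [mem_Ioc]; omega, by omega⟩
    · right
      rw [abs_of_neg h0] at hc
      exact ⟨(-h).toNat, by rw [mem_Ioc]; omega, by omega⟩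
  have h2 : ∑ n ∈ Ioc H K, (((n : ℝ) ^ 2)⁻¹) ≤ (H : ℝ)⁻¹ := by
    have := sum_Ioc_inv_sq_le_sub (α := ℝ) (k := H) (n := K) (by omega) hHK
    have h3 : (0 : ℝ) ≤ (K : ℝ)⁻¹ := by positivity
    linarith
  calc ∑ h ∈ (Icc (-(K : ℤ)) K).filter (fun h => (H : ℤ) < |h|), (((h : ℝ) ^ 2)⁻¹)
      ≤ ∑ h ∈ (Ioc H K).image (fun n : ℕ => (n : ℤ)) ∪ (Ioc H K).image (fun n : ℕ => -(n : ℤ)),
          (((h : ℝ) ^ 2)⁻¹) :=
        sum_le_sum_of_subset_of_nonneg h1 fun _ _ _ => by positivity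
    _ ≤ ∑ h ∈ (Ioc H K).image (fun n : ℕ => (n : ℤ)), (((h : ℝ) ^ 2)⁻¹) +
          ∑ h ∈ (Ioc H K).image (fun n : ℕ => -(n : ℤ)), (((h : ℝ) ^ 2)⁻¹) := by
        rw [← sum_union_inter]
        have : (0 : ℝ) ≤ ∑ h ∈ (Ioc H K).image (fun n : ℕ => (n : ℤ)) ∩
            (Ioc H K).image (fun n : ℕ => -(n : ℤ)), (((h : ℝ) ^ 2)⁻¹) :=
          sum_nonneg fun _ _ => by positivity
        linarith
    _ = ∑ n ∈ Ioc H K, (((n : ℝ) ^ 2)⁻¹) + ∑ n ∈ Ioc H K, (((n : ℝ) ^ 2)⁻¹) := by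
        rw [sum_image (fun a _ b _ h => by simpa using h), sum_image (fun a _ b _ h => by simpa using h)]
        simp
    _ ≤ 2 / (H : ℝ) := by
        have : 2 / (H : ℝ) = (H : ℝ)⁻¹ + (H : ℝ)⁻¹ := by ring
        linarith

private lemma Efo_orth (K : ℕ) (hK : 1 ≤ K) (ν : ℤ) (m : ℕ) :
    dl ν K m = (1 / (K : ℂ)) * ∑ h ∈ range K, en ((h : ℤ) * m) K * en (-((h : ℤ) * ν)) K := by
  have hK0 : (K : ℂ) ≠ 0 := by exact_mod_cast (by omega : K ≠ 0)
  have h1 : ∑ h ∈ range K, en ((h : ℤ) * m) K * en (-((h : ℤ) * ν)) K =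
      if (K : ℤ) ∣ (m : ℤ) - ν then (K : ℂ) else 0 := by
    rw [← orth (by omega : 0 < K) ((m : ℤ) - ν)]
    apply Finset.sum_congr rfl
    intro h _
    rw [← en_add]
    unfold en
    congr 1
    push_cast
    ring
  rw [h1]
  unfold dl
  split_ifs
  · rw [one_div, inv_mul_cancel₀ hK0]
  · rw [mul_zero]

theorem tEfo (hDgg : MI.DggStmt) : EfoStmt := by
  intro ν M H K hM hH hHK
  have hK : 1 ≤ K := by omega
  have hKr : (0 : ℝ) < (K : ℝ) := by exact_mod_cast hK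
  have hMr : (0 : ℝ) < (M : ℝ) := by exact_mod_cast hM
  have hHr : (0 : ℝ) < (H : ℝ) := by exact_mod_cast hH
  let F : ℤ → ℂ := fun h => Ten M (fun m => en (h * m) K) * en (-(h * ν)) K
  -- the exact identity
  have e1 : Ten M (fun m => dl ν K m) = (1 / (K : ℂ)) * ∑ h ∈ range K, F (h : ℤ) := by
    have e2 : Ten M (fun m => dl ν K m) = Ten M (fun m => (1 / (K : ℂ)) *
        ∑ h ∈ range K, en ((h : ℤ) * m) K * en (-((h : ℤ) * ν)) K) := by
      congr 1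
      funext m
      exact Efo_orth K hK ν m
    rw [e2, Efo_ten_sum M (range K) (1 / (K : ℂ))
      (fun h m => en ((h : ℤ) * m) K) (fun h => en (-((h : ℤ) * ν)) K)]
  -- periodicity
  have hFp : ∀ h : ℤ, F (h - K) = F h := by
    intro h
    have e4 : ∀ m : ℕ, en ((h - K) * m) K = en (h * m) K := fun m =>
      en_congr ⟨-(m : ℤ), by ring⟩
    have e5 : en (-((h - K) * ν)) K = en (-(h * ν)) K := en_congr ⟨ν, by ring⟩
    simp only [F]
    rw [e5]
    congr 2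
    funext m
    exact e4 m
  -- bounds
  have hFb : ∀ h : ℤ, h ≠ 0 → 2 * |h| ≤ (K : ℤ) →
      ‖F h‖ ≤ (K : ℝ) ^ 2 / M * (((h : ℝ) ^ 2)⁻¹) := by
    intro h h0 h2
    simp only [F]
    rw [norm_mul, norm_en, mul_one]
    refine ((hDgg M K h hM hK).2 h0 h2).trans (le_of_eq ?_)
    rw [div_mul_eq_mul_div, ← div_eq_mul_inv, div_div, mul_comm ((h : ℝ) ^ 2)]
  -- splitting
  have hsub : Icc (-(H : ℤ)) H ⊆
      (Icc (-(K : ℤ)) K).filter (fun h => -(K : ℤ) < 2 * h ∧ 2 * h ≤ K) := by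
    intro h hh
    simp only [mem_filter, mem_Icc] at hh ⊢
    omega
  have e6 : ∑ h ∈ Icc (-(H : ℤ)) H, Ten M (fun m => en (h * m) K) * en (-(h * ν)) K =
      ∑ h ∈ Icc (-(H : ℤ)) H, F h := rfl
  rw [e1, Efo_center K hK F hFp, e6, ← sum_sdiff hsub, ← mul_sub, add_sub_cancel_right, norm_mul]
  have h7 : ‖(1 / (K : ℂ))‖ = 1 / (K : ℝ) := by
    rw [norm_div, norm_one, Complex.norm_natCast]
  have h8 : ‖∑ h ∈ (Icc (-(K : ℤ)) K).filter (fun h => -(K : ℤ) < 2 * h ∧ 2 * h ≤ K) \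
      Icc (-(H : ℤ)) H, F h‖ ≤ (K : ℝ) ^ 2 / M * (2 / (H : ℝ)) := by
    refine (norm_sum_le _ _).trans ?_
    refine (sum_le_sum (g := fun h : ℤ => (K : ℝ) ^ 2 / M * (((h : ℝ) ^ 2)⁻¹)) fun h hh => ?_).trans ?_
    · rw [mem_sdiff, mem_filter, mem_Icc, mem_Icc] at hh
      refine hFb h (by omega) ?_
      rcases abs_cases h with hc | hc <;> omega
    · rw [← mul_sum]
      refine mul_le_mul_of_nonneg_left ?_ (by positivity)
      refine (sum_le_sum_of_subset_of_nonneg ?_ fun _ _ _ => by positivity).trans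
        (Efo_tail H K hH (by omega))
      intro h hh
      rw [mem_sdiff, mem_filter, mem_Icc, mem_Icc] at hh
      rw [mem_filter, mem_Icc]
      refine ⟨hh.1.1, ?_⟩
      rcases abs_cases h with hc | hc <;> omega
  rw [h7]
  refine (mul_le_mul_of_nonneg_left h8 (by positivity)).trans (le_of_eq ?_)
  field_simp

end Pool.Agent.Lib.MS
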