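import Pool.Agent.Lib.MS.SpecD

/-! MP_00e23e_nt, Lib/MS, module Egc (helper97): the coefficients of the main part for the common factor e are admissible
(after Lib/MI/Dco.lean). -/

namespace Pool.Agent.Lib.MS

open Finset Pool.Agent.Lib.EH3 Pool.Agent.Lib.TB Pool.Agent.Results.MP_00e23e_nt Pool.Agent.Lib.MI

private lemma Egc_zero (A : ℕ → ℕ → ℤ) (P : Finset (ℕ × ℕ)) (c : ℕ × ℕ → ℂ) (μ : ℕ → ℕ → ℕ → ℤ) (M H e k : ℕ)
    (r g1 g2 : ℕ) : gae A P c μ M H e k 0 r g1 g2 = 0 := by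
  unfold gae
  rw [if_neg]
  rintro ⟨h, -⟩
  exact h rfl

private lemma Egc_supp {A : ℕ → ℕ → ℤ} {P : Finset (ℕ × ℕ)} {c : ℕ × ℕ → ℂ} {μ : ℕ → ℕ → ℕ → ℤ} {M H e k : ℕ}
    {h : ℤ} {r g1 g2 : ℕ} (hg : gae A P c μ M H e k h r g1 g2 ≠ 0) : InE A P e r g1 g2 := by
  unfold gae at hg
  split_ifs at hg with h1
  · exact h1.2.2.1
  · exact absurd rfl hg

private lemma Egc_bound (hG : MI.DggStmt) {A : ℕ → ℕ → ℤ} {b : ℕ → ℤ} {R S M H e k : ℕ} {z : ℝ} {P : Finset (ℕ × ℕ)}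
    {c : ℕ × ℕ → ℂ} {μ : ℕ → ℕ → ℕ → ℤ} (hPr : Pr A b R S z P) (he : 1 ≤ e) (heS : 4 * e ≤ S) (heM : e ≤ M)
    (hR : 1 ≤ R) (hM : 1 ≤ M) (hH : 2 * H < R) (hc1 : ∀ u, ‖c u‖ ≤ 1) (h : ℤ) (r g1 g2 : ℕ) :
    ‖gae A P c μ M H e k h r g1 g2‖ ≤ 4 * ((M / e + 1 : ℕ) : ℝ) / ((R : ℝ) * ((S / e : ℕ) : ℝ) ^ 2) *
      min 1 ((4 * ((R : ℝ) * ((S / e : ℕ) : ℝ) ^ 2) / (((M / e + 1 : ℕ) : ℝ) * |(h : ℝ)|)) ^ 2) := by
  have hR0 : (0 : ℝ) < R := by exact_mod_cast hR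
  have hM0 : (0 : ℝ) < M := by exact_mod_cast hM
  have he0 : (0 : ℝ) < e := by exact_mod_cast he
  -- the sizes of S / e and M / e + 1
  have hs1 : e * (S / e) ≤ S := Nat.mul_div_le S e
  have hs2 : S < e * (S / e) + e := by
    have h3 := Nat.div_add_mod S e
    have h4 := Nat.mod_lt S (show 0 < e by omega)
    omega
  have hm1 : e * (M / e) ≤ M := Nat.mul_div_le M e
  have hm2 : M < e * (M / e) + e := by
    have h3 := Nat.div_add_mod M e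
    have h4 := Nat.mod_lt M (show 0 < e by omega)
    omega
  set g : ℝ := ((S / e : ℕ) : ℝ) with hgdef
  set m : ℝ := ((M / e + 1 : ℕ) : ℝ) with hmdef
  have hs1' : (e : ℝ) * g ≤ S := by rw [hgdef]; exact_mod_cast hs1
  have hs2' : (S : ℝ) ≤ e * g + e := by rw [hgdef]; exact_mod_cast hs2.le
  have heS' : 4 * (e : ℝ) ≤ S := by exact_mod_cast heS
  have hs3 : 3 / 4 * (S : ℝ) ≤ e * g := by linarith
  have heM' : (e : ℝ) ≤ M := by exact_mod_cast heM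
  have hm1' : (e : ℝ) * m ≤ 2 * M := by
    have h3 : (e : ℝ) * ((M / e : ℕ) : ℝ) ≤ M := by exact_mod_cast hm1
    rw [hmdef]
    push_cast
    linarith
  have hm2' : (M : ℝ) ≤ e * m := by
    have h3 : (M : ℝ) ≤ e * ((M / e : ℕ) : ℝ) + e := by exact_mod_cast hm2.le
    rw [hmdef]
    push_cast
    linarith
  have hS0 : (0 : ℝ) < S := by linarith
  have hg0 : 0 < g := by
    by_contra hcon
    push Not at hcon
    have : (e : ℝ) * g ≤ 0 := mul_nonpos_of_nonneg_of_nonpos he0.le hcon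
    linarith
  have hm0 : 0 < m := by
    rw [hmdef]
    positivity
  have hnn : 0 ≤ 4 * m / ((R : ℝ) * g ^ 2) * min 1 ((4 * ((R : ℝ) * g ^ 2) / (m * |(h : ℝ)|)) ^ 2) := by
    have : 0 ≤ min (1 : ℝ) ((4 * ((R : ℝ) * g ^ 2) / (m * |(h : ℝ)|)) ^ 2) := le_min zero_le_one (sq_nonneg _)
    positivity
  by_cases hg : gae A P c μ M H e k h r g1 g2 = 0
  · rw [hg, norm_zero]
    exact hnn
  obtain ⟨w1, w2, -, -⟩ := Egc_supp hg
  obtain ⟨p1, p2, p3, -, -, -, -, -⟩ := hPr.1.1 _ w1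
  obtain ⟨-, -, q3, -, -, -, -, -⟩ := hPr.1.1 _ w2
  have p4 := hPr.2 _ w1
  have q4 := hPr.2 _ w2
  simp only at p1 p2 p3 p4 q3 q4
  unfold gae at hg ⊢
  split_ifs at hg ⊢ with h1
  swap
  · exact absurd rfl hg
  obtain ⟨h0, hb, -, -⟩ := h1
  have hh0 : (h : ℝ) ≠ 0 := by exact_mod_cast h0
  have hh2 : (0 : ℝ) < (h : ℝ) ^ 2 := by positivity
  -- sizes of K
  have e1 : (R : ℝ) ≤ r := by exact_mod_cast p1.le
  have e2 : (r : ℝ) ≤ 2 * R := by exact_mod_cast p2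
  have e3 : (S : ℝ) ≤ e * g1 := by exact_mod_cast p3.le
  have e4 : (e : ℝ) * g1 ≤ 3 / 2 * S := by
    have : 2 * ((e : ℝ) * g1) ≤ 3 * S := by exact_mod_cast p4
    linarith
  have e5 : (S : ℝ) ≤ e * g2 := by exact_mod_cast q3.le
  have e6 : (e : ℝ) * g2 ≤ 3 / 2 * S := by
    have : 2 * ((e : ℝ) * g2) ≤ 3 * S := by exact_mod_cast q4
    linarith
  have hKe : ((r * g1 * g2 * e : ℕ) : ℝ) * e = r * (e * g1) * (e * g2) := by
    push_cast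
    ring
  have K1 : (R : ℝ) * (S : ℝ) ^ 2 ≤ ((r * g1 * g2 * e : ℕ) : ℝ) * e := by
    rw [hKe]
    calc (R : ℝ) * (S : ℝ) ^ 2 = R * S * S := by ring
      _ ≤ r * (e * g1) * (e * g2) := by gcongr
  have K2 : ((r * g1 * g2 * e : ℕ) : ℝ) * e ≤ 9 / 2 * ((R : ℝ) * (S : ℝ) ^ 2) := by
    rw [hKe]
    calc (r : ℝ) * (e * g1) * (e * g2) ≤ (2 * R) * (3 / 2 * S) * (3 / 2 * S) := by gcongr
      _ = 9 / 2 * ((R : ℝ) * (S : ℝ) ^ 2) := by ring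
  have RS0 : 0 < (R : ℝ) * (S : ℝ) ^ 2 := by positivity
  have K0 : 0 < ((r * g1 * g2 * e : ℕ) : ℝ) := by
    by_contra hcon
    push Not at hcon
    have := mul_nonpos_of_nonpos_of_nonneg hcon he0.le
    linarith
  have Kn : 1 ≤ r * g1 * g2 * e := by
    have : 0 < r * g1 * g2 * e := by exact_mod_cast K0
    omega
  have hK : 2 * |h| ≤ ((r * g1 * g2 * e : ℕ) : ℤ) := by
    have q1 : 2 * |h| ≤ (r : ℤ) := by
      have : (2 : ℤ) * H < R := by exact_mod_cast hH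
      have : (R : ℤ) < r := by exact_mod_cast p1
      linarith
    have q2 : r ≤ r * g1 * g2 * e := by
      rw [mul_assoc, mul_assoc]
      refine Nat.le_mul_of_pos_right _ ?_
      rw [mul_assoc, mul_assoc] at Kn
      exact Nat.pos_of_ne_zero fun h5 => by
        rw [h5, mul_zero] at Kn
        omega
    exact q1.trans (by exact_mod_cast q2)
  obtain ⟨t1, t2⟩ := hG M (r * g1 * g2 * e) h hM Kn
  have t3 := t2 h0 hK
  set G : ℝ := ‖Ten M (fun m => en (h * m) (r * g1 * g2 * e))‖ with hGd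
  set K : ℝ := ((r * g1 * g2 * e : ℕ) : ℝ) with hKd
  have n1 : ‖c (r, e * g1) * (starRingEnd ℂ) (c (r, e * g2)) *
      ((1 / ((r * g1 * g2 * e : ℕ) : ℂ)) * Ten M (fun m => en (h * m) (r * g1 * g2 * e))) *
      en (-(h * μ r g1 g2 * (iv (r * g1 * g2) e : ℤ))) e‖ ≤ (1 / K) * G := by
    rw [norm_mul, norm_mul, norm_mul, norm_mul, norm_div, norm_one, Complex.norm_natCast, RCLike.norm_conj, norm_en,
      mul_one]
    have : ‖c (r, e * g1)‖ * ‖c (r, e * g2)‖ ≤ 1 := mul_le_one₀ (hc1 _) (norm_nonneg _) (hc1 _)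
    exact mul_le_of_le_one_left (by positivity) this
  refine n1.trans ?_
  rcases min_choice (1 : ℝ) ((4 * ((R : ℝ) * g ^ 2) / (m * |(h : ℝ)|)) ^ 2) with hm | hm
  · rw [hm, mul_one, div_mul_eq_mul_div, one_mul]
    rw [div_le_div_iff₀ K0 (by positivity)]
    have a1 : G * ((R : ℝ) * g ^ 2) ≤ 4 * M * (R * g ^ 2) := by gcongr
    refine a1.trans ?_
    have a2 : (4 * M * ((R : ℝ) * g ^ 2)) * (e : ℝ) ^ 2 ≤ (4 * m * K) * (e : ℝ) ^ 2 := by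
      calc (4 * M * ((R : ℝ) * g ^ 2)) * (e : ℝ) ^ 2 = 4 * (M * (R * (e * g) ^ 2)) := by ring
        _ ≤ 4 * ((e * m) * (R * (S : ℝ) ^ 2)) := by gcongr
        _ ≤ 4 * ((e * m) * (K * e)) := by gcongr
        _ = (4 * m * K) * (e : ℝ) ^ 2 := by ring
    exact le_of_mul_le_mul_right a2 (by positivity)
  · have hm2 : (4 * ((R : ℝ) * g ^ 2) / (m * |(h : ℝ)|)) ^ 2 =
        4 ^ 2 * ((R : ℝ) * g ^ 2) ^ 2 / (m ^ 2 * (h : ℝ) ^ 2) := by
      rw [div_pow, mul_pow, mul_pow _ |(h : ℝ)|, sq_abs]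
    rw [hm, hm2]
    have a1 : (1 / K) * G ≤ K / ((M : ℝ) * (h : ℝ) ^ 2) := by
      rw [div_mul_eq_mul_div, one_mul, div_le_div_iff₀ K0 (by positivity)]
      calc G * ((M : ℝ) * (h : ℝ) ^ 2) ≤ (K ^ 2 / ((M : ℝ) * (h : ℝ) ^ 2)) * ((M : ℝ) * (h : ℝ) ^ 2) := by
            gcongr
        _ = K * K := by field_simp
    have a2 : K / ((M : ℝ) * (h : ℝ) ^ 2) ≤ 64 * ((R : ℝ) * g ^ 2) / (m * (h : ℝ) ^ 2) := by
      rw [div_le_div_iff₀ (by positivity) (by positivity)]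
      have a4 : (K * m) * (e : ℝ) ^ 2 ≤ (64 * ((R : ℝ) * g ^ 2) * M) * (e : ℝ) ^ 2 := by
        calc (K * m) * (e : ℝ) ^ 2 = (K * e) * (e * m) := by ring
          _ ≤ (9 / 2 * ((R : ℝ) * (S : ℝ) ^ 2)) * (2 * M) := by gcongr
          _ = 16 * ((R : ℝ) * (3 / 4 * (S : ℝ)) ^ 2) * M := by ring
          _ ≤ 16 * ((R : ℝ) * (e * g) ^ 2) * M := by gcongr
          _ ≤ 64 * ((R : ℝ) * (e * g) ^ 2) * M := by gcongr; norm_num
          _ = (64 * ((R : ℝ) * g ^ 2) * M) * (e : ℝ) ^ 2 := by ring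
      have a5 := le_of_mul_le_mul_right a4 (by positivity)
      calc K * (m * (h : ℝ) ^ 2) = (K * m) * (h : ℝ) ^ 2 := by ring
        _ ≤ (64 * ((R : ℝ) * g ^ 2) * M) * (h : ℝ) ^ 2 := by gcongr
        _ = 64 * ((R : ℝ) * g ^ 2) * (M * (h : ℝ) ^ 2) := by ring
    have a3 : 64 * ((R : ℝ) * g ^ 2) / (m * (h : ℝ) ^ 2) =
        4 * m / ((R : ℝ) * g ^ 2) * (4 ^ 2 * ((R : ℝ) * g ^ 2) ^ 2 / (m ^ 2 * (h : ℝ) ^ 2)) := by
      field_simp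
      ring
    linarith

theorem tEgc (h1 : MI.DggStmt) : EgcStmt := by
  intro A b R S M H e k z P c μ hPr he heS heM hR hM hH hc1
  refine ⟨fun r s1 s2 => Egc_zero A P c μ M H e k r s1 s2, fun h r s1 s2 hg => ?_,
    fun h r s1 s2 => Egc_bound h1 hPr he heS heM hR hM hH hc1 h r s1 s2⟩
  obtain ⟨w1, w2, -, -⟩ := Egc_supp hg
  exact ⟨(mem_PE he).2 w1, (mem_PE he).2 w2⟩

end Pool.Agent.Lib.MS
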