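import Pool.Agent.Lib.MS.SpecD

/-!
MP_00e23e_nt, directory Lib/MS, module Ein: the pairs with a common factor, fixed e and k (helper13).
-/

namespace Pool.Agent.Lib.MS

open Finset Pool.Agent.Lib.EH3 Pool.Agent.Lib.TB Pool.Agent.Results.MP_00e23e_nt Pool.Agent.Lib.MI

/-- the number of tuples -/
private lemma Ein_cnt (hE : EctStmt) (e N R G : ℕ) (he : 1 ≤ e) (heN : e ≤ N) (ρ : ℕ → ℕ → ℕ → ℤ)
    (D : ℝ) (hD : 0 ≤ D) :
    ∑ r ∈ Ioc R (2 * R), ∑ g1 ∈ Ioc G (2 * G), ∑ g2 ∈ Ioc G (2 * G), ∑ n ∈ Ioc N (2 * N),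
      (if (e : ℤ) ∣ (n : ℤ) - ρ r g1 g2 then D else 0) ≤
    (R : ℝ) * ((G : ℝ) * ((G : ℝ) * (2 * (N : ℝ) / e * D))) := by
  have hcard : ∀ m : ℕ, (Ioc m (2 * m)).card = m := by
    intro m
    rw [Nat.card_Ioc]
    omega
  have h1 : ∀ r g1 g2 : ℕ, ∑ n ∈ Ioc N (2 * N), (if (e : ℤ) ∣ (n : ℤ) - ρ r g1 g2 then D else 0) ≤
      2 * (N : ℝ) / e * D := by
    intro r g1 g2
    rw [← Finset.sum_filter, Finset.sum_const, nsmul_eq_mul]
    exact mul_le_mul_of_nonneg_right (hE e N (ρ r g1 g2) he heN) hD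
  have h2 : ∀ r g1 : ℕ, ∑ g2 ∈ Ioc G (2 * G), ∑ n ∈ Ioc N (2 * N),
      (if (e : ℤ) ∣ (n : ℤ) - ρ r g1 g2 then D else 0) ≤ (G : ℝ) * (2 * (N : ℝ) / e * D) := by
    intro r g1
    have := Finset.sum_le_card_nsmul (Ioc G (2 * G)) _ _ (fun g2 _ => h1 r g1 g2)
    rwa [hcard, nsmul_eq_mul] at this
  have h3 : ∀ r : ℕ, ∑ g1 ∈ Ioc G (2 * G), ∑ g2 ∈ Ioc G (2 * G), ∑ n ∈ Ioc N (2 * N),
      (if (e : ℤ) ∣ (n : ℤ) - ρ r g1 g2 then D else 0) ≤
        (G : ℝ) * ((G : ℝ) * (2 * (N : ℝ) / e * D)) := by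
    intro r
    have := Finset.sum_le_card_nsmul (Ioc G (2 * G)) _ _ (fun g1 _ => h2 r g1)
    rwa [hcard, nsmul_eq_mul] at this
  have := Finset.sum_le_card_nsmul (Ioc R (2 * R)) _ _ (fun r _ => h3 r)
  rwa [hcard, nsmul_eq_mul] at this

/-- the size of K = r g1 g2 e -/
private lemma Ein_K {A : ℕ → ℕ → ℤ} {b : ℕ → ℤ} {R S e : ℕ} {z : ℝ} {P : Finset (ℕ × ℕ)}
    (hPr : Pr A b R S z P) (he : 1 ≤ e) {r g1 g2 : ℕ} (hI : InE A P e r g1 g2) :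
    (R : ℝ) * (S : ℝ) ^ 2 / e ≤ (r : ℝ) * g1 * g2 * e ∧
      (r : ℝ) * g1 * g2 * e ≤ 8 * ((R : ℝ) * (S : ℝ) ^ 2) / e := by
  obtain ⟨hPr1, -⟩ := hPr
  obtain ⟨h1, h2, -, -⟩ := hI
  obtain ⟨a1, a2, a3, a4, -⟩ := hPr1.1 _ h1
  obtain ⟨-, -, b3, b4, -⟩ := hPr1.1 _ h2
  simp only at a1 a2 a3 a4 b3 b4
  have he' : (0 : ℝ) < e := by exact_mod_cast he
  have a1' : (R : ℝ) ≤ r := by exact_mod_cast a1.le
  have a2' : (r : ℝ) ≤ 2 * R := by exact_mod_cast a2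
  have a3' : (S : ℝ) ≤ e * g1 := by exact_mod_cast a3.le
  have a4' : (e : ℝ) * g1 ≤ 2 * S := by exact_mod_cast a4
  have b3' : (S : ℝ) ≤ e * g2 := by exact_mod_cast b3.le
  have b4' : (e : ℝ) * g2 ≤ 2 * S := by exact_mod_cast b4
  have hid : (r : ℝ) * g1 * g2 * e = (r : ℝ) * ((e * g1) * (e * g2)) / e := by
    field_simp
  rw [hid]
  have hS0 : (0 : ℝ) ≤ S := Nat.cast_nonneg _
  have hR0 : (0 : ℝ) ≤ R := Nat.cast_nonneg _
  have hr0 : (0 : ℝ) ≤ r := Nat.cast_nonneg _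
  constructor
  · apply div_le_div_of_nonneg_right _ he'.le
    have h3 : (S : ℝ) ^ 2 ≤ (e * g1) * (e * g2) := by
      rw [pow_two]
      exact mul_le_mul a3' b3' hS0 (hS0.trans a3')
    exact mul_le_mul a1' h3 (by positivity) hr0
  · apply div_le_div_of_nonneg_right _ he'.le
    have h3 : ((e : ℝ) * g1) * (e * g2) ≤ (2 * S) * (2 * S) :=
      mul_le_mul a4' b4' (hS0.trans b3') (by positivity)
    calc (r : ℝ) * ((e * g1) * (e * g2)) ≤ (2 * R) * ((2 * S) * (2 * S)) :=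
          mul_le_mul a2' h3 (mul_nonneg (hS0.trans a3') (hS0.trans b3')) (by positivity)
      _ = 8 * ((R : ℝ) * (S : ℝ) ^ 2) := by ring

private lemma Ein_norm3 (x y u v : ℂ) (hx : ‖x‖ ≤ 1) (hy : ‖y‖ ≤ 1) (hu : ‖u‖ ≤ 1) :
    ‖x * (starRingEnd ℂ) y * u * v‖ ≤ ‖v‖ := by
  rw [norm_mul, norm_mul, norm_mul, RCLike.norm_conj]
  have h1 : ‖x‖ * ‖y‖ ≤ 1 := mul_le_one₀ hx (norm_nonneg _) hy
  have h2 : ‖x‖ * ‖y‖ * ‖u‖ ≤ 1 := mul_le_one₀ h1 (norm_nonneg _) hu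
  calc ‖x‖ * ‖y‖ * ‖u‖ * ‖v‖ ≤ 1 * ‖v‖ := mul_le_mul_of_nonneg_right h2 (norm_nonneg _)
    _ = ‖v‖ := one_mul _

open Classical in
/-- one tuple -/
private lemma Ein_pt (h2 : MI.DggStmt) (A : ℕ → ℕ → ℤ) (b : ℕ → ℤ) (a : ℕ → ℕ → ℕ → ℤ)
    (R S M H e k : ℕ) (z : ℝ) (P : Finset (ℕ × ℕ)) (c : ℕ × ℕ → ℂ) (w : ℕ → ℕ → ℂ)
    (ρ μ : ℕ → ℕ → ℕ → ℤ) (hPr : Pr A b R S z P) (he : 1 ≤ e) (hR : 1 ≤ R) (hS : 1 ≤ S)
    (hM : 1 ≤ M) (hH : 1 ≤ H)
    (hc : ∀ u, ‖c u‖ ≤ 1) (hw : ∀ r n, ‖w r n‖ ≤ 1) (r g1 g2 n : ℕ)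
    (hρ : InE A P e r g1 g2 →
      (Nc a ρ e k r g1 g2 n →
        ‖Pf (A r (e * g1)) (A r (e * g2)) M (r * (e * g1)) (r * (e * g2)) n (n + k * r) -
          (1 / ((r * g1 * g2 * e : ℕ) : ℂ)) * ∑ h ∈ Icc (-(H : ℤ)) H,
            Ten M (fun m => en (h * m) (r * g1 * g2 * e)) *
            (fz (a r g1 g2) h r g1 g2 n (n + k * r) *
              en (-(h * μ r g1 g2 * (iv (r * g1 * g2) e : ℤ))) e)‖ ≤
          2 * ((r : ℝ) * g1 * g2 * e) / ((M : ℝ) * H)) ∧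
      (¬ Nc a ρ e k r g1 g2 n →
        Pf (A r (e * g1)) (A r (e * g2)) M (r * (e * g1)) (r * (e * g2)) n (n + k * r) = 0)) :
    ‖(if InE A P e r g1 g2 then c (r, e * g1) * (starRingEnd ℂ) (c (r, e * g2)) * w r n *
      Pf (A r (e * g1)) (A r (e * g2)) M (r * (e * g1)) (r * (e * g2)) n (n + k * r) else 0) -
      ∑ h ∈ Icc (-(H : ℤ)) H, gae A P c μ M H e k h r g1 g2 *
        (if Gd (a r g1 g2) r g1 g2 n (n + k * r) ∧ (e : ℤ) ∣ (n : ℤ) - ρ r g1 g2 then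
          w r n * fz (a r g1 g2) h r g1 g2 n (n + k * r) else 0)‖ ≤
    if (e : ℤ) ∣ (n : ℤ) - ρ r g1 g2 then
      4 * (M : ℝ) * e / ((R : ℝ) * (S : ℝ) ^ 2) +
        16 * ((R : ℝ) * (S : ℝ) ^ 2) / ((e : ℝ) * ((M : ℝ) * H)) else 0 := by
  have he' : (0 : ℝ) < e := by exact_mod_cast he
  have hR' : (0 : ℝ) < R := by exact_mod_cast hR
  have hS' : (0 : ℝ) < S := by exact_mod_cast hS
  have hM' : (0 : ℝ) < M := by exact_mod_cast hM
  have hH' : (0 : ℝ) < H := by exact_mod_cast hH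
  have hrhs : 0 ≤ (if (e : ℤ) ∣ (n : ℤ) - ρ r g1 g2 then
      4 * (M : ℝ) * e / ((R : ℝ) * (S : ℝ) ^ 2) +
        16 * ((R : ℝ) * (S : ℝ) ^ 2) / ((e : ℝ) * ((M : ℝ) * H)) else 0) := by
    split_ifs
    · positivity
    · exact le_refl _
  by_cases hI : InE A P e r g1 g2
  swap
  · have h0 : ∀ h : ℤ, gae A P c μ M H e k h r g1 g2 = 0 := by
      intro h
      unfold gae
      rw [if_neg]
      rintro ⟨-, -, h3, -⟩
      exact hI h3
    rw [if_neg hI]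
    simp only [h0, zero_mul, Finset.sum_const_zero, sub_zero, norm_zero]
    exact hrhs
  obtain ⟨hN1, hN2⟩ := hρ hI
  by_cases hN : Nc a ρ e k r g1 g2 n
  swap
  · rw [if_pos hI, hN2 hN, mul_zero]
    have h0 : ∀ h : ℤ, gae A P c μ M H e k h r g1 g2 *
        (if Gd (a r g1 g2) r g1 g2 n (n + k * r) ∧ (e : ℤ) ∣ (n : ℤ) - ρ r g1 g2 then
          w r n * fz (a r g1 g2) h r g1 g2 n (n + k * r) else 0) = 0 := by
      intro h
      by_cases hk : (k * r).Coprime e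
      · rw [if_neg, mul_zero]
        rintro ⟨h3, h4⟩
        exact hN ⟨hk, h3, h4⟩
      · have : gae A P c μ M H e k h r g1 g2 = 0 := by
          unfold gae
          rw [if_neg]
          rintro ⟨-, -, -, h4⟩
          exact hk h4
        rw [this, zero_mul]
    simp only [h0, Finset.sum_const_zero, sub_zero, norm_zero]
    exact hrhs
  have hcond : Gd (a r g1 g2) r g1 g2 n (n + k * r) ∧ (e : ℤ) ∣ (n : ℤ) - ρ r g1 g2 := hN.2
  rw [if_pos hI, if_pos hN.2.2]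
  simp only [if_pos hcond]
  obtain ⟨hK1, hK2⟩ := Ein_K hPr he hI
  have hK0 : 0 < (r : ℝ) * g1 * g2 * e := lt_of_lt_of_le (by positivity) hK1
  have hKn : ((r * g1 * g2 * e : ℕ) : ℝ) = (r : ℝ) * g1 * g2 * e := by push_cast; ring
  have hK1n : 1 ≤ r * g1 * g2 * e := by
    have : (0 : ℝ) < ((r * g1 * g2 * e : ℕ) : ℝ) := by rw [hKn]; exact hK0
    exact_mod_cast this
  set K : ℕ := r * g1 * g2 * e with hKdef
  set T : ℤ → ℂ := fun h => Ten M (fun m => en (h * m) K) *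
    (fz (a r g1 g2) h r g1 g2 n (n + k * r) *
      en (-(h * μ r g1 g2 * (iv (r * g1 * g2) e : ℤ))) e) with hT
  set cc : ℂ := c (r, e * g1) * (starRingEnd ℂ) (c (r, e * g2)) * w r n with hcc
  -- the frequency 0
  have hsum : ∑ h ∈ Icc (-(H : ℤ)) H, (cc * ((1 / (K : ℂ)) * T h) -
      gae A P c μ M H e k h r g1 g2 * (w r n * fz (a r g1 g2) h r g1 g2 n (n + k * r))) =
      cc * ((1 / (K : ℂ)) * T 0) := by
    rw [Finset.sum_eq_single (0 : ℤ)]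
    · have h0 : gae A P c μ M H e k 0 r g1 g2 = 0 := by
        unfold gae
        rw [if_neg]
        rintro ⟨h3, -⟩
        exact h3 rfl
      rw [h0, zero_mul, sub_zero]
    · intro h hh hne
      have hcnd : h ≠ 0 ∧ |h| ≤ (H : ℤ) ∧ InE A P e r g1 g2 ∧ (k * r).Coprime e := by
        refine ⟨hne, ?_, hI, hN.1⟩
        rw [Finset.mem_Icc] at hh
        exact abs_le.2 hh
      unfold gae
      rw [if_pos hcnd, hT, hcc]
      ring
    · intro h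
      exfalso
      apply h
      rw [Finset.mem_Icc]
      constructor <;> omega
  rw [Finset.sum_sub_distrib] at hsum
  have hdec : cc * Pf (A r (e * g1)) (A r (e * g2)) M (r * (e * g1)) (r * (e * g2)) n (n + k * r) -
      ∑ h ∈ Icc (-(H : ℤ)) H, gae A P c μ M H e k h r g1 g2 *
        (w r n * fz (a r g1 g2) h r g1 g2 n (n + k * r)) =
      cc * ((1 / (K : ℂ)) * T 0) +
      cc * (Pf (A r (e * g1)) (A r (e * g2)) M (r * (e * g1)) (r * (e * g2)) n (n + k * r) -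
        (1 / (K : ℂ)) * ∑ h ∈ Icc (-(H : ℤ)) H, T h) := by
    rw [← hsum, Finset.mul_sum, mul_sub, Finset.mul_sum]
    ring
  rw [hdec]
  refine (norm_add_le _ _).trans (add_le_add ?_ ?_)
  · rw [hcc]
    refine (Ein_norm3 _ _ _ _ (hc _) (hc _) (hw _ _)).trans ?_
    have hT0 : ‖T 0‖ ≤ 4 * (M : ℝ) := by
      rw [hT]
      simp only [fz, norm_mul, norm_en, mul_one]
      exact (h2 M K 0 hM hK1n).1
    rw [norm_mul, norm_div, norm_one, Complex.norm_natCast, hKn]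
    calc 1 / ((r : ℝ) * g1 * g2 * e) * ‖T 0‖ ≤ 1 / ((R : ℝ) * (S : ℝ) ^ 2 / e) * (4 * (M : ℝ)) := by
          apply mul_le_mul _ hT0 (norm_nonneg _) (by positivity)
          exact one_div_le_one_div_of_le (by positivity) hK1
      _ = 4 * (M : ℝ) * e / ((R : ℝ) * (S : ℝ) ^ 2) := by
          field_simp
  · rw [hcc]
    refine (Ein_norm3 _ _ _ _ (hc _) (hc _) (hw _ _)).trans ?_
    refine (hN1 hN).trans ?_
    calc 2 * ((r : ℝ) * g1 * g2 * e) / ((M : ℝ) * H) ≤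
        2 * (8 * ((R : ℝ) * (S : ℝ) ^ 2) / e) / ((M : ℝ) * H) := by
          apply div_le_div_of_nonneg_right _ (by positivity)
          linarith
      _ = 16 * ((R : ℝ) * (S : ℝ) ^ 2) / ((e : ℝ) * ((M : ℝ) * H)) := by
          field_simp
          ring

open Classical in
theorem tEin (h1 : EctStmt) (h2 : MI.DggStmt) (h3 : EitStmt) (h4 : EgcStmt) : EinStmt := by
  intro z B' A b a R S M N H e k P c w hPr he h4e heN heM hR hM hH h2H hCp hc hw hB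
  obtain ⟨ρ, μ, hρ⟩ := h3 A b a R S M H e k z P hPr he hCp hM hH h2H
  have hcf := h4 A b R S M H e k z P c μ hPr he h4e heM hR hM h2H hc
  have hmain := hB ρ (gae A P c μ M H e k) w hcf hw
  have hS : 1 ≤ S := by omega
  have he' : (0 : ℝ) < e := by exact_mod_cast he
  have hR' : (0 : ℝ) < R := by exact_mod_cast hR
  have hS' : (0 : ℝ) < S := by exact_mod_cast hS
  have hM' : (0 : ℝ) < M := by exact_mod_cast hM
  have hH' : (0 : ℝ) < H := by exact_mod_cast hH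
  have hN' : (0 : ℝ) ≤ N := Nat.cast_nonneg _
  set D : ℝ := 4 * (M : ℝ) * e / ((R : ℝ) * (S : ℝ) ^ 2) +
    16 * ((R : ℝ) * (S : ℝ) ^ 2) / ((e : ℝ) * ((M : ℝ) * H)) with hD
  have hD0 : 0 ≤ D := by rw [hD]; positivity
  set G : ℕ := S / e with hG
  -- exchange of the sums
  have hTE : ∑ h ∈ Icc (-(H : ℤ)) H, TE a ρ e h k R G N (gae A P c μ M H e k h) w =
      ∑ r ∈ Ioc R (2 * R), ∑ g1 ∈ Ioc G (2 * G), ∑ g2 ∈ Ioc G (2 * G), ∑ n ∈ Ioc N (2 * N),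
        ∑ h ∈ Icc (-(H : ℤ)) H, gae A P c μ M H e k h r g1 g2 *
          (if Gd (a r g1 g2) r g1 g2 n (n + k * r) ∧ (e : ℤ) ∣ (n : ℤ) - ρ r g1 g2 then
            w r n * fz (a r g1 g2) h r g1 g2 n (n + k * r) else 0) := by
    unfold TE
    rw [Finset.sum_comm]
    refine Finset.sum_congr rfl fun r _ => ?_
    rw [Finset.sum_comm]
    refine Finset.sum_congr rfl fun g1 _ => ?_
    rw [Finset.sum_comm]
    refine Finset.sum_congr rfl fun g2 _ => ?_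
    simp only [Finset.mul_sum]
    rw [Finset.sum_comm]
  have hdiff : ‖Se A P c w R S M N e k -
      ∑ h ∈ Icc (-(H : ℤ)) H, TE a ρ e h k R G N (gae A P c μ M H e k h) w‖ ≤
      (R : ℝ) * ((G : ℝ) * ((G : ℝ) * (2 * (N : ℝ) / e * D))) := by
    rw [hTE]
    unfold Se
    rw [← hG]
    simp only [← Finset.sum_sub_distrib]
    refine le_trans ?_ (Ein_cnt h1 e N R G he heN ρ D hD0)
    refine (norm_sum_le _ _).trans (Finset.sum_le_sum fun r _ => ?_)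
    refine (norm_sum_le _ _).trans (Finset.sum_le_sum fun g1 _ => ?_)
    refine (norm_sum_le _ _).trans (Finset.sum_le_sum fun g2 _ => ?_)
    refine (norm_sum_le _ _).trans (Finset.sum_le_sum fun n _ => ?_)
    exact Ein_pt h2 A b a R S M H e k z P c w ρ μ hPr he hR hS hM hH hc hw r g1 g2 n
      (fun hI => hρ r g1 g2 n hI)
  have hGS : (G : ℝ) ≤ (S : ℝ) / e := Nat.cast_div_le
  have hG0 : (0 : ℝ) ≤ G := Nat.cast_nonneg _
  have hfin : (R : ℝ) * ((G : ℝ) * ((G : ℝ) * (2 * (N : ℝ) / e * D))) ≤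
      8 * ((M : ℝ) * N) / (e : ℝ) ^ 2 +
        64 * ((R : ℝ) ^ 2 * (S : ℝ) ^ 4 * N) / ((M : ℝ) * H * (e : ℝ) ^ 4) := by
    have hx : 0 ≤ 2 * (N : ℝ) / e * D := by positivity
    have h5 : (R : ℝ) * ((G : ℝ) * ((G : ℝ) * (2 * (N : ℝ) / e * D))) ≤
        (R : ℝ) * (((S : ℝ) / e) * (((S : ℝ) / e) * (2 * (N : ℝ) / e * D))) := by
      apply mul_le_mul_of_nonneg_left _ hR'.le
      apply mul_le_mul hGS _ (by positivity) (by positivity)
      exact mul_le_mul_of_nonneg_right hGS hx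
    refine h5.trans ?_
    have h6 : (R : ℝ) * (((S : ℝ) / e) * (((S : ℝ) / e) * (2 * (N : ℝ) / e * D))) =
        8 * ((M : ℝ) * N) / (e : ℝ) ^ 2 +
          32 * ((R : ℝ) ^ 2 * (S : ℝ) ^ 4 * N) / ((M : ℝ) * H * (e : ℝ) ^ 4) := by
      rw [hD]
      field_simp
      ring
    rw [h6]
    have h7 : 32 * ((R : ℝ) ^ 2 * (S : ℝ) ^ 4 * N) / ((M : ℝ) * H * (e : ℝ) ^ 4) ≤
        64 * ((R : ℝ) ^ 2 * (S : ℝ) ^ 4 * N) / ((M : ℝ) * H * (e : ℝ) ^ 4) := by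
      apply div_le_div_of_nonneg_right _ (by positivity)
      have : 0 ≤ (R : ℝ) ^ 2 * (S : ℝ) ^ 4 * N := by positivity
      linarith
    linarith
  have htri : ‖Se A P c w R S M N e k‖ ≤
      ‖∑ h ∈ Icc (-(H : ℤ)) H, TE a ρ e h k R G N (gae A P c μ M H e k h) w‖ +
      ‖Se A P c w R S M N e k -
        ∑ h ∈ Icc (-(H : ℤ)) H, TE a ρ e h k R G N (gae A P c μ M H e k h) w‖ := by
    have := norm_add_le (∑ h ∈ Icc (-(H : ℤ)) H, TE a ρ e h k R G N (gae A P c μ M H e k h) w)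
      (Se A P c w R S M N e k -
        ∑ h ∈ Icc (-(H : ℤ)) H, TE a ρ e h k R G N (gae A P c μ M H e k h) w)
    rwa [add_sub_cancel] at this
  linarith

end Pool.Agent.Lib.MS
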