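import Pool.Agent.Lib.MS.SpecD

/-!
# MP_00e23e_nt, Lib/MS: the sum over the common factor (`EirStmt`), helper73
-/

namespace Pool.Agent.Lib.MS

open Finset Pool.Agent.Lib.EH3 Pool.Agent.Lib.TB Pool.Agent.Results.MP_00e23e_nt Pool.Agent.Lib.MI

lemma Eir_gcd {e g1 g2 : ℕ} (h : g1.Coprime g2) : Nat.gcd (e * g1) (e * g2) = e := by
  have h1 : Nat.gcd g1 g2 = 1 := h
  rw [Nat.gcd_mul_left, h1, mul_one]

lemma Eir_InE_symm {A : ℕ → ℕ → ℤ} {P : Finset (ℕ × ℕ)} {e r g1 g2 : ℕ} (h : InE A P e r g1 g2) :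
    InE A P e r g2 g1 := by
  obtain ⟨h1, h2, h3, h4⟩ := h
  refine ⟨h2, h1, h3.symm, fun p hp hpe hd => h4 p hp hpe ?_⟩
  have h5 := (dvd_neg (a := (p : ℤ))).2 hd
  rwa [neg_sub] at h5

open Classical in
lemma Eir_pairs {A : ℕ → ℕ → ℤ} {b : ℕ → ℤ} {R S : ℕ} {z z1 : ℝ} {P : Finset (ℕ × ℕ)} (hP : Pr A b R S z P)
    (hz : 1 ≤ z) (hz1 : 4 * z1 ≤ S) (r : ℕ) (F : ℕ → ℕ → ℂ) :
    ∑ s1 ∈ Ioc S (2 * S), ∑ s2 ∈ Ioc S (2 * S), (if Inc A P z1 r s1 s2 then F s1 s2 else 0) =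
      ∑ e ∈ (Icc 1 S).filter (fun e : ℕ => z < e ∧ (e : ℝ) ≤ z1),
        ∑ g1 ∈ Ioc (S / e) (2 * (S / e)), ∑ g2 ∈ Ioc (S / e) (2 * (S / e)),
          (if InE A P e r g1 g2 then F (e * g1) (e * g2) else 0) := by
  have hl : ∑ s1 ∈ Ioc S (2 * S), ∑ s2 ∈ Ioc S (2 * S), (if Inc A P z1 r s1 s2 then F s1 s2 else 0) =
      ∑ x ∈ (Ioc S (2 * S) ×ˢ Ioc S (2 * S)).filter (fun x => Inc A P z1 r x.1 x.2), F x.1 x.2 := by
    rw [sum_filter, sum_product]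
  have hmaps : ∀ x ∈ (Ioc S (2 * S) ×ˢ Ioc S (2 * S)).filter (fun x => Inc A P z1 r x.1 x.2),
      Nat.gcd x.1 x.2 ∈ (Icc 1 S).filter (fun e : ℕ => z < e ∧ (e : ℝ) ≤ z1) := by
    intro x hx
    rw [mem_filter, mem_product, mem_Ioc, mem_Ioc] at hx
    obtain ⟨⟨⟨h1, -⟩, -⟩, h3, h4, h5, h6, h7⟩ := hx
    have hpos : 0 < Nat.gcd x.1 x.2 := Nat.gcd_pos_of_pos_left _ (by omega)
    have hne : Nat.gcd x.1 x.2 ≠ 1 := h5
    obtain ⟨p, hp, hpd⟩ := Nat.exists_prime_and_dvd hne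
    have hzp : z < p := (hP.1.1 (r, x.1) h3).2.2.2.2.2.2.2 p hp (hpd.trans (Nat.gcd_dvd_left _ _))
    have hpe : (p : ℝ) ≤ (Nat.gcd x.1 x.2 : ℕ) := by exact_mod_cast Nat.le_of_dvd hpos hpd
    have hge : (1 : ℝ) ≤ (Nat.gcd x.1 x.2 : ℕ) := by exact_mod_cast hpos
    have hS : ((Nat.gcd x.1 x.2 : ℕ) : ℝ) ≤ S := by linarith
    rw [mem_filter, mem_Icc]
    exact ⟨⟨hpos, by exact_mod_cast hS⟩, by linarith, h6⟩
  rw [hl, ← sum_fiberwise_of_maps_to hmaps]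
  refine sum_congr rfl fun e he => ?_
  rw [mem_filter, mem_Icc] at he
  obtain ⟨⟨he1, heS⟩, hze, hez⟩ := he
  have he4 : 4 * e ≤ S := by
    have : 4 * (e : ℝ) ≤ S := by linarith
    exact_mod_cast this
  have hr : ∑ g1 ∈ Ioc (S / e) (2 * (S / e)), ∑ g2 ∈ Ioc (S / e) (2 * (S / e)),
      (if InE A P e r g1 g2 then F (e * g1) (e * g2) else 0) =
      ∑ y ∈ (Ioc (S / e) (2 * (S / e)) ×ˢ Ioc (S / e) (2 * (S / e))).filter
        (fun y => InE A P e r y.1 y.2), F (e * y.1) (e * y.2) := by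
    rw [sum_filter, sum_product]
  rw [hr]
  -- the range of g
  have hq1 : e * (S / e) ≤ S := Nat.mul_div_le S e
  have hq2 : S < e * (S / e) + e := by
    have h1 := Nat.div_add_mod S e
    have h2 := Nat.mod_lt S he1
    omega
  have hg : ∀ g : ℕ, (r, e * g) ∈ P → S / e < g ∧ g ≤ 2 * (S / e) := by
    intro g hgP
    have h1 := hP.1.1 (r, e * g) hgP
    have h2 : S < e * g := h1.2.2.1
    have h3 : 2 * (e * g) ≤ 3 * S := hP.2 (r, e * g) hgP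
    refine ⟨Nat.div_lt_of_lt_mul h2, ?_⟩
    by_contra hlt
    have h4 : 2 * (S / e) + 1 ≤ g := by omega
    have h5 := Nat.mul_le_mul_left e h4
    have h6 : e * (2 * (S / e) + 1) = 2 * (e * (S / e)) + e := by ring
    omega
  refine sum_nbij' (fun x => (x.1 / e, x.2 / e)) (fun y => (e * y.1, e * y.2)) ?_ ?_ ?_ ?_ ?_
  · intro x hx
    rw [mem_filter, mem_filter, mem_product, mem_Ioc, mem_Ioc] at hx
    obtain ⟨⟨⟨⟨h1, -⟩, -⟩, h3, h4, h5, h6, h7⟩, h8⟩ := hx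
    have hd1 : e ∣ x.1 := h8 ▸ Nat.gcd_dvd_left _ _
    have hd2 : e ∣ x.2 := h8 ▸ Nat.gcd_dvd_right _ _
    have e1 : e * (x.1 / e) = x.1 := Nat.mul_div_cancel' hd1
    have e2 : e * (x.2 / e) = x.2 := Nat.mul_div_cancel' hd2
    have h3' : (r, e * (x.1 / e)) ∈ P := by rw [e1]; exact h3
    have h4' : (r, e * (x.2 / e)) ∈ P := by rw [e2]; exact h4
    rw [mem_filter, mem_product, mem_Ioc, mem_Ioc]
    refine ⟨⟨hg _ h3', hg _ h4'⟩, h3', h4', ?_, ?_⟩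
    · have h9 := Nat.coprime_div_gcd_div_gcd (m := x.1) (n := x.2) (by rw [h8]; exact he1)
      rw [h8] at h9
      exact h9
    · intro p hp hpe
      show ¬ (p : ℤ) ∣ A r (e * (x.1 / e)) - A r (e * (x.2 / e))
      rw [e1, e2]
      exact h7 p hp (hpe.trans hd1) (hpe.trans hd2)
  · intro y hy
    rw [mem_filter] at hy
    obtain ⟨-, h3, h4, h5, h6⟩ := hy
    have hgcd : Nat.gcd (e * y.1) (e * y.2) = e := Eir_gcd h5
    rw [mem_filter, mem_filter, mem_product, mem_Ioc, mem_Ioc]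
    have a1 := hP.1.1 (r, e * y.1) h3
    have a2 := hP.1.1 (r, e * y.2) h4
    refine ⟨⟨⟨⟨a1.2.2.1, a1.2.2.2.1⟩, ⟨a2.2.2.1, a2.2.2.2.1⟩⟩, h3, h4, ?_, ?_, ?_⟩, hgcd⟩
    · intro hc
      have h7 : Nat.gcd (e * y.1) (e * y.2) = 1 := hc
      rw [hgcd] at h7
      rw [h7, Nat.cast_one] at hze
      linarith
    · show ((Nat.gcd (e * y.1) (e * y.2) : ℕ) : ℝ) ≤ z1
      rw [hgcd]
      exact hez
    · intro p hp hp1 hp2
      refine h6 p hp ?_
      have h7 := Nat.dvd_gcd hp1 hp2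
      rwa [hgcd] at h7
  · intro x hx
    rw [mem_filter] at hx
    have hd1 : e ∣ x.1 := hx.2 ▸ Nat.gcd_dvd_left _ _
    have hd2 : e ∣ x.2 := hx.2 ▸ Nat.gcd_dvd_right _ _
    exact Prod.ext (Nat.mul_div_cancel' hd1) (Nat.mul_div_cancel' hd2)
  · intro y _
    exact Prod.ext (Nat.mul_div_cancel_left _ he1) (Nat.mul_div_cancel_left _ he1)
  · intro x hx
    rw [mem_filter] at hx
    have hd1 : e ∣ x.1 := hx.2 ▸ Nat.gcd_dvd_left _ _
    have hd2 : e ∣ x.2 := hx.2 ▸ Nat.gcd_dvd_right _ _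
    show F x.1 x.2 = F (e * (x.1 / e)) (e * (x.2 / e))
    rw [Nat.mul_div_cancel' hd1, Nat.mul_div_cancel' hd2]

lemma Eir_zero {A : ℕ → ℕ → ℤ} {b : ℕ → ℤ} {R S : ℕ} {z : ℝ} {P : Finset (ℕ × ℕ)} (hP : Pr A b R S z P)
    {r s1 s2 : ℕ} (h1 : (r, s1) ∈ P) (h2 : (r, s2) ∈ P) (M n1 n2 : ℕ) (hr : ¬ (r : ℤ) ∣ (n2 : ℤ) - n1) :
    Pf (A r s1) (A r s2) M (r * s1) (r * s2) n1 n2 = 0 := by
  have key : ∀ m : ℕ, dl (A r s1) (r * s1) (m * n1) * dl (A r s2) (r * s2) (m * n2) = 0 := by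
    intro m
    unfold dl
    by_cases hd1 : ((r * s1 : ℕ) : ℤ) ∣ ((m * n1 : ℕ) : ℤ) - A r s1
    · by_cases hd2 : ((r * s2 : ℕ) : ℤ) ∣ ((m * n2 : ℕ) : ℤ) - A r s2
      · exfalso
        apply hr
        have e1 : (r : ℤ) ∣ ((m * n1 : ℕ) : ℤ) - A r s1 :=
          (Int.natCast_dvd_natCast.2 (Dvd.intro s1 rfl)).trans hd1
        have e2 : (r : ℤ) ∣ ((m * n2 : ℕ) : ℤ) - A r s2 :=
          (Int.natCast_dvd_natCast.2 (Dvd.intro s2 rfl)).trans hd2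
        have b1 : (r : ℤ) ∣ A r s1 - b r := (hP.1.1 (r, s1) h1).2.2.2.2.2.2.1
        have b2 : (r : ℤ) ∣ A r s2 - b r := (hP.1.1 (r, s2) h2).2.2.2.2.2.2.1
        have g1 : Int.gcd (A r s1) ((r * s1 : ℕ) : ℤ) = 1 := (hP.1.1 (r, s1) h1).2.2.2.2.2.1
        have c1 : IsCoprime (A r s1) ((r : ℤ) * (s1 : ℤ)) := by
          have := Int.isCoprime_iff_gcd_eq_one.2 g1
          push_cast at this
          exact this
        have c2 : IsCoprime (A r s1) (r : ℤ) := c1.of_mul_right_left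
        obtain ⟨u, v, huv⟩ := c2
        obtain ⟨t, ht⟩ := e1
        have c3 : IsCoprime (r : ℤ) (m : ℤ) := by
          refine ⟨v - u * t, u * n1, ?_⟩
          push_cast at ht
          linear_combination huv + u * ht
        have h5 : (r : ℤ) ∣ (m : ℤ) * ((n2 : ℤ) - n1) := by
          have h6 : (m : ℤ) * ((n2 : ℤ) - n1) = (((m * n2 : ℕ) : ℤ) - A r s2) + (A r s2 - b r) -
              (A r s1 - b r) - (((m * n1 : ℕ) : ℤ) - A r s1) := by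
            push_cast
            ring
          rw [h6]
          exact dvd_sub (dvd_sub (dvd_add e2 b2) b1) ⟨t, ht⟩
        exact c3.dvd_of_dvd_mul_left h5
      · rw [if_neg hd2, mul_zero]
    · rw [if_neg hd1, zero_mul]
  unfold Pf Ten
  simp only [key, sum_const_zero, mul_zero]

open Classical in
lemma Eir_n (hD : MI.DspnStmt) {A : ℕ → ℕ → ℤ} {b : ℕ → ℤ} {R S : ℕ} {z : ℝ} {P : Finset (ℕ × ℕ)}
    (hP : Pr A b R S z P) (hR : 1 ≤ R) {r s1 s2 : ℕ} (hr : R < r) (h1 : (r, s1) ∈ P) (h2 : (r, s2) ∈ P)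
    (M N : ℕ) (β : ℕ → ℂ) (C : ℂ) :
    ∑ n1 ∈ Ioc N (2 * N), ∑ n2 ∈ Ioc N (2 * N), C * (β n1 * (starRingEnd ℂ) (β n2)) *
        Pf (A r s1) (A r s2) M (r * s1) (r * s2) n1 n2 =
      ∑ k ∈ range (N / R + 1), ∑ n ∈ Ioc N (2 * N), C * wk β N k r n *
        Pf (A r s1) (A r s2) M (r * s1) (r * s2) n (n + k * r) +
      ∑ k ∈ Icc 1 (N / R), ∑ n ∈ Ioc N (2 * N), C * wk' β N k r n *
        Pf (A r s1) (A r s2) M (r * s1) (r * s2) (n + k * r) n := by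
  have h3 := hD R r N (fun n1 n2 => C * (β n1 * (starRingEnd ℂ) (β n2)) *
        Pf (A r s1) (A r s2) M (r * s1) (r * s2) n1 n2) hR hr
  have h4 : ∑ n1 ∈ Ioc N (2 * N), ∑ n2 ∈ Ioc N (2 * N), C * (β n1 * (starRingEnd ℂ) (β n2)) *
        Pf (A r s1) (A r s2) M (r * s1) (r * s2) n1 n2 =
      ∑ n1 ∈ Ioc N (2 * N), ∑ n2 ∈ Ioc N (2 * N), (if (r : ℤ) ∣ (n2 : ℤ) - n1 then
        C * (β n1 * (starRingEnd ℂ) (β n2)) * Pf (A r s1) (A r s2) M (r * s1) (r * s2) n1 n2 else 0) := by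
    refine sum_congr rfl fun n1 _ => sum_congr rfl fun n2 _ => ?_
    by_cases hd : (r : ℤ) ∣ (n2 : ℤ) - n1
    · rw [if_pos hd]
    · rw [if_neg hd, Eir_zero hP h1 h2 M n1 n2 hd, mul_zero]
  rw [h4, h3]
  refine congrArg₂ (· + ·) ?_ ?_
  · refine sum_congr rfl fun k _ => sum_congr rfl fun n _ => ?_
    unfold wk
    split_ifs <;> simp
  · refine sum_congr rfl fun k _ => sum_congr rfl fun n _ => ?_
    unfold wk'
    split_ifs <;> simp

lemma Eir_comm (I J K : Finset ℕ) (f : ℕ → ℕ → ℕ → ℂ) :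
    ∑ a ∈ I, ∑ c ∈ J, ∑ k ∈ K, f a c k = ∑ k ∈ K, ∑ a ∈ I, ∑ c ∈ J, f a c k := by
  have h1 : ∀ a ∈ I, ∑ c ∈ J, ∑ k ∈ K, f a c k = ∑ k ∈ K, ∑ c ∈ J, f a c k := fun a _ => sum_comm
  rw [sum_congr rfl h1, sum_comm]

open Classical in
theorem tEir (h1 : MI.DspnStmt) : EirStmt := by
  intro z z1 A b R S M N P β c hP hz hz1 hR
  have key : ∑ r ∈ Ioc R (2 * R), ∑ s1 ∈ Ioc S (2 * S), ∑ s2 ∈ Ioc S (2 * S), ∑ n1 ∈ Ioc N (2 * N),
      ∑ n2 ∈ Ioc N (2 * N), (if Inc A P z1 r s1 s2 then c (r, s1) * (starRingEnd ℂ) (c (r, s2)) *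
        (β n1 * (starRingEnd ℂ) (β n2)) * Pf (A r s1) (A r s2) M (r * s1) (r * s2) n1 n2 else 0) =
      ∑ e ∈ (Icc 1 S).filter (fun e : ℕ => z < e ∧ (e : ℝ) ≤ z1),
        (∑ k ∈ range (N / R + 1), Se A P c (wk β N k) R S M N e k +
          ∑ k ∈ Icc 1 (N / R), Se A P (fun u => (starRingEnd ℂ) (c u)) (wk' β N k) R S M N e k) := by
    have step : ∀ r ∈ Ioc R (2 * R), (∑ s1 ∈ Ioc S (2 * S), ∑ s2 ∈ Ioc S (2 * S), ∑ n1 ∈ Ioc N (2 * N),
        ∑ n2 ∈ Ioc N (2 * N), (if Inc A P z1 r s1 s2 then c (r, s1) * (starRingEnd ℂ) (c (r, s2)) *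
        (β n1 * (starRingEnd ℂ) (β n2)) * Pf (A r s1) (A r s2) M (r * s1) (r * s2) n1 n2 else 0)) =
        ∑ e ∈ (Icc 1 S).filter (fun e : ℕ => z < e ∧ (e : ℝ) ≤ z1),
        (∑ k ∈ range (N / R + 1), (∑ g1 ∈ Ioc (S / e) (2 * (S / e)), ∑ g2 ∈ Ioc (S / e) (2 * (S / e)),
            ∑ n ∈ Ioc N (2 * N), if InE A P e r g1 g2 then c (r, e * g1) * (starRingEnd ℂ) (c (r, e * g2)) *
              wk β N k r n * Pf (A r (e * g1)) (A r (e * g2)) M (r * (e * g1)) (r * (e * g2)) n (n + k * r)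
            else 0) +
          ∑ k ∈ Icc 1 (N / R), (∑ g1 ∈ Ioc (S / e) (2 * (S / e)), ∑ g2 ∈ Ioc (S / e) (2 * (S / e)),
            ∑ n ∈ Ioc N (2 * N), if InE A P e r g1 g2 then (starRingEnd ℂ) (c (r, e * g1)) *
              (starRingEnd ℂ) ((starRingEnd ℂ) (c (r, e * g2))) *
              wk' β N k r n * Pf (A r (e * g1)) (A r (e * g2)) M (r * (e * g1)) (r * (e * g2)) n (n + k * r)
            else 0)) := by
      intro r hr
      rw [mem_Ioc] at hr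
      have e1 : ∀ s1 ∈ Ioc S (2 * S), ∀ s2 ∈ Ioc S (2 * S), (∑ n1 ∈ Ioc N (2 * N), ∑ n2 ∈ Ioc N (2 * N),
          (if Inc A P z1 r s1 s2 then c (r, s1) * (starRingEnd ℂ) (c (r, s2)) *
          (β n1 * (starRingEnd ℂ) (β n2)) * Pf (A r s1) (A r s2) M (r * s1) (r * s2) n1 n2 else 0)) =
          if Inc A P z1 r s1 s2 then (∑ n1 ∈ Ioc N (2 * N), ∑ n2 ∈ Ioc N (2 * N),
            c (r, s1) * (starRingEnd ℂ) (c (r, s2)) *
          (β n1 * (starRingEnd ℂ) (β n2)) * Pf (A r s1) (A r s2) M (r * s1) (r * s2) n1 n2) else 0 := by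
        intro s1 _ s2 _
        by_cases hI : Inc A P z1 r s1 s2
        · simp only [if_pos hI]
        · simp only [if_neg hI, sum_const_zero]
      rw [sum_congr rfl fun s1 hs1 => sum_congr rfl fun s2 hs2 => e1 s1 hs1 s2 hs2,
        Eir_pairs hP hz hz1 r (fun s1 s2 => ∑ n1 ∈ Ioc N (2 * N), ∑ n2 ∈ Ioc N (2 * N),
            c (r, s1) * (starRingEnd ℂ) (c (r, s2)) *
          (β n1 * (starRingEnd ℂ) (β n2)) * Pf (A r s1) (A r s2) M (r * s1) (r * s2) n1 n2)]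
      refine sum_congr rfl fun e _ => ?_
      have e2 : ∀ g1 ∈ Ioc (S / e) (2 * (S / e)), ∀ g2 ∈ Ioc (S / e) (2 * (S / e)),
          (if InE A P e r g1 g2 then (∑ n1 ∈ Ioc N (2 * N), ∑ n2 ∈ Ioc N (2 * N),
            c (r, e * g1) * (starRingEnd ℂ) (c (r, e * g2)) * (β n1 * (starRingEnd ℂ) (β n2)) *
            Pf (A r (e * g1)) (A r (e * g2)) M (r * (e * g1)) (r * (e * g2)) n1 n2) else 0) =
          ∑ k ∈ range (N / R + 1), (∑ n ∈ Ioc N (2 * N), if InE A P e r g1 g2 then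
            c (r, e * g1) * (starRingEnd ℂ) (c (r, e * g2)) * wk β N k r n *
            Pf (A r (e * g1)) (A r (e * g2)) M (r * (e * g1)) (r * (e * g2)) n (n + k * r) else 0) +
          ∑ k ∈ Icc 1 (N / R), (∑ n ∈ Ioc N (2 * N), if InE A P e r g2 g1 then
            (starRingEnd ℂ) (c (r, e * g2)) * (starRingEnd ℂ) ((starRingEnd ℂ) (c (r, e * g1))) *
            wk' β N k r n *
            Pf (A r (e * g2)) (A r (e * g1)) M (r * (e * g2)) (r * (e * g1)) n (n + k * r) else 0) := by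
        intro g1 _ g2 _
        by_cases hI : InE A P e r g1 g2
        · have hI' := Eir_InE_symm hI
          simp only [if_pos hI, if_pos hI']
          rw [Eir_n h1 hP hR hr.1 hI.1 hI.2.1 M N β]
          refine congrArg₂ (· + ·) rfl ?_
          refine sum_congr rfl fun k _ => sum_congr rfl fun n _ => ?_
          have hPf : Pf (A r (e * g1)) (A r (e * g2)) M (r * (e * g1)) (r * (e * g2)) (n + k * r) n =
              Pf (A r (e * g2)) (A r (e * g1)) M (r * (e * g2)) (r * (e * g1)) n (n + k * r) := by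
            unfold Pf
            refine congrArg (Ten M) (funext fun m => mul_comm _ _)
          rw [hPf, Complex.conj_conj]
          ring
        · have hI' : ¬ InE A P e r g2 g1 := fun h => hI (Eir_InE_symm h)
          simp only [if_neg hI, if_neg hI', sum_const_zero, add_zero]
      rw [sum_congr rfl fun g1 hg1 => sum_congr rfl fun g2 hg2 => e2 g1 hg1 g2 hg2]
      simp only [sum_add_distrib]
      refine congrArg₂ (· + ·) (Eir_comm _ _ _ _) ?_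
      rw [Eir_comm]
      refine sum_congr rfl fun k _ => ?_
      rw [sum_comm]
    rw [sum_congr rfl step, sum_comm]
    refine sum_congr rfl fun e _ => ?_
    rw [sum_add_distrib]
    refine congrArg₂ (· + ·) ?_ ?_
    · rw [sum_comm]
      rfl
    · rw [sum_comm]
      rfl
  rw [key]
  refine (norm_sum_le _ _).trans (sum_le_sum fun e _ => ?_)
  exact (norm_add_le _ _).trans (add_le_add (norm_sum_le _ _) (norm_sum_le _ _))

end Pool.Agent.Lib.MS
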