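import Pool.Agent.Lib.MS.SpecD

/-!
MP_00e23e_nt, THEOREM MI (version 9, architect helper34), module Eis: the pairs with Inc.
-/

namespace Pool.Agent.Lib.MS

open Finset Pool.Agent.Lib.EH3 Pool.Agent.Lib.TB Pool.Agent.Results.MP_00e23e_nt Pool.Agent.Lib.MI

/-- the harmonic sum -/
private lemma Eis_sum1 (S : ℕ) (F : Finset ℕ) (hF : F ⊆ Icc 1 S) :
    ∑ e ∈ F, 1 / (e : ℝ) ≤ 1 + Real.log S := by
  have h1 : ∑ e ∈ F, 1 / (e : ℝ) ≤ ∑ e ∈ Icc 1 S, 1 / (e : ℝ) :=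
    sum_le_sum_of_subset_of_nonneg hF fun e _ _ => by positivity
  have h2 : ((harmonic S : ℚ) : ℝ) ≤ 1 + Real.log S := harmonic_le_one_add_log S
  rw [harmonic_eq_sum_Icc] at h2
  push_cast at h2
  have h3 : ∑ e ∈ Icc 1 S, 1 / (e : ℝ) = ∑ e ∈ Icc 1 S, ((e : ℝ))⁻¹ :=
    sum_congr rfl fun e _ => one_div _
  linarith

/-- the sum of 1/e^2 -/
private lemma Eis_sum2 (S : ℕ) (z : ℝ) (hz : 1 ≤ z) (F : Finset ℕ) (hF : ∀ e ∈ F, e ≤ S ∧ z < e) :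
    ∑ e ∈ F, 1 / (e : ℝ) ^ 2 ≤ 2 / z := by
  have hz0 : (0 : ℝ) < z := by linarith
  set m := ⌊z⌋₊ with hm
  have hm1 : 1 ≤ m := Nat.le_floor (by simpa using hz)
  have hmz : z < (m : ℝ) + 1 := Nat.lt_floor_add_one z
  have hm1' : (1 : ℝ) ≤ m := by exact_mod_cast hm1
  have hsub : F ⊆ Ioc m S := by
    intro e he
    obtain ⟨h1, h2⟩ := hF e he
    rw [mem_Ioc]
    refine ⟨?_, h1⟩
    exact (Nat.floor_lt hz0.le).mpr h2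
  have h1 : ∑ e ∈ F, 1 / (e : ℝ) ^ 2 ≤ ∑ e ∈ Ioc m S, 1 / (e : ℝ) ^ 2 :=
    sum_le_sum_of_subset_of_nonneg hsub fun e _ _ => by positivity
  have h4 : (m : ℝ)⁻¹ ≤ 2 / z := by
    rw [inv_eq_one_div, div_le_div_iff₀ (by linarith) hz0]
    linarith
  rcases le_or_gt m S with h | h
  · have h2 : ∑ e ∈ Ioc m S, ((e : ℝ) ^ 2)⁻¹ ≤ (m : ℝ)⁻¹ - (S : ℝ)⁻¹ :=
      sum_Ioc_inv_sq_le_sub (by omega) h
    have h3 : ∑ e ∈ Ioc m S, 1 / (e : ℝ) ^ 2 = ∑ e ∈ Ioc m S, ((e : ℝ) ^ 2)⁻¹ :=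
      sum_congr rfl fun e _ => one_div _
    have h5 : (0 : ℝ) ≤ (S : ℝ)⁻¹ := by positivity
    linarith
  · rw [Ioc_eq_empty (by omega), sum_empty] at h1
    have : (0 : ℝ) ≤ 2 / z := by positivity
    linarith

private lemma Eis_sum4 (S : ℕ) (z : ℝ) (hz : 1 ≤ z) (F : Finset ℕ) (hF : ∀ e ∈ F, e ≤ S ∧ z < e) :
    ∑ e ∈ F, 1 / (e : ℝ) ^ 4 ≤ 2 := by
  have h1 := Eis_sum2 S z hz F hF
  have h2 : 2 / z ≤ 2 := by
    rw [div_le_iff₀ (by linarith)]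
    linarith
  have h3 : ∑ e ∈ F, 1 / (e : ℝ) ^ 4 ≤ ∑ e ∈ F, 1 / (e : ℝ) ^ 2 := by
    refine sum_le_sum fun e he => ?_
    have he1 : (1 : ℝ) ≤ e := by
      have := (hF e he).2
      linarith
    exact one_div_le_one_div_of_le (by positivity) (pow_le_pow_right₀ he1 (by norm_num))
  linarith

/-- the weights have norm at most 1 -/
private lemma Eis_wk (β : ℕ → ℂ) (hβ : ∀ n, ‖β n‖ ≤ 1) (N k r n : ℕ) : ‖wk β N k r n‖ ≤ 1 := by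
  unfold wk
  split_ifs
  · rw [norm_mul, RCLike.norm_conj]
    exact mul_le_one₀ (hβ _) (norm_nonneg _) (hβ _)
  · simp

private lemma Eis_wk' (β : ℕ → ℂ) (hβ : ∀ n, ‖β n‖ ≤ 1) (N k r n : ℕ) : ‖wk' β N k r n‖ ≤ 1 := by
  unfold wk'
  split_ifs
  · rw [norm_mul, RCLike.norm_conj]
    exact mul_le_one₀ (hβ _) (norm_nonneg _) (hβ _)
  · simp

/-- the number of k -/
private lemma Eis_cnt (N R : ℕ) (hR : 1 ≤ R) (hRN : R ≤ N) (D : ℝ) (hD : 0 ≤ D) (f g : ℕ → ℝ)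
    (hf : ∀ k, f k ≤ D) (hg : ∀ k, g k ≤ D) :
    ∑ k ∈ range (N / R + 1), f k + ∑ k ∈ Icc 1 (N / R), g k ≤ 4 * N / R * D := by
  have h1 : ∑ k ∈ range (N / R + 1), f k ≤ ((N / R + 1 : ℕ) : ℝ) * D := by
    have := sum_le_card_nsmul (range (N / R + 1)) f D fun k _ => hf k
    rwa [card_range, nsmul_eq_mul] at this
  have h2 : ∑ k ∈ Icc 1 (N / R), g k ≤ ((N / R : ℕ) : ℝ) * D := by
    have := sum_le_card_nsmul (Icc 1 (N / R)) g D fun k _ => hg k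
    rwa [Nat.card_Icc, Nat.add_sub_cancel, nsmul_eq_mul] at this
  have hR0 : (0 : ℝ) < R := by exact_mod_cast hR
  have h3 : ((N / R : ℕ) : ℝ) ≤ (N : ℝ) / R := Nat.cast_div_le
  have h4 : (1 : ℝ) ≤ (N : ℝ) / R := by
    rw [le_div_iff₀ hR0, one_mul]
    exact_mod_cast hRN
  push_cast at h1
  have h5 : 4 * (N : ℝ) / R * D = 4 * ((N : ℝ) / R) * D := by ring
  rw [h5]
  have h6 : (((N / R : ℕ) : ℝ) + 1) * D + ((N / R : ℕ) : ℝ) * D ≤ 4 * ((N : ℝ) / R) * D := by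
    rw [← add_mul]
    exact mul_le_mul_of_nonneg_right (by linarith) hD
  linarith

/-- one common factor e -/
private lemma Eis_one (h2 : EinStmt) (z B' : ℝ) (A : ℕ → ℕ → ℤ) (b : ℕ → ℤ) (a : ℕ → ℕ → ℕ → ℤ)
    (R S M N H e : ℕ) (P : Finset (ℕ × ℕ)) (β : ℕ → ℂ) (c : ℕ × ℕ → ℂ) (hP : Pr A b R S z P)
    (he1 : 1 ≤ e) (he4 : 4 * e ≤ S) (heN : e ≤ N) (heM : e ≤ M) (hR : 1 ≤ R) (hM : 1 ≤ M) (hH : 1 ≤ H)
    (hHR : 2 * H < R) (hRN : R ≤ N) (hB : 0 ≤ B') (ha : CpE P A e a) (hβ : ∀ n, ‖β n‖ ≤ 1)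
    (hc : ∀ u, ‖c u‖ ≤ 1)
    (hyp : ∀ (ρ : ℕ → ℕ → ℕ → ℤ) (k : ℕ) (γ : ℤ → ℕ → ℕ → ℕ → ℂ) (ω : ℕ → ℕ → ℂ),
      Cf (PE P e) R (S / e) (M / e + 1) γ → (∀ r n, ‖ω r n‖ ≤ 1) →
      ‖∑ h ∈ Icc (-(H : ℤ)) H, TE a ρ e h k R (S / e) N (γ h) ω‖ ≤ B' / e) :
    ∑ k ∈ range (N / R + 1), ‖Se A P c (wk β N k) R S M N e k‖ +
        ∑ k ∈ Icc 1 (N / R), ‖Se A P (fun u => (starRingEnd ℂ) (c u)) (wk' β N k) R S M N e k‖ ≤
      4 * N / R * (B' / e + 8 * ((M : ℝ) * N) / (e : ℝ) ^ 2 +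
        64 * ((R : ℝ) ^ 2 * (S : ℝ) ^ 4 * N) / ((M : ℝ) * H * (e : ℝ) ^ 4)) := by
  refine Eis_cnt N R hR hRN _ ?_ _ _ ?_ ?_
  · positivity
  · intro k
    exact h2 z B' A b a R S M N H e k P c (wk β N k) hP he1 he4 heN heM hR hM hH hHR ha hc
      (Eis_wk β hβ N k) fun ρ γ ω hγ hω => hyp ρ k γ ω hγ hω
  · intro k
    refine h2 z B' A b a R S M N H e k P (fun u => (starRingEnd ℂ) (c u)) (wk' β N k) hP he1 he4 heN
      heM hR hM hH hHR ha ?_ (Eis_wk' β hβ N k) fun ρ γ ω hγ hω => hyp ρ k γ ω hγ hω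
    intro u
    rw [RCLike.norm_conj]
    exact hc u

/-- the sum over the common factors -/
private lemma Eis_tot (S : ℕ) (z T B' G1 G2 Q : ℝ) (hz : 1 ≤ z) (hB : 0 ≤ B') (hG1 : 0 ≤ G1)
    (hG2 : 0 ≤ G2) (hQ : 0 ≤ Q) (hT : 1 + Real.log S ≤ T) (F : Finset ℕ)
    (hF : ∀ e ∈ F, 1 ≤ e ∧ e ≤ S ∧ z < e) :
    ∑ e ∈ F, Q * (B' / (e : ℝ) + 8 * G1 / (e : ℝ) ^ 2 + 64 * G2 / (e : ℝ) ^ 4) ≤
      Q * (T * B' + 16 * G1 / z + 128 * G2) := by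
  have e1 : ∑ e ∈ F, Q * (B' / (e : ℝ) + 8 * G1 / (e : ℝ) ^ 2 + 64 * G2 / (e : ℝ) ^ 4) =
      Q * (B' * ∑ e ∈ F, 1 / (e : ℝ) + 8 * G1 * ∑ e ∈ F, 1 / (e : ℝ) ^ 2 +
        64 * G2 * ∑ e ∈ F, 1 / (e : ℝ) ^ 4) := by
    rw [← mul_sum, mul_sum F _ B', mul_sum F _ (8 * G1), mul_sum F _ (64 * G2), ← sum_add_distrib,
      ← sum_add_distrib]
    congr 1
    refine sum_congr rfl fun e _ => ?_
    rw [mul_one_div, mul_one_div, mul_one_div]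
  rw [e1]
  refine mul_le_mul_of_nonneg_left ?_ hQ
  have s1 : ∑ e ∈ F, 1 / (e : ℝ) ≤ T :=
    (Eis_sum1 S F fun e he => mem_Icc.mpr ⟨(hF e he).1, (hF e he).2.1⟩).trans hT
  have s2 := Eis_sum2 S z hz F fun e he => (hF e he).2
  have s4 := Eis_sum4 S z hz F fun e he => (hF e he).2
  have t1 : B' * ∑ e ∈ F, 1 / (e : ℝ) ≤ B' * T := mul_le_mul_of_nonneg_left s1 hB
  have t2 : 8 * G1 * ∑ e ∈ F, 1 / (e : ℝ) ^ 2 ≤ 8 * G1 * (2 / z) :=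
    mul_le_mul_of_nonneg_left s2 (by positivity)
  have t3 : 64 * G2 * ∑ e ∈ F, 1 / (e : ℝ) ^ 4 ≤ 64 * G2 * 2 :=
    mul_le_mul_of_nonneg_left s4 (by positivity)
  have t4 : 8 * G1 * (2 / z) = 16 * G1 / z := by ring
  rw [t4] at t2
  linarith

theorem tEis (h1 : EcqStmt) (h2 : EinStmt) (h3 : EirStmt) : EisStmt := by
  classical
  intro X T z z1 B' A b R S M N H P β c hT hz hz1 hzS hB hR hN hNM hM hH hRN hSN hHR hSX hP hβ hc hyp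
  refine (h3 z z1 A b R S M N P β c hP hz hzS hR).trans ?_
  set F : Finset ℕ := (Icc 1 S).filter (fun e : ℕ => z < e ∧ (e : ℝ) ≤ z1) with hFd
  have hF : ∀ e ∈ F, 1 ≤ e ∧ e ≤ S ∧ z < e ∧ (e : ℝ) ≤ z1 := by
    intro e he
    rw [hFd, mem_filter, mem_Icc] at he
    exact ⟨he.1.1, he.1.2, he.2.1, he.2.2⟩
  have hS1 : 1 ≤ S := by
    have h : (4 : ℝ) ≤ S := by linarith
    have h' : 4 ≤ S := by exact_mod_cast h
    omega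
  have hS0 : (0 : ℝ) < S := by exact_mod_cast hS1
  have hlog : 1 + Real.log S ≤ T := by
    have h := Real.log_le_log hS0 hSX
    have h' := hT.2.1
    linarith
  have hMH : (0 : ℝ) < (M : ℝ) * H := by
    have hM0 : (0 : ℝ) < M := by
      have : 0 < M := by omega
      exact_mod_cast this
    have hH0 : (0 : ℝ) < H := by exact_mod_cast hH
    positivity
  have key : ∀ e ∈ F, (∑ k ∈ range (N / R + 1), ‖Se A P c (wk β N k) R S M N e k‖ +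
        ∑ k ∈ Icc 1 (N / R), ‖Se A P (fun u => (starRingEnd ℂ) (c u)) (wk' β N k) R S M N e k‖) ≤
      4 * N / R * (B' / (e : ℝ) + 8 * ((M : ℝ) * N) / (e : ℝ) ^ 2 +
        64 * (((R : ℝ) ^ 2 * (S : ℝ) ^ 4 * N) / ((M : ℝ) * H)) / (e : ℝ) ^ 4) := by
    intro e he
    obtain ⟨he1, heS, hze, hez⟩ := hF e he
    obtain ⟨a, ha⟩ := h1 A b R S e z P hP he1
    have he4 : 4 * e ≤ S := by
      have h : (4 : ℝ) * e ≤ S := by linarith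
      exact_mod_cast h
    have hq := Eis_one h2 z B' A b a R S M N H e P β c hP he1 he4 (by omega) (by omega) hR (by omega)
      hH hHR hRN hB ha hβ hc fun ρ k γ ω hγ hω => hyp e a ρ hze hez ha k γ ω hγ hω
    have e3 : 64 * ((R : ℝ) ^ 2 * (S : ℝ) ^ 4 * N) / ((M : ℝ) * H * (e : ℝ) ^ 4) =
        64 * (((R : ℝ) ^ 2 * (S : ℝ) ^ 4 * N) / ((M : ℝ) * H)) / (e : ℝ) ^ 4 := by
      rw [← mul_div_assoc, div_div]
    rw [e3] at hq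
    exact hq
  refine (sum_le_sum key).trans ?_
  have hfin := Eis_tot S z T B' ((M : ℝ) * N) (((R : ℝ) ^ 2 * (S : ℝ) ^ 4 * N) / ((M : ℝ) * H))
    (4 * N / R) hz hB (by positivity) (by positivity) (by positivity) hlog F
    fun e he => ⟨(hF e he).1, (hF e he).2.1, (hF e he).2.2.1⟩
  refine hfin.trans (le_of_eq ?_)
  rw [mul_div_assoc 128]

end Pool.Agent.Lib.MS
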