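import Pool.Agent.Lib.MS.SpecD

/-!
MP_00e23e_nt, THEOREM MI, version 9, chapter D: one tuple (helper25)
-/

namespace Pool.Agent.Lib.MS

open Finset Pool.Agent.Lib.EH3 Pool.Agent.Lib.TB Pool.Agent.Results.MP_00e23e_nt Pool.Agent.Lib.MI

private theorem Eit_Ten_zero (M : ℕ) (F : ℕ → ℂ) (h : ∀ m, F m = 0) : Ten M F = 0 := by
  unfold Ten
  rw [Finset.sum_eq_zero fun i _ => Finset.sum_eq_zero fun j _ => h _, mul_zero]

private theorem Eit_K {A : ℕ → ℕ → ℤ} {b : ℕ → ℤ} {R S H e : ℕ} {z : ℝ} {P : Finset (ℕ × ℕ)}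
    (hP : Pr A b R S z P) (hR : 2 * H < R) {r g1 g2 : ℕ} (hI : InE A P e r g1 g2) :
    2 * H < r * g1 * g2 * e := by
  obtain ⟨h1, h2, _, _⟩ := hI
  obtain ⟨h3, _, _, _, h4, _⟩ := hP.1.1 _ h1
  obtain ⟨_, _, _, _, h5, _⟩ := hP.1.1 _ h2
  have h4' : r * (e * g1) ≠ 0 := h4.ne_zero
  have h5' : r * (e * g2) ≠ 0 := h5.ne_zero
  have h3' : R < r := h3
  have e0 : 0 < e := Nat.pos_of_ne_zero fun h => h4' (by rw [h, zero_mul, mul_zero])
  have g10 : 0 < g1 := Nat.pos_of_ne_zero fun h => h4' (by rw [h, mul_zero, mul_zero])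
  have g20 : 0 < g2 := Nat.pos_of_ne_zero fun h => h5' (by rw [h, mul_zero, mul_zero])
  have h6 : r ≤ r * g1 * g2 * e := by
    calc r ≤ r * (g1 * g2 * e) := Nat.le_mul_of_pos_right r (by positivity)
      _ = r * g1 * g2 * e := by ring
  omega

theorem tEit (h1 : EfoStmt) (h2 : EphStmt) : EitStmt := by
  intro A b a R S M H e k z P hP he hC hM hH hR
  obtain ⟨ρ, μ, h⟩ := h2 A b a R S e k z P hP he hC
  refine ⟨ρ, μ, fun r g1 g2 n hI => ⟨fun hN => ?_, fun hN => ?_⟩⟩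
  · obtain ⟨ν, h3, h4⟩ := (h r g1 g2 n hI).1 hN
    have h5 : Pf (A r (e * g1)) (A r (e * g2)) M (r * (e * g1)) (r * (e * g2)) n (n + k * r) =
        Ten M (fun m => dl ν (r * g1 * g2 * e) m) := by
      unfold Pf
      exact congrArg (Ten M) (funext h3)
    have h6 := h1 ν M H (r * g1 * g2 * e) hM hH (Eit_K hP hR hI)
    have h7 : ∑ h ∈ Icc (-(H : ℤ)) H, Ten M (fun m => en (h * m) (r * g1 * g2 * e)) *
          (fz (a r g1 g2) h r g1 g2 n (n + k * r) *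
            en (-(h * μ r g1 g2 * (iv (r * g1 * g2) e : ℤ))) e) =
        ∑ h ∈ Icc (-(H : ℤ)) H, Ten M (fun m => en (h * m) (r * g1 * g2 * e)) *
          en (-(h * ν)) (r * g1 * g2 * e) :=
      Finset.sum_congr rfl fun h _ => by rw [h4 h]
    rw [h5, h7]
    refine h6.trans (le_of_eq ?_)
    push_cast
    ring
  · unfold Pf
    exact Eit_Ten_zero M _ ((h r g1 g2 n hI).2 hN)

end Pool.Agent.Lib.MS
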