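import Pool.Agent.Lib.MS.SpecD

/-!
MP_00e23e_nt, directory Lib/MS, chapter D, module Eph (helper50): the classes ρ, μ, ν and the phase.
-/

namespace Pool.Agent.Lib.MS

open Finset Pool.Agent.Lib.EH3 Pool.Agent.Lib.TB Pool.Agent.Results.MP_00e23e_nt Pool.Agent.Lib.MI

private lemma Eph_cop {A x y q : ℤ} (hA : IsCoprime A q) (h : q ∣ x * y - A) :
    IsCoprime x q ∧ IsCoprime y q := by
  obtain ⟨t, ht⟩ := h
  have h1 : x * y = A + q * t := by linarith
  have h2 : IsCoprime (x * y) q := by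
    rw [h1]
    exact IsCoprime.add_mul_left_left hA t
  exact ⟨IsCoprime.of_mul_left_left h2, IsCoprime.of_mul_left_right h2⟩

private lemma Eph_unit {x : ℤ} {e : ℕ} (h : ∀ p : ℕ, p.Prime → p ∣ e → ¬ (p : ℤ) ∣ x) : IsCoprime x (e : ℤ) := by
  rw [Int.isCoprime_iff_gcd_eq_one]
  by_contra hne
  obtain ⟨p, hp, hpd⟩ := Nat.exists_prime_and_dvd hne
  have h1 : (p : ℤ) ∣ ((Int.gcd x (e : ℤ) : ℕ) : ℤ) := Int.natCast_dvd_natCast.2 hpd
  have h2 : (p : ℤ) ∣ x := h1.trans (Int.gcd_dvd_left _ _)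
  have h3 : (p : ℤ) ∣ (e : ℤ) := h1.trans (Int.gcd_dvd_right _ _)
  exact h p hp (Int.natCast_dvd_natCast.1 h3) h2

/-- one divisor: x is the class of m -/
private lemma Eph_one {q n m A x : ℤ} (hn : IsCoprime n q) (hx : q ∣ x * n - A) :
    q ∣ m * n - A ↔ q ∣ m - x := by
  have e : m * n - A = (m - x) * n + (x * n - A) := by ring
  constructor
  · intro h
    have h1 : q ∣ (m - x) * n := by
      have e1 : (m - x) * n = (m * n - A) - (x * n - A) := by ring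
      rw [e1]
      exact dvd_sub h hx
    exact hn.symm.dvd_of_dvd_mul_right h1
  · intro h
    rw [e]
    exact dvd_add (dvd_mul_of_dvd_left h _) hx

/-- part (1) for integers: R, G1, G2, E pairwise coprime, kr = k r, N2 = n + k r -/
private lemma Eph_main {R G1 G2 E A1 A2 a y w K n : ℤ} (hRG1 : IsCoprime R G1) (hRG2 : IsCoprime R G2)
    (hG : IsCoprime G1 G2) (hER : IsCoprime E R) (hEG1 : IsCoprime E G1) (hEG2 : IsCoprime E G2)
    (hA1 : IsCoprime A1 E) (hA2 : IsCoprime A2 E)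
    (ha1 : R * G1 ∣ E * a - A1) (ha2 : R * G2 ∣ E * a - A2) (hy : E ∣ (A2 - A1) * y - 1)
    (hw : E ∣ w * K - 1) (hρ : E ∣ n - A1 * K * y) (hn1 : IsCoprime n (R * G1))
    (hn2 : IsCoprime (n + K) (R * G2)) {ν0 ν : ℤ} (hν1 : R * G1 ∣ ν0 * n - a) (hν2 : R * G2 ∣ ν0 * (n + K) - a)
    (hν3 : R * G1 * G2 ∣ ν - E * ν0) (hν4 : E ∣ ν - (A2 - A1) * w) (m : ℤ) :
    (R * (E * G1) ∣ m * n - A1 ∧ R * (E * G2) ∣ m * (n + K) - A2) ↔ R * G1 * G2 * E ∣ m - ν := by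
  have hμ1 : E ∣ ((A2 - A1) * w) * n - A1 := by
    have e : ((A2 - A1) * w) * n - A1 = ((A2 - A1) * w) * (n - A1 * K * y) +
        A1 * ((w * K - 1) * ((A2 - A1) * y) + ((A2 - A1) * y - 1)) := by ring
    rw [e]
    exact dvd_add (dvd_mul_of_dvd_right hρ _)
      (dvd_mul_of_dvd_right (dvd_add (dvd_mul_of_dvd_left hw _) hy) _)
  have hμ2 : E ∣ ((A2 - A1) * w) * (n + K) - A2 := by
    have e : ((A2 - A1) * w) * (n + K) - A2 = (((A2 - A1) * w) * n - A1) + (A2 - A1) * (w * K - 1) := by ring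
    rw [e]
    exact dvd_add hμ1 (dvd_mul_of_dvd_right hw _)
  have hnE : IsCoprime n E := (Eph_cop hA1 hμ1).2
  have hn2E : IsCoprime (n + K) E := (Eph_cop hA2 hμ2).2
  have hx1 : R * G1 ∣ (E * ν0) * n - A1 := by
    have e : (E * ν0) * n - A1 = E * (ν0 * n - a) + (E * a - A1) := by ring
    rw [e]
    exact dvd_add (dvd_mul_of_dvd_right hν1 _) ha1
  have hx2 : R * G2 ∣ (E * ν0) * (n + K) - A2 := by
    have e : (E * ν0) * (n + K) - A2 = E * (ν0 * (n + K) - a) + (E * a - A2) := by ring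
    rw [e]
    exact dvd_add (dvd_mul_of_dvd_right hν2 _) ha2
  have c1 : IsCoprime (R * G1) E := IsCoprime.mul_left hER.symm hEG1.symm
  have c2 : IsCoprime (R * G2) E := IsCoprime.mul_left hER.symm hEG2.symm
  have c3 : IsCoprime (R * G1) G2 := IsCoprime.mul_left hRG2 hG
  have c4 : IsCoprime (R * G1 * G2) E := IsCoprime.mul_left c1 hEG2.symm
  have s1 : R * (E * G1) ∣ m * n - A1 ↔ (R * G1 ∣ m - E * ν0 ∧ E ∣ m - (A2 - A1) * w) := by
    have e : R * (E * G1) = R * G1 * E := by ring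
    rw [e, ← Eph_one hn1 hx1, ← Eph_one hnE hμ1]
    exact ⟨fun h => ⟨(dvd_mul_right _ _).trans h, (dvd_mul_left _ _).trans h⟩, fun h => c1.mul_dvd h.1 h.2⟩
  have s2 : R * (E * G2) ∣ m * (n + K) - A2 ↔ (R * G2 ∣ m - E * ν0 ∧ E ∣ m - (A2 - A1) * w) := by
    have e : R * (E * G2) = R * G2 * E := by ring
    rw [e, ← Eph_one hn2 hx2, ← Eph_one hn2E hμ2]
    exact ⟨fun h => ⟨(dvd_mul_right _ _).trans h, (dvd_mul_left _ _).trans h⟩, fun h => c2.mul_dvd h.1 h.2⟩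
  rw [s1, s2]
  constructor
  · rintro ⟨⟨h1, h2⟩, h3, _⟩
    have h4 : R * G1 * G2 ∣ m - E * ν0 := c3.mul_dvd h1 ((dvd_mul_left _ _).trans h3)
    apply c4.mul_dvd
    · have e : m - ν = (m - E * ν0) - (ν - E * ν0) := by ring
      rw [e]
      exact dvd_sub h4 hν3
    · have e : m - ν = (m - (A2 - A1) * w) - (ν - (A2 - A1) * w) := by ring
      rw [e]
      exact dvd_sub h2 hν4
  · intro h
    have h4 : R * G1 * G2 ∣ m - E * ν0 := by
      have e : m - E * ν0 = (m - ν) + (ν - E * ν0) := by ring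
      rw [e]
      exact dvd_add ((dvd_mul_right _ _).trans h) hν3
    have h5 : E ∣ m - (A2 - A1) * w := by
      have e : m - (A2 - A1) * w = (m - ν) + (ν - (A2 - A1) * w) := by ring
      rw [e]
      exact dvd_add ((dvd_mul_left _ _).trans h) hν4
    refine ⟨⟨(dvd_mul_right _ _).trans h4, h5⟩, ?_, h5⟩
    have e : R * G1 * G2 = R * G2 * G1 := by ring
    rw [e] at h4
    exact (dvd_mul_right _ _).trans h4

private lemma Eph_copnat {a b : ℕ} (h : IsCoprime (a : ℤ) (b : ℤ)) : a.Coprime b := Nat.isCoprime_iff_coprime.1 h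

theorem tEph (h1 : MI.DphStmt) : EphStmt := by
  intro A b a R S e k z P hP he ha
  have hY : ∀ r g1 g2 : ℕ, ∃ y : ℤ, InE A P e r g1 g2 →
      (e : ℤ) ∣ (A r (e * g2) - A r (e * g1)) * y - 1 := by
    intro r g1 g2
    by_cases hI : InE A P e r g1 g2
    · have hc : IsCoprime (A r (e * g1) - A r (e * g2)) (e : ℤ) := Eph_unit hI.2.2.2
      obtain ⟨u, v, huv⟩ := hc
      refine ⟨-u, fun _ => ?_⟩
      have e1 : (A r (e * g2) - A r (e * g1)) * (-u) - 1 = (e : ℤ) * (-v) := by linarith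
      rw [e1]
      exact dvd_mul_right _ _
    · exact ⟨0, fun h => absurd h hI⟩
  choose Y hY using hY
  refine ⟨fun r g1 g2 => A r (e * g1) * ((k * r : ℕ) : ℤ) * Y r g1 g2,
    fun r g1 g2 => (A r (e * g2) - A r (e * g1)) * (iv (k * r) e : ℤ), ?_⟩
  intro r g1 g2 n hI
  have hy := hY r g1 g2 hI
  obtain ⟨hm1, hm2, hg, hpr⟩ := hI
  obtain ⟨⟨hPa, _⟩, _⟩ := hP
  obtain ⟨_, _, _, _, hsq1, hA1, hb1, _⟩ := hPa _ hm1
  obtain ⟨_, _, _, _, hsq2, hA2, hb2, _⟩ := hPa _ hm2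
  simp only at hsq1 hA1 hb1 hsq2 hA2 hb2
  obtain ⟨ha1, ha2⟩ := ha r g1 g2 hm1 hm2 hg
  push_cast at ha1 ha2
  have hunit : IsCoprime (A r (e * g1) - A r (e * g2)) (e : ℤ) := Eph_unit hpr
  obtain ⟨hc1, _, hs1⟩ := Nat.squarefree_mul_iff.1 hsq1
  obtain ⟨hc2, _, hs2⟩ := Nat.squarefree_mul_iff.1 hsq2
  obtain ⟨hc3, _, _⟩ := Nat.squarefree_mul_iff.1 hs1
  obtain ⟨hc4, _, _⟩ := Nat.squarefree_mul_iff.1 hs2
  have hRG1 : IsCoprime (r : ℤ) (g1 : ℤ) := Nat.isCoprime_iff_coprime.2 (hc1.coprime_dvd_right (dvd_mul_left _ _))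
  have hRG2 : IsCoprime (r : ℤ) (g2 : ℤ) := Nat.isCoprime_iff_coprime.2 (hc2.coprime_dvd_right (dvd_mul_left _ _))
  have hG : IsCoprime (g1 : ℤ) (g2 : ℤ) := Nat.isCoprime_iff_coprime.2 hg
  have hER : IsCoprime (e : ℤ) (r : ℤ) :=
    (Nat.isCoprime_iff_coprime.2 (hc1.coprime_dvd_right (dvd_mul_right _ _))).symm
  have hEG1 : IsCoprime (e : ℤ) (g1 : ℤ) := Nat.isCoprime_iff_coprime.2 hc3
  have hEG2 : IsCoprime (e : ℤ) (g2 : ℤ) := Nat.isCoprime_iff_coprime.2 hc4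
  have hB1 : IsCoprime (A r (e * g1)) ((r : ℤ) * ((e : ℤ) * g1)) := by
    rw [Int.isCoprime_iff_gcd_eq_one, ← hA1]
    push_cast
    rfl
  have hB2 : IsCoprime (A r (e * g2)) ((r : ℤ) * ((e : ℤ) * g2)) := by
    rw [Int.isCoprime_iff_gcd_eq_one, ← hA2]
    push_cast
    rfl
  have hB1E : IsCoprime (A r (e * g1)) (e : ℤ) := (IsCoprime.of_mul_right_left (IsCoprime.of_mul_right_right hB1))
  have hB2E : IsCoprime (A r (e * g2)) (e : ℤ) := (IsCoprime.of_mul_right_left (IsCoprime.of_mul_right_right hB2))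
  have hQpos : 1 ≤ r * g1 * g2 := by
    have p1 : r * (e * g1) ≠ 0 := hsq1.ne_zero
    have p2 : r * (e * g2) ≠ 0 := hsq2.ne_zero
    have q1 : r ≠ 0 := fun h => p1 (by rw [h]; ring)
    have q2 : g1 ≠ 0 := fun h => p1 (by rw [h]; ring)
    have q3 : g2 ≠ 0 := fun h => p2 (by rw [h]; ring)
    exact Nat.one_le_iff_ne_zero.2 (mul_ne_zero (mul_ne_zero q1 q2) q3)
  constructor
  · rintro ⟨hkr, hGd, hρ⟩
    have hGdC : GdC (a r g1 g2) r g1 g2 n (n + k * r) := by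
      refine ⟨hGd, ?_⟩
      push_cast
      have e1 : (n : ℤ) + (k : ℤ) * r - n = (r : ℤ) * k := by ring
      rw [e1]
      exact dvd_mul_right _ _
    obtain ⟨ν0, hν1, hν2, hν3⟩ := h1 (a r g1 g2) r g1 g2 n (n + k * r) hGdC
    obtain ⟨_, _, _, hn1, hn2, _, _⟩ := hGd
    have hQE : (r * g1 * g2).Coprime e := by
      apply Eph_copnat
      push_cast
      exact IsCoprime.mul_left (IsCoprime.mul_left hER.symm hEG1.symm) hEG2.symm
    have i1 : ((r * g1 * g2 : ℕ) : ℤ) ∣ (iv e (r * g1 * g2) : ℤ) * e - 1 := iv_dvd hQE.symm hQpos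
    have i2 : (e : ℤ) ∣ (iv (r * g1 * g2) e : ℤ) * ((r * g1 * g2 : ℕ) : ℤ) - 1 := iv_dvd hQE he
    obtain ⟨μ, hμ⟩ : ∃ μ : ℤ, μ = (A r (e * g2) - A r (e * g1)) * (iv (k * r) e : ℤ) := ⟨_, rfl⟩
    obtain ⟨ν, hν⟩ : ∃ ν : ℤ, ν = (e : ℤ) * ν0 * ((iv e (r * g1 * g2) : ℤ) * e) +
        μ * ((iv (r * g1 * g2) e : ℤ) * ((r * g1 * g2 : ℕ) : ℤ)) := ⟨_, rfl⟩
    have hνQ : ((r * g1 * g2 : ℕ) : ℤ) ∣ ν - e * ν0 := by
      have e1 : ν - e * ν0 = (e * ν0) * ((iv e (r * g1 * g2) : ℤ) * e - 1) +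
          ((r * g1 * g2 : ℕ) : ℤ) * (μ * (iv (r * g1 * g2) e : ℤ)) := by
        rw [hν]
        ring
      rw [e1]
      exact dvd_add (dvd_mul_of_dvd_right i1 _) (dvd_mul_right _ _)
    have hνE : (e : ℤ) ∣ ν - μ := by
      have e1 : ν - μ = μ * ((iv (r * g1 * g2) e : ℤ) * ((r * g1 * g2 : ℕ) : ℤ) - 1) +
          (e : ℤ) * (ν0 * ((iv e (r * g1 * g2) : ℤ) * e)) := by
        rw [hν]
        ring
      rw [e1]
      exact dvd_add (dvd_mul_of_dvd_right i2 _) (dvd_mul_right _ _)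
    refine ⟨ν, ?_, ?_⟩
    · intro m
      have hw : (e : ℤ) ∣ (iv (k * r) e : ℤ) * ((k * r : ℕ) : ℤ) - 1 := iv_dvd hkr he
      have hN1 : IsCoprime (n : ℤ) ((r : ℤ) * g1) := by
        have := Nat.isCoprime_iff_coprime.2 hn1
        push_cast at this
        exact this
      have hN2 : IsCoprime ((n : ℤ) + ((k * r : ℕ) : ℤ)) ((r : ℤ) * g2) := by
        have := Nat.isCoprime_iff_coprime.2 hn2
        push_cast at this
        push_cast
        exact this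
      have hν1' : (r : ℤ) * g1 ∣ ν0 * n - a r g1 g2 := by
        push_cast at hν1
        exact hν1
      have hν2' : (r : ℤ) * g2 ∣ ν0 * ((n : ℤ) + ((k * r : ℕ) : ℤ)) - a r g1 g2 := by
        push_cast at hν2
        push_cast
        exact hν2
      have hνQ' : (r : ℤ) * g1 * g2 ∣ ν - e * ν0 := by
        push_cast at hνQ
        exact hνQ
      rw [hμ] at hνE
      have key := Eph_main hRG1 hRG2 hG hER hEG1 hEG2 hB1E hB2E ha1 ha2 hy hw hρ hN1 hN2 hν1' hν2' hνQ' hνE (m : ℤ)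
      unfold dl
      push_cast
      push_cast at key
      by_cases hk : (r : ℤ) * g1 * g2 * e ∣ (m : ℤ) - ν
      · rw [if_pos hk, if_pos (key.2 hk).1, if_pos (key.2 hk).2, mul_one]
      · rw [if_neg hk]
        by_cases hk1 : (r : ℤ) * ((e : ℤ) * g1) ∣ (m : ℤ) * n - A r (e * g1)
        · have hk2 : ¬ (r : ℤ) * ((e : ℤ) * g2) ∣ (m : ℤ) * (n + k * r) - A r (e * g2) :=
            fun h => hk (key.1 ⟨hk1, h⟩)
          rw [if_neg hk2, mul_zero]
        · rw [if_neg hk1, zero_mul]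
    · intro h
      rw [en_crt hQE hQpos he, ← hν3 h]
      simp only
      rw [← hμ]
      have P1 : en (-(h * ν) * (iv e (r * g1 * g2) : ℤ)) (r * g1 * g2) = en (-(h * ν0)) (r * g1 * g2) := by
        apply en_congr
        have e1 : -(h * ν) * (iv e (r * g1 * g2) : ℤ) - -(h * ν0) =
            (-(h * (iv e (r * g1 * g2) : ℤ))) * (ν - e * ν0) +
              (-(h * ν0)) * ((iv e (r * g1 * g2) : ℤ) * e - 1) := by ring
        rw [e1]
        exact dvd_add (dvd_mul_of_dvd_right hνQ _) (dvd_mul_of_dvd_right i1 _)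
      have P2 : en (-(h * ν) * (iv (r * g1 * g2) e : ℤ)) e = en (-(h * μ * (iv (r * g1 * g2) e : ℤ))) e := by
        apply en_congr
        have e1 : -(h * ν) * (iv (r * g1 * g2) e : ℤ) - -(h * μ * (iv (r * g1 * g2) e : ℤ)) =
            (-(h * (iv (r * g1 * g2) e : ℤ))) * (ν - μ) := by ring
        rw [e1]
        exact dvd_mul_of_dvd_right hνE _
      rw [P1, P2]
  · intro hNc m
    unfold dl
    by_contra hne
    have hk1 : ((r * (e * g1) : ℕ) : ℤ) ∣ ((m * n : ℕ) : ℤ) - A r (e * g1) := by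
      by_contra hcon
      exact hne (by rw [if_neg hcon, zero_mul])
    have hk2 : ((r * (e * g2) : ℕ) : ℤ) ∣ ((m * (n + k * r) : ℕ) : ℤ) - A r (e * g2) := by
      by_contra hcon
      exact hne (by rw [if_neg hcon, mul_zero])
    push_cast at hk1 hk2
    apply hNc
    have hE1 : (e : ℤ) ∣ (m : ℤ) * n - A r (e * g1) :=
      (Dvd.intro _ (by ring : (e : ℤ) * ((r : ℤ) * g1) = (r : ℤ) * ((e : ℤ) * g1))).trans hk1
    have hE2 : (e : ℤ) ∣ (m : ℤ) * (n + k * r) - A r (e * g2) :=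
      (Dvd.intro _ (by ring : (e : ℤ) * ((r : ℤ) * g2) = (r : ℤ) * ((e : ℤ) * g2))).trans hk2
    have hE3 : (e : ℤ) ∣ (m : ℤ) * ((k : ℤ) * r) - (A r (e * g2) - A r (e * g1)) := by
      have e1 : (m : ℤ) * ((k : ℤ) * r) - (A r (e * g2) - A r (e * g1)) =
          ((m : ℤ) * (n + k * r) - A r (e * g2)) - ((m : ℤ) * n - A r (e * g1)) := by ring
      rw [e1]
      exact dvd_sub hE2 hE1
    have hunit' : IsCoprime (A r (e * g2) - A r (e * g1)) (e : ℤ) := by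
      have := hunit.neg_left
      rwa [neg_sub] at this
    have hkr : IsCoprime ((k : ℤ) * r) (e : ℤ) := (Eph_cop hunit' hE3).2
    refine ⟨?_, ?_, ?_⟩
    · apply Eph_copnat
      push_cast
      exact hkr
    · have hR1 : (r : ℤ) * g1 ∣ (r : ℤ) * ((e : ℤ) * g1) := ⟨(e : ℤ), by ring⟩
      have hR2 : (r : ℤ) * g2 ∣ (r : ℤ) * ((e : ℤ) * g2) := ⟨(e : ℤ), by ring⟩
      have hC1 : IsCoprime (A r (e * g1)) ((r : ℤ) * g1) := hB1.of_isCoprime_of_dvd_right hR1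
      have hC2 : IsCoprime (A r (e * g2)) ((r : ℤ) * g2) := hB2.of_isCoprime_of_dvd_right hR2
      have hn1 : IsCoprime (n : ℤ) ((r : ℤ) * g1) := (Eph_cop hC1 (hR1.trans hk1)).2
      have hn2 : IsCoprime ((n : ℤ) + k * r) ((r : ℤ) * g2) := (Eph_cop hC2 (hR2.trans hk2)).2
      have hc1' : IsCoprime (a r g1 g2) ((r : ℤ) * g1) := (Eph_cop hC1 ha1).2
      have hc2' : IsCoprime (a r g1 g2) ((r : ℤ) * g2) := (Eph_cop hC2 ha2).2
      refine ⟨?_, ?_, hg, ?_, ?_, ?_, ?_⟩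
      · exact hsq1.squarefree_of_dvd ⟨e, by ring⟩
      · exact hsq2.squarefree_of_dvd ⟨e, by ring⟩
      · apply Eph_copnat
        push_cast
        exact hn1
      · apply Eph_copnat
        push_cast
        exact hn2
      · have := Int.isCoprime_iff_gcd_eq_one.1 hc1'
        push_cast
        exact this
      · have := Int.isCoprime_iff_gcd_eq_one.1 hc2'
        push_cast
        exact this
    · push_cast
      have e1 : (n : ℤ) - A r (e * g1) * ((k : ℤ) * r) * Y r g1 g2 =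
          (-(n : ℤ)) * ((A r (e * g2) - A r (e * g1)) * Y r g1 g2 - 1) +
          Y r g1 g2 * ((-(n : ℤ)) * ((m : ℤ) * ((k : ℤ) * r) - (A r (e * g2) - A r (e * g1))) +
            ((k : ℤ) * r) * ((m : ℤ) * n - A r (e * g1))) := by ring
      rw [e1]
      exact dvd_add (dvd_mul_of_dvd_right hy _) (dvd_mul_of_dvd_right
        (dvd_add (dvd_mul_of_dvd_right hE3 _) (dvd_mul_of_dvd_right hE1 _)) _)

end Pool.Agent.Lib.MS
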