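import Pool.Agent.Lib.MS.SpecA

/-! MP_00e23e_nt, THEOREM MI, version 9, chapter F, module Fmi (after Lib/MQ/Fmi.lean): the final theorem of the chapter. -/

namespace Pool.Agent.Lib.MS

open Finset Pool.Agent.Lib.EH3 Pool.Agent.Lib.TB Pool.Agent.Results.MP_00e23e_nt Pool.Agent.Lib.MI

private lemma Fmi_count (y : ℝ) (hy : 0 ≤ y) (d : ℕ) (s : ℤ) : (resCount y d s : ℝ) ≤ y := by
  unfold resCount
  have h1 : ((Icc 1 ⌊y⌋₊).filter (fun p : ℕ => p.Prime ∧ (d : ℤ) ∣ (p : ℤ) - s)).card ≤ ⌊y⌋₊ := by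
    refine (card_filter_le _ _).trans ?_
    simp
  have h2 : (((Icc 1 ⌊y⌋₊).filter (fun p : ℕ => p.Prime ∧ (d : ℤ) ∣ (p : ℤ) - s)).card : ℝ) ≤ (⌊y⌋₊ : ℝ) := by
    exact_mod_cast h1
  exact h2.trans (Nat.floor_le hy)

private lemma Fmi_tot {u : ℕ} (hu : 1 ≤ u) : (1 : ℝ) ≤ (u.totient : ℝ) := by
  have : 1 ≤ u.totient := Nat.totient_pos.2 hu
  exact_mod_cast this

private lemma Fmi_div_le {a x : ℝ} {u : ℕ} (hu : 1 ≤ u) (ha : 0 ≤ a) (hx : a ≤ x) :
    a / (u.totient : ℝ) ≤ x :=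
  (div_le_self ha (Fmi_tot hu)).trans hx

private lemma Fmi_split (y : ℝ) (d t : ℕ) (s : ℤ) (hd : Squarefree d) (ht : t ∣ d) :
    resErr y d s = df y d t s + resErr y t s / ((d / t).totient : ℝ) := by
  have hd0 : d ≠ 0 := hd.ne_zero
  have ht0 : 0 < t := Nat.pos_of_dvd_of_pos ht (Nat.pos_of_ne_zero hd0)
  have hu : 1 ≤ d / t := Nat.div_pos (Nat.le_of_dvd (Nat.pos_of_ne_zero hd0) ht) ht0
  have hmul : t * (d / t) = d := Nat.mul_div_cancel' ht
  have hcop : t.Coprime (d / t) := by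
    rw [← hmul] at hd
    exact Nat.coprime_of_squarefree_mul hd
  have htot : (d.totient : ℝ) = (t.totient : ℝ) * ((d / t).totient : ℝ) := by
    conv_lhs => rw [← hmul]
    rw [Nat.totient_mul hcop]
    push_cast
    rfl
  have h1 := Fmi_tot hu
  have h2 := Fmi_tot ht0
  unfold resErr df
  rw [htot]
  have h1' : ((d / t).totient : ℝ) ≠ 0 := by positivity
  have h2' : (t.totient : ℝ) ≠ 0 := by positivity
  field_simp
  ring

private lemma Fmi_log {x η U : ℝ} (hx : 3 ≤ x) (hη : 0 < η) (hU : 0 < U) :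
    x ^ (1 - η) ≤ (U / η) ^ U * (x / (Real.log x) ^ U) := by
  have hx0 : 0 < x := by linarith
  have hl : 0 < Real.log x := Real.log_pos (by linarith)
  have h1 : Real.log x ≤ x ^ (η / U) / (η / U) := Real.log_le_rpow_div hx0.le (by positivity)
  have h2 : (Real.log x) ^ U ≤ (x ^ (η / U) / (η / U)) ^ U :=
    Real.rpow_le_rpow hl.le h1 hU.le
  have h3 : (x ^ (η / U) / (η / U)) ^ U = x ^ η * (U / η) ^ U := by
    have e1 : x ^ (η / U) / (η / U) = x ^ (η / U) * (U / η) := by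
      field_simp
    rw [e1, Real.mul_rpow (by positivity) (by positivity), ← Real.rpow_mul hx0.le]
    congr 2
    field_simp
  rw [h3] at h2
  have hlU : 0 < (Real.log x) ^ U := Real.rpow_pos_of_pos hl U
  have e2 : x ^ (1 - η) = x / x ^ η := by
    rw [Real.rpow_sub hx0, Real.rpow_one]
  rw [e2, mul_div_assoc', div_le_div_iff₀ (by positivity) hlU]
  have h4 := mul_le_mul_of_nonneg_left h2 hx0.le
  nlinarith [h4]

theorem tFmi (h1 : FpsStmt) (h2 : MI.FbvStmt) : FmiStmt := by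
  intro α τ κ σ ω hα hτ0 hτ _ _ hcore κ0 hκ0 hκ0'
  obtain ⟨η, C1, x0, hη, hη1, hC1, hx0, H1⟩ := h1 α τ κ σ ω κ0 hα hτ0 hτ hcore hκ0 hκ0'
  refine ⟨η, hη, fun U hU => ?_⟩
  obtain ⟨C2, hC2, H2⟩ := h2 U hU
  set x2 : ℝ := max x0 16 with hx2
  have hx2a : x0 ≤ x2 := le_max_left _ _
  have hx2b : (16 : ℝ) ≤ x2 := le_max_right _ _
  have hlx2 : 0 < Real.log x2 := Real.log_pos (by linarith)
  set K : ℝ := (U / η) ^ U with hK
  have hK0 : 0 ≤ K := by positivity
  set C : ℝ := C1 + (C1 * K + C2) + 3 * x2 ^ 2 + 3 * x2 ^ 2 * (Real.log x2) ^ U with hC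
  have hp0 : 0 ≤ C1 * K + C2 := by positivity
  have hp1 : 0 ≤ 3 * x2 ^ 2 := by positivity
  have hp2 : 0 ≤ 3 * x2 ^ 2 * (Real.log x2) ^ U := by positivity
  refine ⟨C, fun x s t i v y M hx hcard hy hM hnst => ?_⟩
  have hx0' : 0 < x := by linarith
  have hl : 1 ≤ Real.log x := by
    rw [Real.le_log_iff_exp_le hx0']
    have := Real.exp_one_lt_d9
    linarith
  have hlU : 0 < (Real.log x) ^ U := Real.rpow_pos_of_pos (by linarith) U
  have hx1 : (1 : ℝ) ≤ x ^ (1 - η) := Real.one_le_rpow (by linarith) (by linarith)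
  have hxl0 : 0 ≤ x / (Real.log x) ^ U := by positivity
  -- the moduli
  have hd : ∀ d ∈ M, Squarefree d ∧ t d ∣ d ∧ 1 ≤ d ∧ (d : ℝ) ≤ x ∧ 1 ≤ d / t d := by
    intro d hd
    obtain ⟨⟨h1, h2, h3, -, -⟩, -⟩ := hM d hd
    have hd1 : 1 ≤ d := Nat.one_le_iff_ne_zero.2 h1.ne_zero
    refine ⟨h1, h2, hd1, h3.trans ?_, ?_⟩
    · calc x ^ α ≤ x ^ (1 : ℝ) := Real.rpow_le_rpow_of_exponent_le (by linarith) (by linarith)
        _ = x := Real.rpow_one x
    · exact Nat.div_pos (Nat.le_of_dvd hd1 h2) (Nat.pos_of_dvd_of_pos h2 hd1)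
  have hdf : ∀ d ∈ M, |df (y d) d (t d) (s d)| ≤ x := by
    intro d hdM
    obtain ⟨-, -, -, -, hu⟩ := hd d hdM
    have hy0 : 0 ≤ y d := by linarith [(hy d).1]
    have a1 := Fmi_count (y d) hy0 d (s d)
    have a2 := Fmi_div_le (a := (resCount (y d) (t d) (s d) : ℝ)) (x := x) hu (by positivity)
      ((Fmi_count (y d) hy0 (t d) (s d)).trans (hy d).2)
    have a3 : (0 : ℝ) ≤ (resCount (y d) (t d) (s d) : ℝ) / ((d / t d).totient : ℝ) := by positivity
    have a4 : (0 : ℝ) ≤ (resCount (y d) d (s d) : ℝ) := by positivity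
    unfold df
    rw [abs_le]
    constructor <;> linarith [(hy d).2]
  by_cases hxx : x2 ≤ x
  · have F1 := H1 x s t i v y M (hx2a.trans hxx) hcard hy hM hnst
    have F2 := H2 x s t y M (hx2b.trans hxx) hy (fun d hdM => by
      obtain ⟨h1, h2, h3, h4, -⟩ := hd d hdM
      obtain ⟨⟨-, -, -, h5, -⟩, h6⟩ := hM d hdM
      exact ⟨h3, h2, h4, h5.trans (Real.rpow_le_rpow_of_exponent_le (by linarith) hτ), h6⟩)
    constructor
    · have F3 : ∑ d ∈ M, |(resCount (y d) d (s d) : ℝ) -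
          (resCount (y d) (t d) (s d) : ℝ) / ((d / t d).totient : ℝ)| ≤ C1 * x ^ (1 - η) := F1
      refine F3.trans (mul_le_mul_of_nonneg_right ?_ (by linarith))
      linarith
    · have F4 : ∑ d ∈ M, |resErr (y d) d (s d)| ≤ ∑ d ∈ M, (|df (y d) d (t d) (s d)| +
          |resErr (y d) (t d) (s d)| / ((d / t d).totient : ℝ)) := by
        refine sum_le_sum fun d hdM => ?_
        obtain ⟨h1, h2, -, -, hu⟩ := hd d hdM
        rw [Fmi_split (y d) d (t d) (s d) h1 h2]
        refine (abs_add_le _ _).trans ?_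
        have e1 : |resErr (y d) (t d) (s d) / ((d / t d).totient : ℝ)| =
            |resErr (y d) (t d) (s d)| / ((d / t d).totient : ℝ) := by
          rw [abs_div, abs_of_nonneg (by positivity : (0 : ℝ) ≤ ((d / t d).totient : ℝ))]
        rw [e1]
      rw [sum_add_distrib] at F4
      have F5 := Fmi_log hx hη hU
      have F6 : C1 * x ^ (1 - η) ≤ C1 * (K * (x / (Real.log x) ^ U)) :=
        mul_le_mul_of_nonneg_left F5 hC1
      have F7 : C1 * (K * (x / (Real.log x) ^ U)) + C2 * (x / (Real.log x) ^ U) =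
          (C1 * K + C2) * (x / (Real.log x) ^ U) := by ring
      have F8 : (C1 * K + C2) * (x / (Real.log x) ^ U) ≤ C * (x / (Real.log x) ^ U) :=
        mul_le_mul_of_nonneg_right (by linarith) hxl0
      linarith
  · push Not at hxx
    have hMc : (M.card : ℝ) ≤ x2 := by
      have hsub : M ⊆ Icc 1 ⌊x2⌋₊ := by
        intro d hdM
        obtain ⟨-, -, h3, h4, -⟩ := hd d hdM
        rw [mem_Icc]
        exact ⟨h3, Nat.le_floor (h4.trans hxx.le)⟩
      have h5 : M.card ≤ ⌊x2⌋₊ := by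
        have := card_le_card hsub
        simpa using this
      have h6 : (M.card : ℝ) ≤ (⌊x2⌋₊ : ℝ) := by exact_mod_cast h5
      exact h6.trans (Nat.floor_le (by linarith))
    have hbd : ∀ g : ℕ → ℝ, (∀ d ∈ M, g d ≤ 3 * x) → ∑ d ∈ M, g d ≤ 3 * x2 ^ 2 := by
      intro g hg
      calc ∑ d ∈ M, g d ≤ ∑ _d ∈ M, 3 * x := sum_le_sum hg
        _ = M.card * (3 * x) := by rw [sum_const, nsmul_eq_mul]
        _ ≤ x2 * (3 * x2) := mul_le_mul hMc (by linarith) (by linarith) (by linarith)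
        _ = 3 * x2 ^ 2 := by ring
    constructor
    · have G1 := hbd (fun d => |df (y d) d (t d) (s d)|) (fun d hdM => by
        have := hdf d hdM
        linarith)
      have G2 : ∑ d ∈ M, |(resCount (y d) d (s d) : ℝ) -
          (resCount (y d) (t d) (s d) : ℝ) / ((d / t d).totient : ℝ)| ≤ 3 * x2 ^ 2 := G1
      refine G2.trans ?_
      have G3 : 3 * x2 ^ 2 ≤ C := by linarith
      calc 3 * x2 ^ 2 ≤ C := G3
        _ = C * 1 := (mul_one C).symm
        _ ≤ C * x ^ (1 - η) := mul_le_mul_of_nonneg_left hx1 (by linarith)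
    · have G1 := hbd (fun d => |resErr (y d) d (s d)|) (fun d hdM => by
        obtain ⟨-, -, h3, -, -⟩ := hd d hdM
        have hy0 : 0 ≤ y d := by linarith [(hy d).1]
        have a1 := Fmi_count (y d) hy0 d (s d)
        have a2 := Pool.Agent.Lib.EH.li_le (hy d).1
        have a3 := Pool.Agent.Lib.EH.li_nonneg (hy d).1
        have a4 := Fmi_div_le (a := li (y d)) (x := 2 * x) h3 a3 (by linarith [(hy d).2])
        have a5 : 0 ≤ li (y d) / (d.totient : ℝ) := by positivity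
        have a6 : (0 : ℝ) ≤ (resCount (y d) d (s d) : ℝ) := by positivity
        unfold resErr
        rw [abs_le]
        constructor <;> linarith [(hy d).2])
      refine G1.trans ?_
      have G4 : (Real.log x) ^ U ≤ (Real.log x2) ^ U :=
        Real.rpow_le_rpow (by linarith) (Real.log_le_log hx0' hxx.le) hU.le
      have G5 : 3 * x2 ^ 2 * (Real.log x2) ^ U ≤ C := by linarith
      have G6 : 1 / (Real.log x) ^ U ≤ x / (Real.log x) ^ U :=
        div_le_div_of_nonneg_right (by linarith) hlU.le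
      calc 3 * x2 ^ 2 = 3 * x2 ^ 2 * (Real.log x) ^ U * (1 / (Real.log x) ^ U) := by
            field_simp
        _ ≤ C * (x / (Real.log x) ^ U) := by
            refine mul_le_mul ?_ G6 (by positivity) (by linarith)
            exact (mul_le_mul_of_nonneg_left G4 hp1).trans G5

end Pool.Agent.Lib.MS
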