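import Pool.Agent.Lib.MS.SpecT
import Pool.Agent.Lib.MI.Basic

/-!
MP_00e23e_nt, THEOREM MI version 9, module T1e: Type I sums with n in one class modulo e.
-/

namespace Pool.Agent.Lib.MS

open Finset Pool.Agent.Lib.EH3 Pool.Agent.Lib.TB Pool.Agent.Results.MP_00e23e_nt Pool.Agent.Lib.MI

/-- the dyadic index -/
private def T1e_i (v : ℕ → ℕ) (V s : ℕ) : ℕ := Nat.log 2 ((v s - 1) / V)

/-- the coefficients of one character and one dyadic range -/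
private noncomputable def T1e_g (ρ : ℕ → ℕ → ℕ → ℤ) (e : ℕ) (v : ℕ → ℕ) (V : ℕ) (γ : ℤ → ℕ → ℕ → ℕ → ℂ) (j i : ℕ)
    (h : ℤ) (r s1 s2 : ℕ) : ℂ :=
  if T1e_i v V s1 = i then γ h r s1 s2 * en (-(j * ρ r s1 s2)) e else 0

private lemma T1e_TT_sum (a : ℕ → ℕ → ℕ → ℤ) (h : ℤ) (k R S N I : ℕ) (g : ℕ → ℕ → ℕ → ℕ → ℂ) (ω : ℕ → ℕ → ℂ) :
    ML.TT a h k R S N (fun r s1 s2 => ∑ i ∈ range I, g i r s1 s2) ω = ∑ i ∈ range I, ML.TT a h k R S N (g i) ω := by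
  unfold ML.TT
  rw [sum_comm (s := range I)]
  refine sum_congr rfl fun r _ => ?_
  rw [sum_comm (s := range I)]
  refine sum_congr rfl fun s1 _ => ?_
  rw [sum_comm (s := range I)]
  refine sum_congr rfl fun s2 _ => ?_
  rw [sum_mul]

private lemma T1e_idx {v : ℕ → ℕ} {V s e : ℕ} (hV : 1 ≤ V) (h1 : V < v s) (h2 : v s ≤ 4 * e * V) :
    2 ^ T1e_i v V s * V < v s ∧ v s ≤ 2 * (2 ^ T1e_i v V s * V) ∧ T1e_i v V s ∈ range (Nat.log 2 (4 * e) + 1) := by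
  have h3 : 1 ≤ (v s - 1) / V := (Nat.one_le_div_iff (by omega)).2 (by omega)
  have h4 : 2 ^ T1e_i v V s ≤ (v s - 1) / V := Nat.pow_log_le_self 2 (by omega)
  have h5 : (v s - 1) / V < 2 ^ (T1e_i v V s + 1) := Nat.lt_pow_succ_log_self (by norm_num) _
  have h6 : 2 ^ T1e_i v V s * V ≤ v s - 1 := (Nat.le_div_iff_mul_le (by omega)).1 h4
  have h7 : v s - 1 < 2 ^ (T1e_i v V s + 1) * V := (Nat.div_lt_iff_lt_mul (by omega)).1 h5
  rw [pow_succ] at h7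
  have h8 : 2 ^ T1e_i v V s * V < v s := by omega
  have h10 : 2 ^ T1e_i v V s * 2 * V = 2 * (2 ^ T1e_i v V s * V) := by ring
  refine ⟨h8, by omega, ?_⟩
  rw [mem_range, Nat.lt_succ_iff]
  have h9 : 2 ^ T1e_i v V s < 4 * e := lt_of_mul_lt_mul_right (h8.trans_le h2) (Nat.zero_le _)
  exact Nat.le_log_of_pow_le (by norm_num) h9.le

private lemma T1e_split {ρ : ℕ → ℕ → ℕ → ℤ} {e : ℕ} {v r0 : ℕ → ℕ} {V L L' : ℕ} {γ : ℤ → ℕ → ℕ → ℕ → ℂ} (hV : 2 ≤ V)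
    (hc : ∀ h r s1 s2, γ h r s1 s2 ≠ 0 → r0 r ∣ r ∧ L < r0 r ∧ r0 r ≤ L' ∧ v s1 ∣ s1 ∧ V < v s1 ∧ v s1 ≤ 4 * e * V)
    (j : ℕ) (h : ℤ) (r s1 s2 : ℕ) :
    ∑ i ∈ range (Nat.log 2 (4 * e) + 1), T1e_g ρ e v V γ j i h r s1 s2 = γ h r s1 s2 * en (-(j * ρ r s1 s2)) e := by
  unfold T1e_g
  by_cases h0 : γ h r s1 s2 = 0
  · rw [h0, zero_mul]
    exact sum_eq_zero fun i _ => by rw [ite_self]
  · obtain ⟨-, -, -, -, h1, h2⟩ := hc h r s1 s2 h0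
    rw [sum_ite_eq, if_pos (T1e_idx (by omega) h1 h2).2.2]

private lemma T1e_Q {x V H L L' S N E : ℝ} (hx : 1 ≤ x) (hxE : x ≤ 4 * E) (hV : 1 ≤ V) (hH : 1 ≤ H) (hL : 1 ≤ L)
    (hL' : 0 ≤ L') (hS : 1 ≤ S) (hN : 1 ≤ N) :
    H / (x * V) + H ^ 2 * Real.sqrt (1 / L + Real.sqrt (1 + S / ((x * V) * H)) / (Real.sqrt (L * (x * V)) * S) +
      Real.sqrt (L' * (x * V)) * S / N) ≤
    H / V + H ^ 2 * Real.sqrt (1 / L + Real.sqrt (1 + S / (V * H)) / (Real.sqrt (L * V) * S) +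
      Real.sqrt (4 * E * L' * V) * S / N) := by
  have h1 : V ≤ x * V := le_mul_of_one_le_left (by linarith) hx
  have h2 : L' * (x * V) ≤ 4 * E * L' * V := by
    have : x * (L' * V) ≤ 4 * E * (L' * V) := mul_le_mul_of_nonneg_right hxE (by positivity)
    linarith [this, show L' * (x * V) = x * (L' * V) by ring, show 4 * E * L' * V = 4 * E * (L' * V) by ring]
  have h3 : 0 < V := by linarith
  gcongr

private lemma T1e_I {X T : ℝ} {e : ℕ} (he : 1 ≤ e) (hT : 1 + Real.log X ≤ T) (hX : 4 * (e : ℝ) ≤ X) :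
    ((Nat.log 2 (4 * e) + 1 : ℕ) : ℝ) ≤ 2 * T := by
  have he' : (1 : ℝ) ≤ e := by exact_mod_cast he
  have h1 : (2 : ℕ) ^ Nat.log 2 (4 * e) ≤ 4 * e := Nat.pow_log_le_self 2 (by omega)
  have h2 : (2 : ℝ) ^ Nat.log 2 (4 * e) ≤ 4 * (e : ℝ) := by exact_mod_cast h1
  have h3 : (Nat.log 2 (4 * e) : ℝ) * Real.log 2 ≤ Real.log X := by
    rw [← Real.log_pow]
    exact Real.log_le_log (by positivity) (h2.trans hX)
  have h4 : (1 : ℝ) / 2 ≤ Real.log 2 := by linarith [Real.log_two_gt_d9]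
  have h5 : (Nat.log 2 (4 * e) : ℝ) * (1 / 2) ≤ (Nat.log 2 (4 * e) : ℝ) * Real.log 2 :=
    mul_le_mul_of_nonneg_left h4 (Nat.cast_nonneg _)
  push_cast
  linarith

theorem tT1e (h1 : ML.T1Stmt) (h2 : TadStmt) : T1eS := by
  obtain ⟨C, hC, A0, h1⟩ := h1
  refine ⟨4 * C, by positivity, A0 + 2, ?_⟩
  intro X T a A ρ e k R S N H V L L' r0 v Hs γ ω hT he hR hS hN hH hV hL hX hRN hHs hγ hω hc hcop
  have heR : (1 : ℝ) ≤ e := by exact_mod_cast he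
  have hRR : (1 : ℝ) ≤ R := by exact_mod_cast hR
  have hSR : (1 : ℝ) ≤ S := by exact_mod_cast hS
  have hNR : (1 : ℝ) ≤ N := by exact_mod_cast hN
  have hHR : (1 : ℝ) ≤ H := by exact_mod_cast hH
  have hVR : (1 : ℝ) ≤ V := by exact_mod_cast (by omega : 1 ≤ V)
  have hLR : (1 : ℝ) ≤ L := by exact_mod_cast hL
  have hL'R : (0 : ℝ) ≤ L' := Nat.cast_nonneg _
  have hT1 : 1 ≤ T := hT.1
  set I : ℕ := Nat.log 2 (4 * e) + 1 with hI
  set Q : ℝ := (H : ℝ) / V + (H : ℝ) ^ 2 * Real.sqrt (1 / (L : ℝ) +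
      Real.sqrt (1 + (S : ℝ) / ((V : ℝ) * H)) / (Real.sqrt ((L : ℝ) * V) * S) +
      Real.sqrt (4 * e * (L' : ℝ) * V) * S / N) with hQ
  set G : ℝ := C * T ^ A0 * ((R : ℝ) * (S : ℝ) ^ 2 * N) ^ 2 with hG
  have hQ0 : 0 ≤ Q := by positivity
  have hG0 : 0 ≤ G := by positivity
  -- the identity
  have hid : ∑ h ∈ Hs, TE a ρ e h k R S N (γ h) ω = (1 / (e : ℂ)) * ∑ j ∈ range e, ∑ i ∈ range I, ∑ h ∈ Hs,
      ML.TT a h k R S N (T1e_g ρ e v V γ j i h) (fun r n => ω r n * en (j * n) e) := by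
    have h3 : ∀ h ∈ Hs, TE a ρ e h k R S N (γ h) ω = (1 / (e : ℂ)) * ∑ j ∈ range e, ∑ i ∈ range I,
        ML.TT a h k R S N (T1e_g ρ e v V γ j i h) (fun r n => ω r n * en (j * n) e) := by
      intro h _
      rw [h2 a ρ e h k R S N (γ h) ω he]
      congr 1
      refine sum_congr rfl fun j _ => ?_
      rw [← T1e_TT_sum]
      congr 1
      funext r s1 s2
      exact (T1e_split hV hc j h r s1 s2).symm
    rw [sum_congr rfl h3, ← mul_sum, sum_comm]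
    congr 1
    exact sum_congr rfl fun j _ => sum_comm
  -- one character and one dyadic range
  have hone : ∀ j i : ℕ, i ∈ range I → ‖∑ h ∈ Hs,
      ML.TT a h k R S N (T1e_g ρ e v V γ j i h) (fun r n => ω r n * en (j * n) e)‖ ≤ Real.sqrt (G * Q) := by
    intro j i hi
    have h3 : 2 ^ i ≤ 4 * e := by
      refine Nat.pow_le_of_le_log (by omega) ?_
      rw [mem_range, hI] at hi
      omega
    have h3R : (2 : ℝ) ^ i ≤ 4 * e := by exact_mod_cast h3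
    have h4R : (1 : ℝ) ≤ 2 ^ i := one_le_pow₀ (by norm_num)
    have h4 : 1 ≤ 2 ^ i := Nat.one_le_two_pow
    have hX' : 100 * (R : ℝ) ^ 2 * (S : ℝ) ^ 4 * (N : ℝ) ^ 2 * ((2 ^ i * V : ℕ) : ℝ) ^ 2 * (H : ℝ) ^ 2 * (L : ℝ) ^ 2 ≤
        X := by
      refine le_trans ?_ hX
      push_cast
      have h5 : ((2 : ℝ) ^ i) ^ 2 ≤ (4 * (e : ℝ)) ^ 2 := pow_le_pow_left₀ (by positivity) h3R 2
      have h6 : ((2 : ℝ) ^ i) ^ 2 * (100 * (R : ℝ) ^ 2 * (S : ℝ) ^ 4 * (N : ℝ) ^ 2 * (V : ℝ) ^ 2 * (H : ℝ) ^ 2 *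
          (L : ℝ) ^ 2) ≤ (4 * (e : ℝ)) ^ 2 * (100 * (R : ℝ) ^ 2 * (S : ℝ) ^ 4 * (N : ℝ) ^ 2 * (V : ℝ) ^ 2 *
          (H : ℝ) ^ 2 * (L : ℝ) ^ 2) := mul_le_mul_of_nonneg_right h5 (by positivity)
      calc _ = ((2 : ℝ) ^ i) ^ 2 * (100 * (R : ℝ) ^ 2 * (S : ℝ) ^ 4 * (N : ℝ) ^ 2 * (V : ℝ) ^ 2 * (H : ℝ) ^ 2 *
            (L : ℝ) ^ 2) := by ring
        _ ≤ _ := h6
        _ = _ := by ring
    have h5 := h1 X T a A k R S N H (2 ^ i * V) L L' r0 v Hs (T1e_g ρ e v V γ j i)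
      (fun r n => ω r n * en (j * n) e) hT hR hS hN hH (hV.trans (Nat.le_mul_of_pos_left _ (by positivity))) hL hX' hRN
      hHs ?_ ?_ ?_ ?_
    · refine Real.le_sqrt_of_sq_le (h5.trans ?_)
      refine mul_le_mul_of_nonneg_left ?_ hG0
      push_cast
      exact T1e_Q h4R h3R hVR hHR hLR hL'R hSR hNR
    · intro h r s1 s2
      unfold T1e_g
      split_ifs
      · rw [norm_mul, norm_en, mul_one]
        exact hγ h r s1 s2
      · rw [norm_zero]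
        exact zero_le_one
    · intro r n
      rw [norm_mul, norm_en, mul_one]
      exact hω r n
    · intro h r s1 s2 h0
      unfold T1e_g at h0
      split_ifs at h0 with h6
      · have h7 : γ h r s1 s2 ≠ 0 := left_ne_zero_of_mul h0
        obtain ⟨a1, a2, a3, a4, a5, a6⟩ := hc h r s1 s2 h7
        obtain ⟨b1, b2, -⟩ := T1e_idx (by omega) a5 a6
        rw [h6] at b1 b2
        exact ⟨a1, a2, a3, a4, b1, b2⟩
      · exact absurd rfl h0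
    · intro h r s1 s2 h0
      unfold T1e_g at h0
      split_ifs at h0 with h6
      · exact hcop h r s1 s2 (left_ne_zero_of_mul h0)
      · exact absurd rfl h0
  -- conclusion
  have hsum : ‖∑ h ∈ Hs, TE a ρ e h k R S N (γ h) ω‖ ≤ I * Real.sqrt (G * Q) := by
    rw [hid, norm_mul]
    have h3 : ‖∑ j ∈ range e, ∑ i ∈ range I, ∑ h ∈ Hs,
        ML.TT a h k R S N (T1e_g ρ e v V γ j i h) (fun r n => ω r n * en (j * n) e)‖ ≤
        ∑ j ∈ range e, ∑ i ∈ range I, Real.sqrt (G * Q) := by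
      refine (norm_sum_le _ _).trans (sum_le_sum fun j _ => ?_)
      exact (norm_sum_le _ _).trans (sum_le_sum fun i hi => hone j i hi)
    rw [sum_const, sum_const, card_range, card_range, nsmul_eq_mul, nsmul_eq_mul] at h3
    have h4 : ‖1 / (e : ℂ)‖ = 1 / (e : ℝ) := by
      rw [norm_div, norm_one, Complex.norm_natCast]
    rw [h4]
    calc _ ≤ 1 / (e : ℝ) * ((e : ℝ) * ((I : ℝ) * Real.sqrt (G * Q))) := mul_le_mul_of_nonneg_left h3 (by positivity)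
      _ = _ := by
        field_simp
  have hI2 : (I : ℝ) ≤ 2 * T := by
    refine T1e_I he hT.2.1 (le_trans ?_ hX)
    have h3 : (1 : ℝ) ≤ (R : ℝ) ^ 2 * (S : ℝ) ^ 4 * (N : ℝ) ^ 2 * (V : ℝ) ^ 2 * (H : ℝ) ^ 2 * (L : ℝ) ^ 2 := by
      have := one_le_pow₀ hRR (n := 2)
      have := one_le_pow₀ hSR (n := 4)
      have := one_le_pow₀ hNR (n := 2)
      have := one_le_pow₀ hVR (n := 2)
      have := one_le_pow₀ hHR (n := 2)
      have := one_le_pow₀ hLR (n := 2)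
      refine one_le_mul_of_one_le_of_one_le (one_le_mul_of_one_le_of_one_le (one_le_mul_of_one_le_of_one_le
        (one_le_mul_of_one_le_of_one_le (one_le_mul_of_one_le_of_one_le ?_ ?_) ?_) ?_) ?_) ?_ <;> assumption
    have h4 : 1600 * (e : ℝ) ^ 2 * 1 ≤ 1600 * (e : ℝ) ^ 2 * ((R : ℝ) ^ 2 * (S : ℝ) ^ 4 * (N : ℝ) ^ 2 * (V : ℝ) ^ 2 *
        (H : ℝ) ^ 2 * (L : ℝ) ^ 2) := mul_le_mul_of_nonneg_left h3 (by positivity)
    nlinarith [h4, heR]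
  calc _ ≤ ((I : ℝ) * Real.sqrt (G * Q)) ^ 2 := pow_le_pow_left₀ (norm_nonneg _) hsum 2
    _ = (I : ℝ) ^ 2 * (G * Q) := by rw [mul_pow, Real.sq_sqrt (mul_nonneg hG0 hQ0)]
    _ ≤ (2 * T) ^ 2 * (G * Q) := mul_le_mul_of_nonneg_right (pow_le_pow_left₀ (Nat.cast_nonneg _) hI2 2)
        (mul_nonneg hG0 hQ0)
    _ = _ := by rw [hG]; ring

end Pool.Agent.Lib.MS
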