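import Pool.Agent.Lib.MS.SpecT
import Pool.Agent.Lib.MI.T2d

/-!
MP_00e23e_nt, directory Lib/MS, module T2e (helper52): the final theorem of the chapter T2 for sums with n restricted
to one class modulo e, `tT2e : TV.VsqStmt → EctStmt → T2eS`.
-/

namespace Pool.Agent.Lib.MS

open Finset Pool.Agent.Lib.EH3 Pool.Agent.Lib.TB Pool.Agent.Results.MP_00e23e_nt Pool.Agent.Lib.MI

open Classical in
/-- the indicator of a class modulo e -/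
private noncomputable def T2e_i (e : ℕ) (ρ : ℤ) (n : ℕ) : ℂ := if (e : ℤ) ∣ (n : ℤ) - ρ then 1 else 0

private lemma T2e_i_conj (e : ℕ) (ρ : ℤ) (n : ℕ) : (starRingEnd ℂ) (T2e_i e ρ n) = T2e_i e ρ n := by
  unfold T2e_i
  split_ifs
  · exact map_one _
  · exact map_zero _

private lemma T2e_i_norm (e : ℕ) (ρ : ℤ) (n : ℕ) : ‖T2e_i e ρ n‖ ≤ 1 := by
  unfold T2e_i
  split_ifs <;> simp

private lemma T2e_i_congr {e n n' : ℕ} (ρ : ℤ) (h : n ≡ n' [MOD e]) : T2e_i e ρ n = T2e_i e ρ n' := by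
  have h1 : (e : ℤ) ∣ (n' : ℤ) - (n : ℤ) := (Nat.modEq_iff_dvd).1 h
  have h2 : ((e : ℤ) ∣ (n : ℤ) - ρ) ↔ ((e : ℤ) ∣ (n' : ℤ) - ρ) := by
    have h3 : (n' : ℤ) - ρ = ((n' : ℤ) - n) + ((n : ℤ) - ρ) := by ring
    rw [h3]
    exact ⟨fun h4 => dvd_add h1 h4, fun h4 => (dvd_add_right h1).1 h4⟩
  unfold T2e_i
  by_cases h4 : (e : ℤ) ∣ (n : ℤ) - ρ
  · rw [if_pos h4, if_pos (h2.1 h4)]
  · rw [if_neg h4, if_neg fun h5 => h4 (h2.2 h5)]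

/-- the kernel for a triple -/
private noncomputable def T2e_F (a ρ : ℕ → ℕ → ℕ → ℤ) (e k : ℕ) (γ : ℤ → ℕ → ℕ → ℕ → ℂ)
    (u : ℤ × ℕ × ℕ) (r n : ℕ) : ℂ :=
  γ u.1 r u.2.1 u.2.2 * (T2e_i e (ρ r u.2.1 u.2.2) n * t2K (a r u.2.1 u.2.2) u.1 k r u.2.1 u.2.2 n)

/-- the correlation -/
private noncomputable def T2e_I (a ρ : ℕ → ℕ → ℕ → ℤ) (e k N : ℕ) (γ : ℤ → ℕ → ℕ → ℕ → ℂ) (r : ℕ)
    (p : (ℤ × ℕ × ℕ) × (ℤ × ℕ × ℕ)) : ℂ :=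
  ∑ n ∈ Ioc N (2 * N), T2e_F a ρ e k γ p.1 r n * (starRingEnd ℂ) (T2e_F a ρ e k γ p.2 r n)

private lemma T2e_norm_F (a ρ : ℕ → ℕ → ℕ → ℤ) (e k : ℕ) {γ : ℤ → ℕ → ℕ → ℕ → ℂ}
    (hγ : ∀ h r s1 s2, ‖γ h r s1 s2‖ ≤ 1) (u : ℤ × ℕ × ℕ) (r n : ℕ) :
    ‖T2e_F a ρ e k γ u r n‖ ≤ ‖T2e_i e (ρ r u.2.1 u.2.2) n‖ := by
  unfold T2e_F
  rw [norm_mul, norm_mul]
  calc ‖γ u.1 r u.2.1 u.2.2‖ * (‖T2e_i e (ρ r u.2.1 u.2.2) n‖ *
        ‖t2K (a r u.2.1 u.2.2) u.1 k r u.2.1 u.2.2 n‖)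
      ≤ 1 * (‖T2e_i e (ρ r u.2.1 u.2.2) n‖ * 1) := by
        apply mul_le_mul (hγ _ _ _ _) _ (by positivity) (by norm_num)
        exact mul_le_mul_of_nonneg_left (t2_norm_K _ _ _ _ _ _ _) (norm_nonneg _)
    _ = _ := by ring

/-- the product of two kernels, two integers -/
private lemma T2e_prod {a a' h h' : ℤ} {k r s1 s2 s1' s2' n : ℕ} (hg : T2Gd a r s1 s2)
    (hg' : T2Gd a' r s1' s2') :
    t2K a h k r s1 s2 n * (starRingEnd ℂ) (t2K a' h' k r s1' s2' n) =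
      t2g (-(h * a * (iv (s1 * s2) r : ℤ)) + h' * a' * (iv (s1' * s2') r : ℤ)) r n *
        (t2P a h k r s1 s2 n * (starRingEnd ℂ) (t2P a' h' k r s1' s2' n)) := by
  rw [t2_K_eq hg, t2_K_eq hg', map_mul]
  have h1 : t2g (-(h * a * (iv (s1 * s2) r : ℤ))) r n *
      (starRingEnd ℂ) (t2g (-(h' * a' * (iv (s1' * s2') r : ℤ))) r n) =
      t2g (-(h * a * (iv (s1 * s2) r : ℤ)) + h' * a' * (iv (s1' * s2') r : ℤ)) r n := by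
    unfold t2g
    by_cases hn : n.Coprime r
    · rw [if_pos hn, if_pos hn, if_pos hn, conj_en, ← en_add]
      congr 1
      ring
    · rw [if_neg hn, zero_mul, if_neg hn]
  rw [← h1]
  ring

/-- the correlation of two kernels, two integers -/
private lemma T2e_In (hV : TV.VsqStmt) {X T : ℝ} (hT : Tau X T) {a a' h h' ρ ρ' : ℤ}
    {e k r s1 s2 s1' s2' R S N : ℕ}
    (hR : 1 ≤ R) (hX : 2 * (R : ℝ) ≤ X) (hr1 : R < r) (hr2 : r ≤ 2 * R)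
    (h1 : s1 ≤ 2 * S) (h2 : s2 ≤ 2 * S) (h3 : s1' ≤ 2 * S) (h4 : s2' ≤ 2 * S)
    (he1 : 1 ≤ e) (her : e.Coprime r)
    (haa : s1.Coprime s2 → s1'.Coprime s2' → (r : ℤ) ∣ a - a') :
    ‖∑ n ∈ Ioc N (2 * N), (T2e_i e ρ n * t2K a h k r s1 s2 n) *
        (starRingEnd ℂ) (T2e_i e ρ' n * t2K a' h' k r s1' s2' n)‖ ≤
      T * ((N : ℝ) * (Int.gcd (t2T h h' s1 s2 s1' s2') r : ℝ) / R) +
        91 * T ^ 2 * ((e : ℝ) * (S : ℝ) ^ 4 * Real.sqrt R) := by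
  obtain ⟨hT1, hT2, hT3⟩ := hT
  have hR0 : (0 : ℝ) < R := by exact_mod_cast hR
  have hS0 : (0 : ℝ) ≤ S := Nat.cast_nonneg _
  have hsR : 0 ≤ Real.sqrt R := Real.sqrt_nonneg _
  have hnn : 0 ≤ T * ((N : ℝ) * (Int.gcd (t2T h h' s1 s2 s1' s2') r : ℝ) / R) +
        91 * T ^ 2 * ((e : ℝ) * (S : ℝ) ^ 4 * Real.sqrt R) := by positivity
  by_cases hg : T2Gd a r s1 s2
  swap
  · have h5 : ∑ n ∈ Ioc N (2 * N), (T2e_i e ρ n * t2K a h k r s1 s2 n) *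
        (starRingEnd ℂ) (T2e_i e ρ' n * t2K a' h' k r s1' s2' n) = 0 := by
      refine sum_eq_zero fun n _ => ?_
      rw [t2_K_zero hg, mul_zero, zero_mul]
    rw [h5, norm_zero]
    exact hnn
  by_cases hg' : T2Gd a' r s1' s2'
  swap
  · have h5 : ∑ n ∈ Ioc N (2 * N), (T2e_i e ρ n * t2K a h k r s1 s2 n) *
        (starRingEnd ℂ) (T2e_i e ρ' n * t2K a' h' k r s1' s2' n) = 0 := by
      refine sum_eq_zero fun n _ => ?_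
      rw [t2_K_zero hg', mul_zero, map_zero, mul_zero]
    rw [h5, norm_zero]
    exact hnn
  have hdv : (r : ℤ) ∣ a - a' := haa hg.2.2.1 hg'.2.2.1
  obtain ⟨hr, p1, p2, c1, c2, hsq⟩ := t2_Gd_pos hg
  obtain ⟨-, p1', p2', c1', c2', -⟩ := t2_Gd_pos hg'
  have ha : Int.gcd a r = 1 := by
    have h5 := hg.2.2.2.1
    rw [← Int.isCoprime_iff_gcd_eq_one] at h5 ⊢
    push_cast at h5
    exact h5.of_mul_right_left
  set W := e * (s1 * s2 * (s1' * s2')) with hW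
  have hW1 : 1 ≤ W := Nat.mul_pos he1 (Nat.mul_pos (Nat.mul_pos p1 p2) (Nat.mul_pos p1' p2'))
  have hWc : W.Coprime r := Nat.Coprime.mul_left her (Nat.Coprime.mul_left
    (Nat.Coprime.mul_left c1.symm c2.symm) (Nat.Coprime.mul_left c1'.symm c2'.symm))
  have e1 : ∑ n ∈ Ioc N (2 * N), (T2e_i e ρ n * t2K a h k r s1 s2 n) *
        (starRingEnd ℂ) (T2e_i e ρ' n * t2K a' h' k r s1' s2' n) =
      ∑ n ∈ Ioc N (2 * N), t2g (-(h * a * (iv (s1 * s2) r : ℤ)) + h' * a' * (iv (s1' * s2') r : ℤ)) r n *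
        (T2e_i e ρ n * T2e_i e ρ' n * (t2P a h k r s1 s2 n * (starRingEnd ℂ) (t2P a' h' k r s1' s2' n))) := by
    refine sum_congr rfl fun n _ => ?_
    have h6 := T2e_prod (h := h) (h' := h') (k := k) (n := n) hg hg'
    rw [map_mul, T2e_i_conj]
    linear_combination (T2e_i e ρ n * T2e_i e ρ' n) * h6
  rw [e1]
  refine (t2_inner hV _ _ hr hsq hW1 hWc (fun n => ?_) (fun n n' hn => ?_)).trans ?_
  · rw [norm_mul, norm_mul, norm_mul, RCLike.norm_conj]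
    exact mul_le_one₀ (mul_le_one₀ (T2e_i_norm _ _ _) (norm_nonneg _) (T2e_i_norm _ _ _))
      (by positivity)
      (mul_le_one₀ (t2_norm_P _ _ _ _ _ _ _) (norm_nonneg _) (t2_norm_P _ _ _ _ _ _ _))
  · have d0 : e ∣ W := dvd_mul_right _ _
    have d1 : s1 ∣ W := dvd_mul_of_dvd_right (dvd_mul_of_dvd_left (dvd_mul_right s1 s2) _) _
    have d2 : s2 ∣ W := dvd_mul_of_dvd_right (dvd_mul_of_dvd_left (dvd_mul_left s2 s1) _) _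
    have d3 : s1' ∣ W := dvd_mul_of_dvd_right (dvd_mul_of_dvd_right (dvd_mul_right s1' s2') _) _
    have d4 : s2' ∣ W := dvd_mul_of_dvd_right (dvd_mul_of_dvd_right (dvd_mul_left s2' s1') _) _
    rw [t2_P_congr (hn.of_dvd d1) (hn.of_dvd d2), t2_P_congr (hn.of_dvd d3) (hn.of_dvd d4),
      T2e_i_congr ρ (hn.of_dvd d0), T2e_i_congr ρ' (hn.of_dvd d0)]
  have hgc : Int.gcd (-(h * a * (iv (s1 * s2) r : ℤ)) + h' * a' * (iv (s1' * s2') r : ℤ)) r =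
      Int.gcd (-(h * a * (iv (s1 * s2) r : ℤ)) + h' * a * (iv (s1' * s2') r : ℤ)) r := by
    refine t2_gcd_congr ?_
    obtain ⟨z, hz⟩ := hdv
    exact ⟨-(h' * (iv (s1' * s2') r : ℤ) * z), by
      linear_combination (-(h' * (iv (s1' * s2') r : ℤ))) * hz⟩
  rw [hgc, t2_gcd hr c1.symm c2.symm c1'.symm c2'.symm ha]
  set g := Int.gcd (t2T h h' s1 s2 s1' s2') r with hgdef
  have hrR : (R : ℝ) ≤ r := by exact_mod_cast hr1.le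
  have hr2R : (r : ℝ) ≤ 2 * R := by exact_mod_cast hr2
  have hr0 : (0 : ℝ) < r := by exact_mod_cast hr
  have hτ : (r.divisors.card : ℝ) ≤ T := hT3 r hr (hr2R.trans hX)
  have hlog : Real.log r ≤ T - 1 := by
    have := Real.log_le_log hr0 (hr2R.trans hX)
    linarith
  have hlog0 : 0 ≤ Real.log r := Real.log_nonneg (by exact_mod_cast hr)
  have hWS : (W : ℝ) ≤ 16 * ((e : ℝ) * (S : ℝ) ^ 4) := by
    have h5 : W ≤ e * ((2 * S) * (2 * S) * ((2 * S) * (2 * S))) :=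
      Nat.mul_le_mul le_rfl (Nat.mul_le_mul (Nat.mul_le_mul h1 h2) (Nat.mul_le_mul h3 h4))
    have h6 : (W : ℝ) ≤ ((e * ((2 * S) * (2 * S) * ((2 * S) * (2 * S))) : ℕ) : ℝ) := by exact_mod_cast h5
    push_cast at h6
    have h7 : (e : ℝ) * (2 * (S : ℝ) * (2 * S) * (2 * S * (2 * S))) = 16 * ((e : ℝ) * (S : ℝ) ^ 4) := by
      ring
    linarith
  have hsr : Real.sqrt r ≤ 1.415 * Real.sqrt R := by
    have h5 : Real.sqrt r ≤ Real.sqrt (2 * R) := Real.sqrt_le_sqrt hr2R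
    have h6 : Real.sqrt (2 * R) = Real.sqrt 2 * Real.sqrt R := Real.sqrt_mul (by norm_num) _
    have h7 : Real.sqrt 2 ≤ 1.415 := by
      rw [Real.sqrt_le_left (by norm_num)]
      norm_num
    rw [h6] at h5
    exact h5.trans (mul_le_mul_of_nonneg_right h7 hsR)
  have hA : (N : ℝ) * g / r ≤ (N : ℝ) * g / R := by
    gcongr
  have hB : (W : ℝ) * Real.sqrt r * (4 + Real.log r) ≤ 91 * T * ((e : ℝ) * (S : ℝ) ^ 4 * Real.sqrt R) := by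
    have h5 : (W : ℝ) * Real.sqrt r ≤ 16 * ((e : ℝ) * (S : ℝ) ^ 4) * (1.415 * Real.sqrt R) :=
      mul_le_mul hWS hsr (Real.sqrt_nonneg _) (by positivity)
    have h6 : 4 + Real.log r ≤ 4 * T := by linarith
    calc (W : ℝ) * Real.sqrt r * (4 + Real.log r)
        ≤ 16 * ((e : ℝ) * (S : ℝ) ^ 4) * (1.415 * Real.sqrt R) * (4 * T) :=
          mul_le_mul h5 h6 (by linarith) (by positivity)
      _ = 90.56 * (T * ((e : ℝ) * (S : ℝ) ^ 4 * Real.sqrt R)) := by ring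
      _ ≤ 91 * (T * ((e : ℝ) * (S : ℝ) ^ 4 * Real.sqrt R)) := by
          apply mul_le_mul_of_nonneg_right (by norm_num)
          positivity
      _ = _ := by ring
  have hC0 : 0 ≤ (N : ℝ) * g / r + (W : ℝ) * Real.sqrt r * (4 + Real.log r) := by positivity
  calc (r.divisors.card : ℝ) * ((N : ℝ) * g / r + (W : ℝ) * Real.sqrt r * (4 + Real.log r))
      ≤ T * ((N : ℝ) * g / r + (W : ℝ) * Real.sqrt r * (4 + Real.log r)) :=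
        mul_le_mul_of_nonneg_right hτ hC0
    _ ≤ T * ((N : ℝ) * g / R + 91 * T * ((e : ℝ) * (S : ℝ) ^ 4 * Real.sqrt R)) := by
        apply mul_le_mul_of_nonneg_left (by linarith) (by linarith)
    _ = _ := by ring

/-- rearrangement -/
private lemma T2e_rearr (a ρ : ℕ → ℕ → ℕ → ℤ) (e k R S N : ℕ) (Hs : Finset ℤ)
    (γ : ℤ → ℕ → ℕ → ℕ → ℂ) (ω : ℕ → ℕ → ℂ) :
    ∑ h ∈ Hs, TE a ρ e h k R S N (γ h) ω =
      ∑ r ∈ Ioc R (2 * R), ∑ n ∈ Ioc N (2 * N), ω r n * ∑ u ∈ t2U Hs S, T2e_F a ρ e k γ u r n := by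
  have h1 : ∀ h, TE a ρ e h k R S N (γ h) ω = ∑ r ∈ Ioc R (2 * R), ∑ s1 ∈ Ioc S (2 * S),
      ∑ s2 ∈ Ioc S (2 * S), ∑ n ∈ Ioc N (2 * N), ω r n * T2e_F a ρ e k γ (h, s1, s2) r n := by
    intro h
    unfold TE
    refine sum_congr rfl fun r _ => sum_congr rfl fun s1 _ => sum_congr rfl fun s2 _ => ?_
    rw [mul_sum]
    refine sum_congr rfl fun n _ => ?_
    unfold T2e_F T2e_i t2K
    by_cases g1 : Gd (a r s1 s2) r s1 s2 n (n + k * r)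
    · by_cases g2 : (e : ℤ) ∣ (n : ℤ) - ρ r s1 s2
      · rw [if_pos ⟨g1, g2⟩, if_pos g2, if_pos g1]
        ring
      · rw [if_neg fun g => g2 g.2, if_neg g2]
        ring
    · rw [if_neg fun g => g1 g.1, if_neg g1]
      ring
  rw [sum_congr rfl fun h _ => h1 h, sum_comm]
  refine sum_congr rfl fun r _ => ?_
  have h2 : ∀ n, ω r n * ∑ u ∈ t2U Hs S, T2e_F a ρ e k γ u r n =
      ∑ h ∈ Hs, ∑ s1 ∈ Ioc S (2 * S), ∑ s2 ∈ Ioc S (2 * S), ω r n * T2e_F a ρ e k γ (h, s1, s2) r n := by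
    intro n
    unfold t2U
    rw [mul_sum, sum_product]
    refine sum_congr rfl fun h _ => ?_
    rw [sum_product]
  rw [sum_congr rfl fun n _ => h2 n]
  symm
  rw [sum_comm]
  refine sum_congr rfl fun h _ => ?_
  rw [sum_comm]
  refine sum_congr rfl fun s1 _ => ?_
  rw [sum_comm]

/-- expanding the square -/
private lemma T2e_expand (a ρ : ℕ → ℕ → ℕ → ℤ) (e k N r : ℕ) (U : Finset (ℤ × ℕ × ℕ))
    (γ : ℤ → ℕ → ℕ → ℕ → ℂ) :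
    ∑ n ∈ Ioc N (2 * N), ‖∑ u ∈ U, T2e_F a ρ e k γ u r n‖ ^ 2 ≤
      ∑ p ∈ U ×ˢ U, ‖T2e_I a ρ e k N γ r p‖ := by
  have h1 : ((∑ n ∈ Ioc N (2 * N), ‖∑ u ∈ U, T2e_F a ρ e k γ u r n‖ ^ 2 : ℝ) : ℂ) =
      ∑ p ∈ U ×ˢ U, T2e_I a ρ e k N γ r p := by
    push_cast
    have h2 : ∀ n, ((‖∑ u ∈ U, T2e_F a ρ e k γ u r n‖ : ℝ) : ℂ) ^ 2 =
        ∑ p ∈ U ×ˢ U, T2e_F a ρ e k γ p.1 r n * (starRingEnd ℂ) (T2e_F a ρ e k γ p.2 r n) := by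
      intro n
      rw [← Complex.mul_conj', map_sum, sum_mul_sum, sum_product]
    rw [sum_congr rfl fun n _ => h2 n, sum_comm]
    rfl
  have h0 : 0 ≤ ∑ n ∈ Ioc N (2 * N), ‖∑ u ∈ U, T2e_F a ρ e k γ u r n‖ ^ 2 :=
    sum_nonneg fun n _ => by positivity
  have h3 : ∑ n ∈ Ioc N (2 * N), ‖∑ u ∈ U, T2e_F a ρ e k γ u r n‖ ^ 2 =
      ‖((∑ n ∈ Ioc N (2 * N), ‖∑ u ∈ U, T2e_F a ρ e k γ u r n‖ ^ 2 : ℝ) : ℂ)‖ := by
    rw [Complex.norm_real, Real.norm_of_nonneg h0]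
  rw [h3, h1]
  exact norm_sum_le _ _

private lemma T2e_I_triv (hE : EctStmt) (a ρ : ℕ → ℕ → ℕ → ℤ) {e : ℕ} (k : ℕ) {N : ℕ} (r : ℕ)
    (he : 1 ≤ e) (heN : e ≤ N) {γ : ℤ → ℕ → ℕ → ℕ → ℂ}
    (hγ : ∀ h r s1 s2, ‖γ h r s1 s2‖ ≤ 1) (p : (ℤ × ℕ × ℕ) × (ℤ × ℕ × ℕ)) :
    ‖T2e_I a ρ e k N γ r p‖ ≤ 2 * (N : ℝ) / e := by
  classical
  unfold T2e_I
  calc ‖∑ n ∈ Ioc N (2 * N), T2e_F a ρ e k γ p.1 r n * (starRingEnd ℂ) (T2e_F a ρ e k γ p.2 r n)‖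
      ≤ ∑ n ∈ Ioc N (2 * N), (if (e : ℤ) ∣ (n : ℤ) - ρ r p.1.2.1 p.1.2.2 then (1 : ℝ) else 0) := by
        refine norm_sum_le_of_le _ fun n _ => ?_
        rw [norm_mul, RCLike.norm_conj]
        have h1 := T2e_norm_F a ρ e k hγ p.1 r n
        have h2 := (T2e_norm_F a ρ e k hγ p.2 r n).trans (T2e_i_norm _ _ _)
        have h3 : ‖T2e_i e (ρ r p.1.2.1 p.1.2.2) n‖ =
            (if (e : ℤ) ∣ (n : ℤ) - ρ r p.1.2.1 p.1.2.2 then (1 : ℝ) else 0) := by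
          unfold T2e_i
          split_ifs <;> simp
        rw [← h3]
        calc ‖T2e_F a ρ e k γ p.1 r n‖ * ‖T2e_F a ρ e k γ p.2 r n‖
            ≤ ‖T2e_i e (ρ r p.1.2.1 p.1.2.2) n‖ * 1 :=
              mul_le_mul h1 h2 (norm_nonneg _) (norm_nonneg _)
          _ = _ := mul_one _
    _ = (((Ioc N (2 * N)).filter (fun n : ℕ => (e : ℤ) ∣ (n : ℤ) - ρ r p.1.2.1 p.1.2.2)).card : ℝ) := by
        rw [← sum_filter, sum_const, nsmul_eq_mul, mul_one]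
    _ ≤ 2 * (N : ℝ) / e := by
        exact hE e N (ρ r p.1.2.1 p.1.2.2) he heN

/-- one correlation -/
private lemma T2e_I_le (hV : TV.VsqStmt) {X T : ℝ} (hT : Tau X T) {a ρ : ℕ → ℕ → ℕ → ℤ} {b : ℕ → ℤ}
    {e k r R S N : ℕ} (he1 : 1 ≤ e) {γ : ℤ → ℕ → ℕ → ℕ → ℂ} (hγ : ∀ h r s1 s2, ‖γ h r s1 s2‖ ≤ 1)
    (hb : ∀ h r s1 s2, γ h r s1 s2 ≠ 0 → e.Coprime r ∧ (s1.Coprime s2 → (r : ℤ) ∣ a r s1 s2 - b r))
    (hR : 1 ≤ R) (hX : 2 * (R : ℝ) ≤ X) (hr1 : R < r) (hr2 : r ≤ 2 * R)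
    {p : (ℤ × ℕ × ℕ) × (ℤ × ℕ × ℕ)}
    (h1 : p.1.2.1 ≤ 2 * S) (h2 : p.1.2.2 ≤ 2 * S) (h3 : p.2.2.1 ≤ 2 * S) (h4 : p.2.2.2 ≤ 2 * S) :
    ‖T2e_I a ρ e k N γ r p‖ ≤ T * ((N : ℝ) * (Int.gcd (t2D p) r : ℝ) / R) +
        91 * T ^ 2 * ((e : ℝ) * (S : ℝ) ^ 4 * Real.sqrt R) := by
  have hR0 : (0 : ℝ) < R := by exact_mod_cast hR
  have hT1 := hT.1
  have hnn : 0 ≤ T * ((N : ℝ) * (Int.gcd (t2D p) r : ℝ) / R) +
        91 * T ^ 2 * ((e : ℝ) * (S : ℝ) ^ 4 * Real.sqrt R) := by positivity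
  by_cases hc : γ p.1.1 r p.1.2.1 p.1.2.2 = 0 ∨ γ p.2.1 r p.2.2.1 p.2.2.2 = 0
  · have h5 : T2e_I a ρ e k N γ r p = 0 := by
      unfold T2e_I T2e_F
      refine sum_eq_zero fun n _ => ?_
      rcases hc with hc | hc
      · rw [hc]; simp
      · rw [hc]; simp
    rw [h5, norm_zero]
    exact hnn
  push Not at hc
  have h6 : T2e_I a ρ e k N γ r p = γ p.1.1 r p.1.2.1 p.1.2.2 *
      (starRingEnd ℂ) (γ p.2.1 r p.2.2.1 p.2.2.2) *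
      ∑ n ∈ Ioc N (2 * N), (T2e_i e (ρ r p.1.2.1 p.1.2.2) n *
          t2K (a r p.1.2.1 p.1.2.2) p.1.1 k r p.1.2.1 p.1.2.2 n) *
        (starRingEnd ℂ) (T2e_i e (ρ r p.2.2.1 p.2.2.2) n *
          t2K (a r p.2.2.1 p.2.2.2) p.2.1 k r p.2.2.1 p.2.2.2 n) := by
    unfold T2e_I T2e_F
    rw [mul_sum]
    refine sum_congr rfl fun n _ => ?_
    rw [map_mul (starRingEnd ℂ) (γ p.2.1 r p.2.2.1 p.2.2.2)]
    ring
  rw [h6, norm_mul, norm_mul, RCLike.norm_conj]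
  refine (mul_le_of_le_one_left (norm_nonneg _)
    (mul_le_one₀ (hγ _ _ _ _) (norm_nonneg _) (hγ _ _ _ _))).trans ?_
  refine T2e_In hV hT hR hX hr1 hr2 h1 h2 h3 h4 he1 (hb _ _ _ _ hc.1).1 fun q1 q2 => ?_
  have d1 := (hb _ _ _ _ hc.1).2 q1
  have d2 := (hb _ _ _ _ hc.2).2 q2
  have d3 := dvd_sub d1 d2
  have d4 : a r p.1.2.1 p.1.2.2 - b r - (a r p.2.2.1 p.2.2.2 - b r) =
      a r p.1.2.1 p.1.2.2 - a r p.2.2.1 p.2.2.2 := by ring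
  rwa [d4] at d3

/-- the sum over r of one correlation -/
private lemma T2e_row (hV : TV.VsqStmt) {X T : ℝ} (hT : Tau X T) {a ρ : ℕ → ℕ → ℕ → ℤ} {b : ℕ → ℤ}
    {e : ℕ} (he1 : 1 ≤ e) (k : ℕ) {R S N H : ℕ} {γ : ℤ → ℕ → ℕ → ℕ → ℂ}
    (hγ : ∀ h r s1 s2, ‖γ h r s1 s2‖ ≤ 1)
    (hb : ∀ h r s1 s2, γ h r s1 s2 ≠ 0 → e.Coprime r ∧ (s1.Coprime s2 → (r : ℤ) ∣ a r s1 s2 - b r))
    (hR : 1 ≤ R) {Hs : Finset ℤ}
    (hH : ∀ h ∈ Hs, h ≠ 0 ∧ |h| ≤ (H : ℤ)) (hX1 : 2 * (R : ℝ) ≤ X) (hX2 : 8 * (H : ℝ) * (S : ℝ) ^ 2 ≤ X)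
    {p : (ℤ × ℕ × ℕ) × (ℤ × ℕ × ℕ)} (hp : p ∈ t2U Hs S ×ˢ t2U Hs S) (hD : t2D p ≠ 0) :
    ∑ r ∈ Ioc R (2 * R), ‖T2e_I a ρ e k N γ r p‖ ≤
      2 * T ^ 2 * N + 91 * T ^ 2 * ((e : ℝ) * (S : ℝ) ^ 4 * (R * Real.sqrt R)) := by
  have hR0 : (0 : ℝ) < R := by exact_mod_cast hR
  have hT1 := hT.1
  unfold t2U at hp
  simp only [mem_product, mem_Ioc] at hp
  obtain ⟨⟨hh, ha1, ha2⟩, ⟨hh', hb1, hb2⟩⟩ := hp
  have hDX : ((t2D p).natAbs : ℝ) ≤ X := by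
    have h1 := hH _ hh
    have h2 := hH _ hh'
    have i1 : |p.1.1 * ((p.2.2.1 : ℤ) * p.2.2.2)| ≤ (H : ℤ) * ((2 * S) * (2 * S)) := by
      rw [abs_mul, abs_of_nonneg (by positivity : (0 : ℤ) ≤ (p.2.2.1 : ℤ) * p.2.2.2)]
      apply mul_le_mul h1.2 _ (by positivity) (by positivity)
      apply mul_le_mul (by exact_mod_cast hb1.2) (by exact_mod_cast hb2.2) (by positivity)
        (by positivity)
    have i2 : |p.2.1 * ((p.1.2.1 : ℤ) * p.1.2.2)| ≤ (H : ℤ) * ((2 * S) * (2 * S)) := by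
      rw [abs_mul, abs_of_nonneg (by positivity : (0 : ℤ) ≤ (p.1.2.1 : ℤ) * p.1.2.2)]
      apply mul_le_mul h2.2 _ (by positivity) (by positivity)
      apply mul_le_mul (by exact_mod_cast ha1.2) (by exact_mod_cast ha2.2) (by positivity)
        (by positivity)
    have i3 : |t2D p| ≤ 8 * (H : ℤ) * (S : ℤ) ^ 2 := by
      unfold t2D t2T
      refine (abs_sub _ _).trans ?_
      nlinarith
    have i4 : ((t2D p).natAbs : ℤ) ≤ 8 * (H : ℤ) * (S : ℤ) ^ 2 := by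
      rw [Int.natCast_natAbs]
      exact i3
    have i5 : ((t2D p).natAbs : ℝ) ≤ 8 * (H : ℝ) * (S : ℝ) ^ 2 := by exact_mod_cast i4
    exact i5.trans hX2
  have hτ : ((t2D p).natAbs.divisors.card : ℝ) ≤ T := hT.2.2 _ (by omega) hDX
  have hsum := t2_sum_gcd hD R
  calc ∑ r ∈ Ioc R (2 * R), ‖T2e_I a ρ e k N γ r p‖
      ≤ ∑ r ∈ Ioc R (2 * R), (T * ((N : ℝ) * (Int.gcd (t2D p) r : ℝ) / R) +
        91 * T ^ 2 * ((e : ℝ) * (S : ℝ) ^ 4 * Real.sqrt R)) := by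
        refine sum_le_sum fun r hr => ?_
        rw [mem_Ioc] at hr
        exact T2e_I_le hV hT he1 hγ hb hR hX1 hr.1 hr.2 ha1.2 ha2.2 hb1.2 hb2.2
    _ = T * ((N : ℝ) / R) * ∑ r ∈ Ioc R (2 * R), (Int.gcd (t2D p) r : ℝ) +
        (R : ℝ) * (91 * T ^ 2 * ((e : ℝ) * (S : ℝ) ^ 4 * Real.sqrt R)) := by
        rw [sum_add_distrib, sum_const, Nat.card_Ioc, show 2 * R - R = R by omega, nsmul_eq_mul,
          mul_sum]
        congr 1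
        refine sum_congr rfl fun r _ => ?_
        ring
    _ ≤ T * ((N : ℝ) / R) * (2 * (R : ℝ) * T) +
        (R : ℝ) * (91 * T ^ 2 * ((e : ℝ) * (S : ℝ) ^ 4 * Real.sqrt R)) := by
        have h1 : 2 * (R : ℝ) * ((t2D p).natAbs.divisors.card : ℝ) ≤ 2 * (R : ℝ) * T :=
          mul_le_mul_of_nonneg_left hτ (by positivity)
        have h2 : 0 ≤ T * ((N : ℝ) / R) := by positivity
        have h3 := mul_le_mul_of_nonneg_left (hsum.trans h1) h2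
        linarith
    _ = _ := by
        field_simp

theorem tT2e (hV : TV.VsqStmt) (hE : EctStmt) : T2eS := by
  refine ⟨364, by norm_num, 2, ?_⟩
  intro X T a b ρ e k R S N H Hs γ ω hT he heN hR hS hN hH1 hX hHs hγ hω hb
  have he0 : (0 : ℝ) < e := by exact_mod_cast he
  have hR0 : (1 : ℝ) ≤ R := by exact_mod_cast hR
  have hS0 : (1 : ℝ) ≤ S := by exact_mod_cast hS
  have hN0 : (1 : ℝ) ≤ N := by exact_mod_cast hN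
  have hH0 : (1 : ℝ) ≤ H := by exact_mod_cast hH1
  have hT1 := hT.1
  have hR2 : (R : ℝ) ≤ (R : ℝ) ^ 2 := by nlinarith
  have hS2 : (S : ℝ) ^ 2 ≤ (S : ℝ) ^ 4 := pow_le_pow_right₀ hS0 (by norm_num)
  have hH2 : (H : ℝ) ≤ (H : ℝ) ^ 2 := by nlinarith
  have hR21 : (1 : ℝ) ≤ (R : ℝ) ^ 2 := one_le_pow₀ hR0
  have hS41 : (1 : ℝ) ≤ (S : ℝ) ^ 4 := one_le_pow₀ hS0
  have hN21 : (1 : ℝ) ≤ (N : ℝ) ^ 2 := one_le_pow₀ hN0
  have hH21 : (1 : ℝ) ≤ (H : ℝ) ^ 2 := one_le_pow₀ hH0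
  have hX1 : 2 * (R : ℝ) ≤ X := by
    have h1 : (R : ℝ) * 1 * 1 * 1 ≤ (R : ℝ) ^ 2 * (S : ℝ) ^ 4 * (N : ℝ) ^ 2 * (H : ℝ) ^ 2 := by
      gcongr
    nlinarith
  have hX2 : 8 * (H : ℝ) * (S : ℝ) ^ 2 ≤ X := by
    have h1 : 1 * (S : ℝ) ^ 2 * 1 * (H : ℝ) ≤ (R : ℝ) ^ 2 * (S : ℝ) ^ 4 * (N : ℝ) ^ 2 * (H : ℝ) ^ 2 := by
      gcongr
    nlinarith
  set U := t2U Hs S with hU
  set B : ℝ := 2 * T ^ 2 * N + 91 * T ^ 2 * ((e : ℝ) * (S : ℝ) ^ 4 * (R * Real.sqrt R)) with hB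
  have hB0 : 0 ≤ B := by positivity
  have hcU : (U.card : ℝ) ≤ 2 * (H : ℝ) * (S : ℝ) ^ 2 := t2_card_U hHs
  have hcD : (((U ×ˢ U).filter (fun p => t2D p = 0)).card : ℝ) ≤ 2 * (H : ℝ) * (S : ℝ) ^ 2 * T ^ 2 :=
    t2_count hT hHs (by nlinarith)
  -- the sum of the correlations
  have hcor : ∑ r ∈ Ioc R (2 * R), ∑ p ∈ U ×ˢ U, ‖T2e_I a ρ e k N γ r p‖ ≤
      2 * (H : ℝ) * (S : ℝ) ^ 2 * T ^ 2 * (R * (2 * (N : ℝ) / e)) + (2 * (H : ℝ) * (S : ℝ) ^ 2) ^ 2 * B := by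
    rw [sum_comm]
    calc ∑ p ∈ U ×ˢ U, ∑ r ∈ Ioc R (2 * R), ‖T2e_I a ρ e k N γ r p‖
        ≤ ∑ p ∈ U ×ˢ U, ((if t2D p = 0 then (R : ℝ) * (2 * (N : ℝ) / e) else 0) + B) := by
          refine sum_le_sum fun p hp => ?_
          by_cases hD : t2D p = 0
          · rw [if_pos hD]
            calc ∑ r ∈ Ioc R (2 * R), ‖T2e_I a ρ e k N γ r p‖ ≤ ∑ r ∈ Ioc R (2 * R), (2 * (N : ℝ) / e) :=
                  sum_le_sum fun r _ => T2e_I_triv hE a ρ k r he heN hγ p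
              _ = (R : ℝ) * (2 * (N : ℝ) / e) := by
                  rw [sum_const, Nat.card_Ioc, show 2 * R - R = R by omega, nsmul_eq_mul]
              _ ≤ _ := by linarith
          · rw [if_neg hD, zero_add]
            exact T2e_row hV hT he k hγ hb hR hHs hX1 hX2 hp hD
      _ = (((U ×ˢ U).filter (fun p => t2D p = 0)).card : ℝ) * (R * (2 * (N : ℝ) / e)) +
          ((U ×ˢ U).card : ℝ) * B := by
          rw [sum_add_distrib, ← sum_filter, sum_const, sum_const, nsmul_eq_mul, nsmul_eq_mul]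
      _ ≤ 2 * (H : ℝ) * (S : ℝ) ^ 2 * T ^ 2 * (R * (2 * (N : ℝ) / e)) + (2 * (H : ℝ) * (S : ℝ) ^ 2) ^ 2 * B := by
          have h1 : ((U ×ˢ U).card : ℝ) ≤ (2 * (H : ℝ) * (S : ℝ) ^ 2) ^ 2 := by
            rw [card_product]
            push_cast
            rw [sq]
            exact mul_le_mul hcU hcU (Nat.cast_nonneg _) (by positivity)
          have h2 := mul_le_mul_of_nonneg_right hcD (by positivity : (0 : ℝ) ≤ (R : ℝ) * (2 * (N : ℝ) / e))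
          have h3 := mul_le_mul_of_nonneg_right h1 hB0
          linarith
  have hmain : ‖∑ h ∈ Hs, TE a ρ e h k R S N (γ h) ω‖ ^ 2 ≤ (R : ℝ) * N *
      (2 * (H : ℝ) * (S : ℝ) ^ 2 * T ^ 2 * (R * (2 * (N : ℝ) / e)) + (2 * (H : ℝ) * (S : ℝ) ^ 2) ^ 2 * B) := by
    rw [T2e_rearr]
    refine (t2_cauchy R N ω (fun r n => ∑ u ∈ t2U Hs S, T2e_F a ρ e k γ u r n) hω).trans ?_
    apply mul_le_mul_of_nonneg_left _ (by positivity)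
    refine (sum_le_sum fun r _ => T2e_expand a ρ e k N r (t2U Hs S) γ).trans ?_
    exact hcor
  refine hmain.trans ?_
  have hR00 : (R : ℝ) ≠ 0 := by positivity
  have hS00 : (S : ℝ) ≠ 0 := by positivity
  have hN00 : (N : ℝ) ≠ 0 := by positivity
  have he00 : (e : ℝ) ≠ 0 := he0.ne'
  have e1 : (364 : ℝ) * T ^ 2 * ((R : ℝ) * (S : ℝ) ^ 2 * N) ^ 2 *
      (Real.sqrt R * (H : ℝ) ^ 2 * ((e : ℝ) * (S : ℝ) ^ 4) / N + (H : ℝ) / ((S : ℝ) ^ 2 * e) +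
        (H : ℝ) ^ 2 / R) =
      364 * (T ^ 2 * ((R : ℝ) ^ 2 * (S : ℝ) ^ 8 * N * ((H : ℝ) ^ 2 * (e * Real.sqrt R)))) +
      364 * (T ^ 2 * ((R : ℝ) ^ 2 * (S : ℝ) ^ 2 * (N : ℝ) ^ 2 * H / e)) +
      364 * (T ^ 2 * ((R : ℝ) * (S : ℝ) ^ 4 * (N : ℝ) ^ 2 * (H : ℝ) ^ 2)) := by
    field_simp
  have e2 : (R : ℝ) * N *
      (2 * (H : ℝ) * (S : ℝ) ^ 2 * T ^ 2 * (R * (2 * (N : ℝ) / e)) + (2 * (H : ℝ) * (S : ℝ) ^ 2) ^ 2 * B) =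
      364 * (T ^ 2 * ((R : ℝ) ^ 2 * (S : ℝ) ^ 8 * N * ((H : ℝ) ^ 2 * (e * Real.sqrt R)))) +
      4 * (T ^ 2 * ((R : ℝ) ^ 2 * (S : ℝ) ^ 2 * (N : ℝ) ^ 2 * H / e)) +
      8 * (T ^ 2 * ((R : ℝ) * (S : ℝ) ^ 4 * (N : ℝ) ^ 2 * (H : ℝ) ^ 2)) := by
    rw [hB]
    ring
  rw [e1, e2]
  have p1 : 0 ≤ T ^ 2 * ((R : ℝ) ^ 2 * (S : ℝ) ^ 2 * (N : ℝ) ^ 2 * H / e) := by positivity
  have p2 : 0 ≤ T ^ 2 * ((R : ℝ) * (S : ℝ) ^ 4 * (N : ℝ) ^ 2 * (H : ℝ) ^ 2) := by positivity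
  linarith

end Pool.Agent.Lib.MS
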