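import Pool.Agent.Lib.MS.SpecT

/-! MP_00e23e_nt, THEOREM MI (version 9), module Tad: additive characters modulo e. -/

namespace Pool.Agent.Lib.MS

open Finset Pool.Agent.Lib.EH3 Pool.Agent.Lib.TB Pool.Agent.Results.MP_00e23e_nt Pool.Agent.Lib.MI

private lemma Tad_orth {e : ℕ} (he : 1 ≤ e) (n : ℕ) (ρ : ℤ) :
    ∑ j ∈ range e, en (-(j * ρ)) e * en (j * n) e = if (e : ℤ) ∣ (n : ℤ) - ρ then (e : ℂ) else 0 := by
  rw [← orth (by omega : 0 < e) ((n : ℤ) - ρ)]
  apply sum_congr rfl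
  intro j _
  unfold en
  rw [← ee_add]
  apply congrArg
  push_cast
  ring

private lemma Tad_term {e : ℕ} (he : 1 ≤ e) (n : ℕ) (ρ : ℤ) (P : Prop) {i1 : Decidable P}
    {i2 : Decidable (P ∧ (e : ℤ) ∣ (n : ℤ) - ρ)} (g w f : ℂ) :
    g * (if P ∧ (e : ℤ) ∣ (n : ℤ) - ρ then w * f else 0) =
      ∑ j ∈ range e, 1 / (e : ℂ) * (g * en (-(j * ρ)) e * (if P then w * en (j * n) e * f else 0)) := by
  have he0 : (e : ℂ) ≠ 0 := by
    have : e ≠ 0 := by omega
    exact_mod_cast this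
  by_cases hP : P
  · have h1 : ∀ j ∈ range e, 1 / (e : ℂ) * (g * en (-(j * ρ)) e * (if P then w * en (j * n) e * f else 0)) =
        (1 / (e : ℂ) * g * w * f) * (en (-(j * ρ)) e * en (j * n) e) := by
      intro j _
      rw [if_pos hP]
      ring
    rw [sum_congr rfl h1, ← mul_sum, Tad_orth he]
    by_cases hd : (e : ℤ) ∣ (n : ℤ) - ρ
    · rw [if_pos ⟨hP, hd⟩, if_pos hd]
      field_simp
    · rw [if_neg (fun h => hd h.2), if_neg hd]
      simp
  · have h1 : ∀ j ∈ range e, 1 / (e : ℂ) * (g * en (-(j * ρ)) e * (if P then w * en (j * n) e * f else 0)) =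
        0 := by
      intro j _
      rw [if_neg hP]
      simp
    rw [sum_congr rfl h1, if_neg (fun h => hP h.1)]
    simp

theorem tTad : TadStmt := by
  intro a ρ e h k R S N γ ω he
  unfold TE ML.TT
  simp only [mul_sum]
  symm
  rw [sum_comm]
  apply sum_congr rfl
  intro r _
  rw [sum_comm]
  apply sum_congr rfl
  intro s1 _
  rw [sum_comm]
  apply sum_congr rfl
  intro s2 _
  rw [sum_comm]
  apply sum_congr rfl
  intro n _
  exact (Tad_term he n (ρ r s1 s2) _ _ _ _).symm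

end Pool.Agent.Lib.MS
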