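import Pool.Agent.Lib.MQ.AllM
import Pool.Agent.Lib.MS.Ecq
import Pool.Agent.Lib.MS.Ect
import Pool.Agent.Lib.MS.Efo
import Pool.Agent.Lib.MS.Eph
import Pool.Agent.Lib.MS.Eit
import Pool.Agent.Lib.MS.Egc
import Pool.Agent.Lib.MS.Ein
import Pool.Agent.Lib.MS.Eir
import Pool.Agent.Lib.MS.Eis
import Pool.Agent.Lib.MS.Dey
import Pool.Agent.Lib.MS.Eqe
import Pool.Agent.Lib.MS.Eda
import Pool.Agent.Lib.MS.Edb
import Pool.Agent.Lib.MS.Efi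
import Pool.Agent.Lib.MS.Tad
import Pool.Agent.Lib.MS.T1e
import Pool.Agent.Lib.MS.T2e
import Pool.Agent.Lib.MS.Bdh
import Pool.Agent.Lib.MS.Beo
import Pool.Agent.Lib.MS.Bet
import Pool.Agent.Lib.MS.Bbo
import Pool.Agent.Lib.MS.Bbt
import Pool.Agent.Lib.MS.Bdr
import Pool.Agent.Lib.MS.Bds
import Pool.Agent.Lib.MS.Bfi
import Pool.Agent.Lib.MS.Acb
import Pool.Agent.Lib.MS.Abi
import Pool.Agent.Lib.MS.Afi
import Pool.Agent.Lib.MS.Fth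
import Pool.Agent.Lib.MS.Fpi
import Pool.Agent.Lib.MS.Fps
import Pool.Agent.Lib.MS.Fmi

/-! MP_00e23e_nt, directory Lib/MS: THEOREM MI (version 9), without hypotheses. -/

namespace Pool.Agent.Lib.MS

open Pool.Agent.Lib.TB

/-- Chapter T, Type I. -/
theorem tT1eAll : T1eStmt := tT1e ML.tT1All tTad

/-- Chapter T, Type II. -/
theorem tT2eAll : T2eStmt := tT2e (TV.tVsq (TV.tVsr (TN.tKsq TN.tWeil) TV.tVrm)) tEct

/-- Chapter D, the pairs with a common factor. -/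
theorem tEisAll : EisStmt :=
  tEis tEcq (tEin tEct MI.tDgg (tEit (tEfo MI.tDgg) (tEph MI.tDph)) (tEgc MI.tDgg)) (tEir MI.tDspn)

/-- Chapter D. -/
theorem tDAll : DspStmt :=
  tEfi ML.tEcp (ML.tDca MI.tDtr) tDey
    (tEdb MI.tDtr (tEda (ML.tEep (ML.tEuu MJ.tEcn MJ.tEgc)) tEqe) (ML.tEeb (ML.tEna MJ.tEcn) MI.tDpr)
      (ML.tEec (ML.tEna MJ.tEcn) MI.tDpr))
    (ML.tDgo (MI.tDta (MI.tDid MI.tDfo MI.tDph) MI.tDgg) (ML.tDgm (MI.tDco MI.tDgg) MI.tDspn (MI.tDsy MI.tDph)))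
    tEisAll

/-- Chapter B. -/
theorem tBAll : BAllStmt :=
  tBfi (tBds (tBdr (tBbo tDAll (ML.tBt1 ML.tT1All ML.tBdh) (tBeo tT1eAll tBdh) MI.tBta)
    (tBbt tDAll (ML.tBt2 ML.tT2All ML.tBdh) (tBet tT2eAll tBdh) MI.tBta))
    MK.tFsp MI.tBta) MI.tBid (MN.tBrm MI.tBph) (ML.tBlg MI.tLrgAll) MI.tLrgAll MI.tBta

/-- Chapter A. -/
theorem tAAll : AAllStmt :=
  tAfi MI.tAva CO.tVgb (MI.tAty MI.tAct) (tAbi MI.tAcl (MK.tAtr MK.tAnm) tAcb (MI.tAtu tTauk)) (MI.tAtu tTauk)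

/-- Chapter F. -/
theorem tFAll : FAllStmt :=
  tFmi (tFps (tFpi (tFth MI.tFtp MI.tFtn (MI.tAtu tTauk) MK.tFpw) MI.tFab (MI.tAtu tTauk)) MI.tFgr MI.tFtn)
    (MI.tFbv BV.aExt KF.tRse MI.tFtn)

/-- THEOREM MI, version 9. -/
theorem tMI : MIStmt := by
  intro δ τ κ σ ω hδ hτ hτ' hκ h1 h3 h4
  obtain ⟨ε, hε0, hε1, hB⟩ := tBAll δ τ κ σ ω hδ hτ hτ' hκ h1 h3 h4
  have hA : CoreStmt (1 / 2 + δ) τ κ σ ω :=
    tAAll (1 / 2 + δ) τ κ σ ω ε hε0 hε1 (by linarith) hτ hτ' hκ (by linarith) hB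
  exact tFAll (1 / 2 + δ) τ κ σ ω (by linarith) hτ hτ' hκ (by linarith) hA

end Pool.Agent.Lib.MS
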