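import Pool.Agent.Lib.MS.SpecD

namespace Pool.Agent.Lib.MS

open Finset Pool.Agent.Lib.EH3 Pool.Agent.Lib.TB Pool.Agent.Results.MP_00e23e_nt Pool.Agent.Lib.MI

/-!
MP_00e23e_nt, directory Lib/MS, module Efi: the final statement DspStmt of the dispersion chapter from ML.EcpStmt,
ML.DcaStmt, DeyStmt, EdbStmt, ML.DgoStmt, EisStmt.
-/

private lemma Efi_num (R M N S H T z z1 B B' : ℝ) (hR : 0 < R) (hM : 0 < M) (hN : 0 < N) (hS : 0 < S) (hH : 0 < H)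
    (hT : 1 ≤ T) (hz : 1 ≤ z) (hz1 : 1 ≤ z1) (hB : 0 ≤ B) (hB' : 0 ≤ B') :
    R * M * (((4 * N / R * B + 32 * (R * S ^ 4 * N ^ 2) / (M * H)) +
      4 * N / R * (T * B' + 16 * (M * N) / z + 128 * (R ^ 2 * S ^ 4 * N) / (M * H))) +
      1000 * T ^ 5 * (M * N * (1 + N / (R * z)) + N ^ 2 * S ^ 2 / z1 ^ 2)) ≤
    2000 * T ^ 5 * (R * M ^ 2 * N + M ^ 2 * N ^ 2 / z + R ^ 2 * S ^ 4 * N ^ 2 / H +
      R * M * N ^ 2 * S ^ 2 / z1 ^ 2 + M * N * B + M * N * B') := by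
  have hz0 : 0 < z := by linarith
  have hz10 : 0 < z1 := by linarith
  have hT5 : (1 : ℝ) ≤ T ^ 5 := one_le_pow₀ hT
  have hTT : T ≤ T ^ 5 := le_self_pow₀ hT (by norm_num)
  have e : R * M * (((4 * N / R * B + 32 * (R * S ^ 4 * N ^ 2) / (M * H)) +
      4 * N / R * (T * B' + 16 * (M * N) / z + 128 * (R ^ 2 * S ^ 4 * N) / (M * H))) +
      1000 * T ^ 5 * (M * N * (1 + N / (R * z)) + N ^ 2 * S ^ 2 / z1 ^ 2)) =
      4 * (M * N * B) + 32 * (R ^ 2 * S ^ 4 * N ^ 2 / H) + (4 * T * (M * N * B') + 64 * (M ^ 2 * N ^ 2 / z) +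
        512 * (R ^ 2 * S ^ 4 * N ^ 2 / H)) + 1000 * T ^ 5 * (R * M ^ 2 * N + M ^ 2 * N ^ 2 / z +
        R * M * N ^ 2 * S ^ 2 / z1 ^ 2) := by
    field_simp
    ring
  rw [e]
  have h1 : 0 ≤ M * N * B := by positivity
  have h2 : 0 ≤ R ^ 2 * S ^ 4 * N ^ 2 / H := by positivity
  have h5 : 0 ≤ M * N * B' := by positivity
  have h6 : 0 ≤ M ^ 2 * N ^ 2 / z := by positivity
  have h7 : 0 ≤ R * M ^ 2 * N := by positivity
  have h8 : 0 ≤ R * M * N ^ 2 * S ^ 2 / z1 ^ 2 := by positivity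
  have h0 : 0 ≤ T ^ 5 := by linarith
  have h3 := mul_le_mul_of_nonneg_right hT5 h1
  have h4 := mul_le_mul_of_nonneg_right hT5 h2
  have h9 := mul_le_mul_of_nonneg_right hTT h5
  have h10 := mul_le_mul_of_nonneg_right hT5 h6
  have h11 := mul_nonneg h0 h7
  have h12 := mul_nonneg h0 h8
  have h13 := mul_nonneg h0 h5
  have h14 := mul_nonneg h0 h6
  have h15 := mul_nonneg h0 h2
  have h16 := mul_nonneg h0 h1
  nlinarith [h3, h4, h9, h10, h11, h12, h13, h14, h15, h16]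

private lemma Efi_SX (X : ℝ) (R S M N : ℕ) (hR : 1 ≤ R) (hS : 1 ≤ S) (hN : 1 ≤ N) (hM : 1 ≤ M)
    (hX : 100 * (M : ℝ) ^ 2 * (N : ℝ) ^ 2 * (R : ℝ) ^ 2 * (S : ℝ) ^ 4 ≤ X) : (S : ℝ) ≤ X := by
  have hR' : (1 : ℝ) ≤ (R : ℝ) := by exact_mod_cast hR
  have hS' : (1 : ℝ) ≤ (S : ℝ) := by exact_mod_cast hS
  have hN' : (1 : ℝ) ≤ (N : ℝ) := by exact_mod_cast hN
  have hM' : (1 : ℝ) ≤ (M : ℝ) := by exact_mod_cast hM
  have h1 : (1 : ℝ) ≤ (M : ℝ) ^ 2 := one_le_pow₀ hM'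
  have h2 : (1 : ℝ) ≤ (N : ℝ) ^ 2 := one_le_pow₀ hN'
  have h3 : (1 : ℝ) ≤ (R : ℝ) ^ 2 := one_le_pow₀ hR'
  have h4 : (S : ℝ) ≤ (S : ℝ) ^ 4 := le_self_pow₀ hS' (by norm_num)
  have h5 : (1 : ℝ) ≤ 100 * (M : ℝ) ^ 2 := by linarith
  have h6 : (1 : ℝ) ≤ 100 * (M : ℝ) ^ 2 * (N : ℝ) ^ 2 := one_le_mul_of_one_le_of_one_le h5 h2
  have h7 : (1 : ℝ) ≤ 100 * (M : ℝ) ^ 2 * (N : ℝ) ^ 2 * (R : ℝ) ^ 2 := one_le_mul_of_one_le_of_one_le h6 h3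
  have h8 : (S : ℝ) ^ 4 ≤ 100 * (M : ℝ) ^ 2 * (N : ℝ) ^ 2 * (R : ℝ) ^ 2 * (S : ℝ) ^ 4 :=
    le_mul_of_one_le_left (by positivity) h7
  exact le_trans h4 (le_trans h8 hX)

theorem tEfi (h1 : ML.EcpStmt) (h2 : ML.DcaStmt) (h3 : DeyStmt) (h4 : EdbStmt) (h5 : ML.DgoStmt) (h6 : EisStmt) :
    EfiStmt := by
  refine ⟨2000, by norm_num, 5, ?_⟩
  intro X T z z1 B B' A b R S M N H P α β hTau hz hz1 h4z hB hB' hN hNM hM hH hRN hSN hHR hX hb hP hα hβ hTT hTE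
  have hR : 1 ≤ R := by omega
  have hS : 1 ≤ S := by
    have : (0 : ℝ) < (S : ℝ) := by linarith
    have : 0 < S := by exact_mod_cast this
    omega
  have hPr : ∀ w ∈ P, R < w.1 ∧ w.1 ≤ 2 * R ∧ S < w.2 ∧ w.2 ≤ 2 * S := fun w hw =>
    ⟨(hP.1.1 w hw).1, (hP.1.1 w hw).2.1, (hP.1.1 w hw).2.2.1, (hP.1.1 w hw).2.2.2.1⟩
  obtain ⟨a, hCp⟩ := h1 A b R S z 1 P hP.1
  obtain ⟨c', hc1, hc0, hca⟩ := h2 A R S M N P α β hM hPr hα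
  have hex := h3 z1 A a R S M N P β c' hM hCp hβ hc1 hc0
  have hba := h4 X T z z1 A b a R S M N P ⟨hTau, hz, hR, hS, hN, hM, hRN, hX, hb⟩ hz1 hSN hP.1 hCp
  have hgo := h5 B A a R S M N H P β c' hB hR hS hN hM hH hRN hHR hCp hPr hβ hc1 hc0 hTT
  have hSX : (S : ℝ) ≤ X := Efi_SX X R S M N hR hS hN (by omega) hX
  have his := h6 X T z z1 B' A b R S M N H P β c' hTau hz hz1 h4z hB' hR hN hNM hM hH hRN hSN hHR hSX hP hβ hc1 hTE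
  have hRM : (0 : ℝ) ≤ (R : ℝ) * M := by positivity
  have hnum := Efi_num (R : ℝ) M N S H T z z1 B B' (by exact_mod_cast hR) (by exact_mod_cast (by omega : 0 < M))
    (by exact_mod_cast hN) (by exact_mod_cast hS) (by exact_mod_cast hH) hTau.1 hz hz1 hB hB'
  exact le_trans hca (le_trans (mul_le_mul_of_nonneg_left (le_trans hex (add_le_add (add_le_add hgo his) hba)) hRM)
    hnum)

end Pool.Agent.Lib.MS
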