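import Pool.Agent.Lib.MS.SpecB

/-!
MP_00e23e_nt, directory Lib/MS (THEOREM MI, version 9, architect helper34), chapters A and F: as in Lib/MQ (SpecA) with the
hypothesis Nst of MS/Stm.lean, which is only passed on; no parameter κ1.
RULES. Module X: file Pool/Agent/Lib/MS/X.lean, first line `import Pool.Agent.Lib.MS.SpecA`, then
`namespace Pool.Agent.Lib.MS` and `open Finset Pool.Agent.Lib.EH3 Pool.Agent.Lib.TB Pool.Agent.Results.MP_00e23e_nt Pool.Agent.Lib.MI`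
(MS.BlStmt, MS.CoreStmt, ... win over those of MI; write MI.X, MK.X, ML.X, MN.X, MQ.X for the others: MQ.Mt, MQ.Dv), private
lemmas with names starting with X_, final theorem `theorem tX (h1 : AStmt) ... : XStmt`; the statements listed under Uses are
hypotheses, in this order. MODEL file: copy it and change it. Never use congr!. Below 60 s.
-/

namespace Pool.Agent.Lib.MS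

open Finset Pool.Agent.Lib.EH3 Pool.Agent.Lib.TB Pool.Agent.Results.MP_00e23e_nt Pool.Agent.Lib.MI

/-- Module Acb (theorem tAcb; BlStmt α τ κ σ ω ε is a hypothesis inside). Uses: nothing. MODEL: Lib/MQ/Acb.lean. -/
def AcbStmt : Prop := ∀ α τ κ σ ω ε κ0 : ℝ, 0 < ε → ε < 1 / 100 → BlStmt α τ κ σ ω ε → 0 < κ0 → κ0 < κ →
  ∃ η C x0 : ℝ, 0 < η ∧ 0 ≤ C ∧ 3 ≤ x0 ∧ ∀ (x : ℝ) (a : ℕ → ℤ) (Y K i j : ℕ) (f g : ℕ → ℂ) (F : Finset ℕ) (t : ℕ → ℕ) (v : ℝ → ℕ → ℕ),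
  x0 ≤ x → (Y : ℝ) ≤ x → 4 ≤ K → (∀ m, ‖f m‖ ≤ 1) →
  (∀ n, ‖g n‖ ≤ 1) → (∀ m, f m ≠ 0 → x ^ ((1 : ℝ) / 3) < m ∧ (m : ℝ) ≤ x ^ ((2 : ℝ) / 3)) →
  (K : ℝ) * (Real.log 4 + (1 - ε / 2) * Real.log x) ≤ (i : ℝ) + j → (i : ℝ) + j + 2 ≤ K * Real.log Y →
  (∀ q ∈ F, MQ.Mt α τ κ0 x (t q) q ∧ Int.gcd (a q) q = 1) → Nst κ σ ω x a t v F →
  ∑ q ∈ F, ‖∑ m ∈ Icc 1 Y, ∑ n ∈ Icc 1 Y, cl K i f m * cl K j g n * Ek (a q) (t q) q (m * n)‖ ≤ C * x ^ (1 - η)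

/-- Module Abi (theorem tAbi). Uses: MI.AclStmt, MK.AtrStmt, AcbStmt, MI.AtuStmt. MODEL: Lib/MQ/Abi.lean. -/
def AbiStmt : Prop := ∀ α τ κ σ ω ε κ0 : ℝ, α ≤ 3 / 5 → 0 < ε → ε < 1 / 100 → BlStmt α τ κ σ ω ε → 0 < κ0 → κ0 < κ →
  ∃ η C x0 : ℝ, 0 < η ∧ 0 ≤ C ∧ 3 ≤ x0 ∧ ∀ (x : ℝ) (a : ℕ → ℤ) (Y : ℕ) (f g : ℕ → ℂ) (F : Finset ℕ) (t : ℕ → ℕ) (v : ℝ → ℕ → ℕ),
  x0 ≤ x → (Y : ℝ) ≤ x → (∀ m, ‖f m‖ ≤ 1) → (∀ n, ‖g n‖ ≤ 1) →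
  (∀ m, f m ≠ 0 → x ^ ((1 : ℝ) / 3) < m ∧ (m : ℝ) ≤ x ^ ((2 : ℝ) / 3)) →
  (∀ q ∈ F, MQ.Mt α τ κ0 x (t q) q ∧ Int.gcd (a q) q = 1) → Nst κ σ ω x a t v F →
  ∑ q ∈ F, ‖∑ m ∈ Icc 1 Y, ∑ n ∈ Icc 1 (Y / m), f m * g n * Ek (a q) (t q) q (m * n)‖ ≤ C * x ^ (1 - η)

/-- Module Afi (theorem tAfi). STATEMENT AAllStmt (MS/Stm.lean). Uses: MI.AvaStmt, CO.VgbStmt, MI.AtyStmt, AbiStmt, MI.AtuStmt. MODEL: Lib/MQ/Afi.lean. -/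
def AfiStmt : Prop := AAllStmt

/-- Module Fth (theorem tFth). Uses: MI.FtpStmt, MI.FtnStmt, MI.AtuStmt, MK.FpwStmt. MODEL: Lib/MQ/Fth.lean. -/
def FthStmt : Prop := ∀ α τ κ σ ω κ0 : ℝ, α ≤ 3 / 5 → 0 ≤ τ → τ ≤ 1 / 3 → CoreStmt α τ κ σ ω → 0 < κ0 → κ0 < κ →
  ∃ η C x0 : ℝ, 0 < η ∧ 0 ≤ C ∧ 3 ≤ x0 ∧ ∀ (x : ℝ) (a : ℕ → ℤ) (Y : ℕ) (F : Finset ℕ) (t : ℕ → ℕ) (v : ℝ → ℕ → ℕ), x0 ≤ x →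
  (Y : ℝ) ≤ x → (∀ q ∈ F, MQ.Mt α τ κ0 x (t q) q ∧ Int.gcd (a q) q = 1) → Nst κ σ ω x a t v F →
  ∑ q ∈ F, ‖∑ p ∈ (Icc 1 Y).filter Nat.Prime, ((Real.log p : ℝ) : ℂ) * Ek (a q) (t q) q p‖ ≤ C * x ^ (1 - η)

/-- Module Fpi (theorem tFpi). Uses: FthStmt, MI.FabStmt, MI.AtuStmt. MODEL: Lib/MQ/Fpi.lean. -/
def FpiStmt : Prop := ∀ α τ κ σ ω κ0 : ℝ, α ≤ 3 / 5 → 0 ≤ τ → τ ≤ 1 / 3 → CoreStmt α τ κ σ ω → 0 < κ0 → κ0 < κ →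
  ∃ η C x0 : ℝ, 0 < η ∧ 0 ≤ C ∧ 3 ≤ x0 ∧ ∀ (x : ℝ) (a : ℕ → ℤ) (Y : ℕ) (F : Finset ℕ) (t : ℕ → ℕ) (v : ℝ → ℕ → ℕ), x0 ≤ x →
  (Y : ℝ) ≤ x → (∀ q ∈ F, MQ.Mt α τ κ0 x (t q) q ∧ Int.gcd (a q) q = 1) → Nst κ σ ω x a t v F →
  ∑ q ∈ F, |df Y q (t q) (a q)| ≤ C * x ^ (1 - η)

/-- Module Fps (theorem tFps). Uses: FpiStmt, MI.FgrStmt, MI.FtnStmt. MODEL: Lib/MQ/Fps.lean. -/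
def FpsStmt : Prop := ∀ α τ κ σ ω κ0 : ℝ, α ≤ 3 / 5 → 0 ≤ τ → τ ≤ 1 / 3 → CoreStmt α τ κ σ ω → 0 < κ0 → κ0 < κ →
  ∃ η C x0 : ℝ, 0 < η ∧ η ≤ 1 / 10 ∧ 0 ≤ C ∧ 3 ≤ x0 ∧
  ∀ (x : ℝ) (s : ℕ → ℤ) (t i : ℕ → ℕ) (v : ℝ → ℕ → ℕ) (y : ℕ → ℝ) (M : Finset ℕ), x0 ≤ x →
  ((M.image i).card : ℝ) ≤ x ^ η → (∀ d, 2 ≤ y d ∧ y d ≤ x) →
  (∀ d ∈ M, MQ.Mt α τ κ0 x (t d) d ∧ Int.gcd (s d) d = 1) →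
  (∀ Z : ℝ, x ^ σ ≤ Z → Z ≤ x ^ ((1 : ℝ) / 2) → (∀ d ∈ M, Z < d → MQ.Dv κ ω x Z t (v Z) d) ∧
    ∀ d ∈ M, ∀ d' ∈ M, Z < d → Z < d' → i d = i d' → t d = t d' → v Z d = v Z d' →
      ((t d * v Z d : ℕ) : ℤ) ∣ s d - s d') →
  ∑ d ∈ M, |df (y d) d (t d) (s d)| ≤ C * x ^ (1 - η)

/-- Module Fmi (theorem tFmi). STATEMENT FAllStmt (MS/Stm.lean). Uses: FpsStmt, MI.FbvStmt. MODEL: Lib/MQ/Fmi.lean. -/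
def FmiStmt : Prop := FAllStmt

end Pool.Agent.Lib.MS
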