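import Pool.Agent.Lib.MS.SpecT
import Pool.Agent.Lib.MQ.SpecB

/-!
MP_00e23e_nt, directory Lib/MS (THEOREM MI, version 9, architect helper34), chapter B: as in Lib/ML (SpecB: Bdh, Bt1, Bt2, Bbo,
Bbt) and Lib/MQ (SpecB: Bdr, Bds, Bfi), without the parameter κ1; new: the second kind of sums (TE, common factor e).
RULES. Module X: file Pool/Agent/Lib/MS/X.lean, first line `import Pool.Agent.Lib.MS.SpecB`, then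
`namespace Pool.Agent.Lib.MS` and `open Finset Pool.Agent.Lib.EH3 Pool.Agent.Lib.TB Pool.Agent.Results.MP_00e23e_nt Pool.Agent.Lib.MI`
(MS.Pr, MS.TE, MS.Nst, MS.BlStmt, ... win over those of MI; write MI.X, MK.X, ML.X, MN.X, MQ.X for the others: ML.Bt1Stmt,
MQ.Mt, MQ.Dn, MQ.Dv, ...), private lemmas with names starting with X_, final theorem `theorem tX (h1 : AStmt) ... : XStmt`; the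
statements listed under Uses are hypotheses, in this order. MODEL file: copy it and change it. Never use congr!. Below 60 s.
-/

namespace Pool.Agent.Lib.MS

open Finset Pool.Agent.Lib.EH3 Pool.Agent.Lib.TB Pool.Agent.Results.MP_00e23e_nt Pool.Agent.Lib.MI

/-- Module Bdh (theorem tBdh). Uses: nothing. MODEL: Lib/ML/Bdh.lean (TE in place of TT). -/
def BdhStmt : Prop := ∀ (a ρ : ℕ → ℕ → ℕ → ℤ) (e k R S M N H Y0 : ℕ) (P : Finset (ℕ × ℕ)) (γ : ℤ → ℕ → ℕ → ℕ → ℂ)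
    (ω : ℕ → ℕ → ℂ) (E : ℝ), 1 ≤ R → 1 ≤ S → 1 ≤ M → 1 ≤ Y0 → 4 * (R * S ^ 2) ≤ M * Y0 → 0 ≤ E → Cf P R S M γ →
  (∀ (i : ℕ) (Hs : Finset ℤ) (γ' : ℤ → ℕ → ℕ → ℕ → ℂ), 2 ^ i * Y0 ≤ 2 * H + Y0 →
    (∀ h ∈ Hs, h ≠ 0 ∧ |h| ≤ ((2 ^ i * Y0 : ℕ) : ℤ)) → (∀ h r s1 s2, ‖γ' h r s1 s2‖ ≤ 1) →
    (∀ h r s1 s2, γ' h r s1 s2 ≠ 0 → (r, s1) ∈ P ∧ (r, s2) ∈ P) →
    ‖∑ h ∈ Hs, TE a ρ e h k R S N (γ' h) ω‖ ≤ 2 ^ i * E) →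
  ‖∑ h ∈ Icc (-(H : ℤ)) H, TE a ρ e h k R S N (γ h) ω‖ ≤ 32 * M * E / (R * (S : ℝ) ^ 2)

/-- Module Beo (theorem tBeo; Type I, common factor e). Uses: T1eStmt, BdhStmt. MODEL: Lib/ML/Bt1.lean.
Proof. G = S/e, V1 = V/e, M1 = M/e + 1, Y1 = Y0/e + 1 (natural divisions). Real: (3/4) S/e ≤ G ≤ S/e (4e ≤ S), V/(2e) ≤ V1 ≤ V/e, 4 ≤ V1 (4e ≤ V), M/e ≤ M1 ≤ 2M/e (e ≤ M), Y0/e ≤ Y1 ≤ 2Y0/e (e ≤ Y0), Y1 ≤ 2Y0. Bdh with S := G, M := M1, Y0 := Y1, P := PE P e: 4 R G^2 ≤ M1 Y1 since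
M1 Y1 ≥ M Y0/e^2 ≥ 4 R S^2/e^2. E = R G^2 N (C T^A)^(1/2) (7 Q)^(1/2), Q the radicand of the statement. For i, Hs, γ': T1e with H := 2^i Y1 ≤ 2H + Y1 ≤ 2 (2H + Y0), S := G, V := V1, v := fun g => v (e g) / gcd(v (e g), e), A := fun r g => iv e (r g) * A r (e g).
Size: 1600 e^2 R^2 G^4 N^2 V1^2 (2^i Y1)^2 L^2 ≤ 1600 e^2 R^2 (S/e)^4 N^2 (V/e)^2 4 (2H + Y0)^2 L^2 ≤ X. If γ' h r g1 g2 ≠ 0: (r, g1), (r, g2) ∈ PE P e, so (r, e g1), (r, e g2) ∈ P (mem_PE). v (e g1) ∣ e g1 gives v' := v (e g1)/gcd(v (e g1), e) ∣ g1 (coprime to e/gcd); v' ≥ v (e g1)/e > V/e ≥ V1;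
v' ≤ v (e g1) ≤ 2V ≤ 4 e V1. Class: e is coprime to r g2 (r (e g2) squarefree), r g2 ∣ e a - A r (e g2) (CpE, g1 ⊥ g2), so r g2 ∣ a - iv e (r g2) * A r (e g2). The bracket of T1e with H = 2^i Y1 is ≤ 4^i Q1, Q1 = Y1/V1 + Y1^2 (1/L + (1 + G/(V1 Y1))^(1/2)/((L V1)^(1/2) G) + (4 e L' V1)^(1/2) G/N)^(1/2)
(as in the MODEL), and Q1 ≤ 7 Q: Y1/V1 ≤ 4 Y0/V; G/(V1 Y1) ≤ 2e S/(V Y0), so (1 + G/(V1 Y1))^(1/2) ≤ (2e)^(1/2) (1 + S/(V Y0))^(1/2); (L V1)^(1/2) G ≥ (L V/(2e))^(1/2) (3/4) S/e: the second term is ≤ (8/3) e^2 times the one in Q; (4 e L' V1)^(1/2) G/N ≤ 2 (L' V)^(1/2) (S/e)/N: third term ≤ 2 times;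
so the inner bracket is ≤ 3 e^2 times the one in Q, its root ≤ 1.74 e times, Y1^2 ≤ 4 Y0^2/e^2: ≤ 7 times (e ≥ 1). Bdh: ≤ 32 M1 E/(R G^2) = 32 M1 N (7 C T^A Q)^(1/2) ≤ 64 (M N/e) (7 C T^A)^(1/2) Q^(1/2). -/
def BeoStmt : Prop := ∃ C : ℝ, 0 < C ∧ ∃ A0 : ℕ, ∀ (X T : ℝ) (a ρ : ℕ → ℕ → ℕ → ℤ) (A : ℕ → ℕ → ℤ)
    (e k R S M N H Y0 V L L' : ℕ) (r0 v : ℕ → ℕ)
    (P : Finset (ℕ × ℕ)) (γ : ℤ → ℕ → ℕ → ℕ → ℂ) (ω : ℕ → ℕ → ℂ), Tau X T → 1 ≤ e → 4 * e ≤ S → 4 * e ≤ V → e ≤ Y0 →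
  e ≤ M → 1 ≤ R → 1 ≤ N → 1 ≤ L →
  10000 * (R : ℝ) ^ 2 * (S : ℝ) ^ 4 * (N : ℝ) ^ 2 * (V : ℝ) ^ 2 * (2 * H + Y0 : ℝ) ^ 2 * (L : ℝ) ^ 2 ≤ X →
  2 * R ≤ N → 4 * (R * S ^ 2) ≤ M * Y0 → Cf (PE P e) R (S / e) (M / e + 1) γ → (∀ r n, ‖ω r n‖ ≤ 1) → CpE P A e a →
  (∀ w ∈ P, Squarefree (w.1 * w.2) ∧ r0 w.1 ∣ w.1 ∧ L < r0 w.1 ∧ r0 w.1 ≤ L' ∧ v w.2 ∣ w.2 ∧ V < v w.2 ∧
    v w.2 ≤ 2 * V) →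
  ‖∑ h ∈ Icc (-(H : ℤ)) H, TE a ρ e h k R (S / e) N (γ h) ω‖ ≤ C * T ^ A0 * ((M : ℝ) * N / e) *
    Real.sqrt ((Y0 : ℝ) / V + (Y0 : ℝ) ^ 2 * Real.sqrt (1 / (L : ℝ) +
      Real.sqrt (1 + (S : ℝ) / ((V : ℝ) * Y0)) / (Real.sqrt ((L : ℝ) * V) * S) +
      Real.sqrt ((L' : ℝ) * V) * S / N))

/-- Module Bet (theorem tBet; Type II, common factor e). Uses: T2eStmt, BdhStmt. MODEL: Lib/ML/Bt2.lean.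
Proof. G = S/e, M1 = M/e + 1, Y1 = Y0/e + 1 (natural divisions); (3/4) S/e ≤ G ≤ S/e, M/e ≤ M1 ≤ 2M/e, Y0/e ≤ Y1 ≤ Y0/e + 1, Y1 ≤ 2Y0. Bdh with S := G, M := M1, Y0 := Y1, P := PE P e (4 R G^2 ≤ M1 Y1 as in Beo). T2e with H := 2^i Y1 ≤ 2 (2H + Y0), S := G, b := fun r => iv e r * b r: for γ' h r g1 g2 ≠ 0
(r, e g1) ∈ P, so r (e g1) is squarefree and e ⊥ r; r ∣ e a - A r (e g1) (CpE), r ∣ A r (e g1) - b r (Pr), so r ∣ a - iv e r * b r. The bracket of T2e with H = 2^i Y1 is ≤ 4^i Q1, Q1 = R^(1/2) Y1^2 e G^4/N + Y1/(G^2 e) + Y1^2/R ≤ 4 Q, Q the radicand of the statement: e G^4 ≤ S^4, Y1^2 ≤ 4 Y0^2;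
Y1/(G^2 e) ≤ (Y0/e + 1) (16/9) e/S^2 = (16/9) (Y0/S^2 + e/S^2) ≤ 2 Y0/S^2 + 1/S (e ≤ S/4). So ≤ 32 M1 N (4 C T^A Q)^(1/2) ≤ 128 (M N/e) (C T^A)^(1/2) Q^(1/2). -/
def BetStmt : Prop := ∃ C : ℝ, 0 < C ∧ ∃ A0 : ℕ, ∀ (X T z : ℝ) (a ρ : ℕ → ℕ → ℕ → ℤ) (A : ℕ → ℕ → ℤ) (b : ℕ → ℤ)
    (e k R S M N H Y0 : ℕ)
    (P : Finset (ℕ × ℕ)) (γ : ℤ → ℕ → ℕ → ℕ → ℂ) (ω : ℕ → ℕ → ℂ), Tau X T → 1 ≤ e → 4 * e ≤ S → e ≤ M → e ≤ N →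
  1 ≤ R → 1 ≤ N → 1 ≤ Y0 → 400 * (R : ℝ) ^ 2 * (S : ℝ) ^ 4 * (N : ℝ) ^ 2 * (2 * H + Y0 : ℝ) ^ 2 ≤ X →
  4 * (R * S ^ 2) ≤ M * Y0 → Cf (PE P e) R (S / e) (M / e + 1) γ → (∀ r n, ‖ω r n‖ ≤ 1) → Pr A b R S z P →
  CpE P A e a →
  ‖∑ h ∈ Icc (-(H : ℤ)) H, TE a ρ e h k R (S / e) N (γ h) ω‖ ≤ C * T ^ A0 * ((M : ℝ) * N / e) *
    Real.sqrt (Real.sqrt R * (Y0 : ℝ) ^ 2 * (S : ℝ) ^ 4 / N + (Y0 : ℝ) / (S : ℝ) ^ 2 + (Y0 : ℝ) ^ 2 / R + 1 / S)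

/-- Module Bbo (theorem tBbo). Uses: DspStmt, ML.Bt1Stmt, BeoStmt, MI.BtaStmt. MODEL: Lib/ML/Bbo.lean.
Proof. As there with z1 = x^((yy+2ε)/2) in place of x^κ1 (2 κ1 := yy + 2ε; R M N^2 S^2/z1^2 = (M N)^2 (R S^2/M) x^(-yy-2ε) ≤ (M N)^2 x^(-2ε)). 4 z1 ≤ S: x^(sg+ε/2) ≤ 4 S as in the MODEL and sg = 3δ+2κ+10ε > (yy+2ε)/2 = δ + κ/2 + (5/2)ε. B' = the bound of Beo without 1/e: C T^A M N (radicand)^(1/2), the same radicand as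
for B; for z < e ≤ z1 (all conditions of Beo): e ≥ 1, 4e ≤ S, 4e ≤ V (V ≥ x^(yy+4ε)/2), e ≤ Y0 (Y0 ≥ x^yy, (yy+2ε)/2 ≤ yy), e ≤ M; the size condition with 10000 (X = x^30, x large). Squarefree (w.1 * w.2) from Pr. -/
def BboStmt : Prop := ∀ δ τ κ ε κ0 : ℝ, Par δ τ κ ε → 0 < κ0 → κ0 < κ →
  ∃ η C x0 : ℝ, 0 < η ∧
  ∀ (x : ℝ) (A : ℕ → ℕ → ℤ) (b : ℕ → ℤ) (M N R S V : ℕ) (P : Finset (ℕ × ℕ)) (f g : ℕ → ℂ), x0 ≤ x →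
  Blk δ κ ε x M N R S →
  (N : ℝ) ≤ x ^ (1 / 2 - sg δ κ ε) → x ^ (yy δ κ ε + 4 * ε) ≤ 2 * V → (V : ℝ) ≤ x ^ (yy δ κ ε + κ + 4 * ε) →
  Pr A b R S (x ^ κ0) P → (∀ w ∈ P, (∃ v : ℕ, v ∣ w.2 ∧ V < v ∧ v ≤ 2 * V) ∧
    ∃ r0 : ℕ, r0 ∣ w.1 ∧ x ^ (4 * yy δ κ ε + 8 * ε) < r0 ∧ (r0 : ℝ) ≤ x ^ (4 * yy δ κ ε + 8 * ε + κ)) →
  (∀ m, ‖f m‖ ≤ 1) → (∀ n, ‖g n‖ ≤ 1) →
  ∑ w ∈ P, ‖∑ m ∈ Ioc M (2 * M), ∑ n ∈ Ioc N (2 * N), f m * g n * Dl (A w.1 w.2) w.1 w.2 (m * n)‖ ≤ C * x ^ (1 - η)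

/-- Module Bbt (theorem tBbt). Uses: DspStmt, ML.Bt2Stmt, BetStmt, MI.BtaStmt. MODEL: Lib/ML/Bbt.lean.
Proof. As there with z1 = min (x^((yy+2ε)/2)) (S/4) in place of x^κ1: 1 ≤ z1 for large x (S ≥ x^(ε/2)/4 as in the MODEL), 4 z1 ≤ S; 1/z1^2 ≤ x^(-(yy+2ε)) + 16/S^2, so R M N^2 S^2/z1^2 ≤ (M N)^2 (R S^2/M) x^(-yy-2ε) + 16 R M N^2 ≤ (M N)^2 (x^(-2ε) + 16 x^(-ε)) (R ≤ N x^(-ε) ≤ M x^(-ε)).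
ML.Bt2Stmt with z1 := 1 (first part of Pr). B' = C T^A M N (radicand + 1/S)^(1/2) (Bet), 1/S ≤ 4 x^(-ε/2): (49 x^(-ε) + 4 x^(-ε/2))^(1/2) ≤ 8 x^(-ε/4). For z < e ≤ z1: e ≥ 1, 4e ≤ S, e ≤ S ≤ N ≤ M. μ = min(ε/4, κ0). -/
def BbtStmt : Prop := ∀ δ τ κ ε κ0 : ℝ, Par δ τ κ ε → 0 < κ0 → κ0 < κ →
  ∃ η C x0 : ℝ, 0 < η ∧
  ∀ (x : ℝ) (A : ℕ → ℕ → ℤ) (b : ℕ → ℤ) (M N R S : ℕ) (P : Finset (ℕ × ℕ)) (f g : ℕ → ℂ), x0 ≤ x →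
  Blk δ κ ε x M N R S → x ^ (1 / 2 - sg δ κ ε) ≤ (N : ℝ) → Pr A b R S (x ^ κ0) P →
  (∀ m, ‖f m‖ ≤ 1) → (∀ n, ‖g n‖ ≤ 1) →
  ∑ w ∈ P, ‖∑ m ∈ Ioc M (2 * M), ∑ n ∈ Ioc N (2 * N), f m * g n * Dl (A w.1 w.2) w.1 w.2 (m * n)‖ ≤ C * x ^ (1 - η)

/-- Module Bdr (theorem tBdr; all blocks). Uses: BboStmt, BbtStmt. MODEL: Lib/MQ/Bdr.lean.
Proof. As there without κ1. New: finer blocks in s, since Pr needs 2 s ≤ 3 S. Let l = Nat.log 2 (s - 1), 2^l < s ≤ 2^(l+1), s ≥ 3 (x large), l ≥ 1. If 2 s ≤ 3 · 2^l put S = 2^l, β = 0; otherwise S = 3 · 2^(l-1), β = 1: S < s, 2 s ≤ 4 · 2^l ≤ 3 S, s ≤ 2 S. The number of the block: (Nat.log 2 (r - 1), 2 l + β, ..) in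
range (2 J) × range (2 J) × range (2 J) (a factor 8). S is a function of 2 l + β. The block lemma of the MODEL needs only S < s ≤ 2 S. The second part of ML.Pr A b R S z 1 P (p ≤ 1) is empty (no prime is ≤ 1). -/
def BdrStmt : Prop := ∀ δ τ κ ω ε κ0 : ℝ, Par δ 0 κ ε → 8 * δ + 5 * κ + 20 * ε ≤ ω →
  0 < κ0 → κ0 < κ → ∃ η C x0 : ℝ, 0 < η ∧
  ∀ (x : ℝ) (a : ℕ → ℤ) (M N : ℕ) (f g : ℕ → ℂ) (G : Finset ℕ) (t u : ℕ → ℕ), x0 ≤ x → N ≤ M →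
  x ^ ((1 : ℝ) / 3 - ε) ≤ N →
  x ^ (1 - ε) ≤ (M : ℝ) * N → (M : ℝ) * N ≤ x → (∀ m, ‖f m‖ ≤ 1) → (∀ n, ‖g n‖ ≤ 1) →
  (∀ q ∈ G, MQ.Mt (1 / 2 + δ) τ κ0 x (t q) q ∧ Int.gcd (a q) q = 1 ∧ x ^ (1 / 2 - ε / 2) < (q : ℝ) ∧
    MQ.Dv κ ω x (N * x ^ (-ε)) t u q) →
  (∀ q ∈ G, ∀ q' ∈ G, t q * u q = t q' * u q' → t q = t q' ∧ ((t q * u q : ℕ) : ℤ) ∣ a q - a q') →
  ∑ q ∈ G, ‖∑ m ∈ Ioc M (2 * M), ∑ n ∈ Ioc N (2 * N),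
      f m * g n * Dl (a q) (t q * u q) (q / (t q * u q)) (m * n)‖ ≤ C * x ^ (1 - η)

/-- Module Bds (theorem tBds). Uses: BdrStmt, MK.FspStmt, MI.BtaStmt. MODEL: Lib/MQ/Bds.lean. -/
def BdsStmt : Prop := ∀ δ τ κ ω ε κ0 : ℝ, Par δ 0 κ ε → 8 * δ + 5 * κ + 20 * ε ≤ ω →
  0 < κ0 → κ0 < κ → ∃ η C x0 : ℝ, 0 < η ∧
  ∀ (x : ℝ) (a : ℕ → ℤ) (M N : ℕ) (f g : ℕ → ℂ) (F : Finset ℕ) (t u : ℕ → ℕ), x0 ≤ x → N ≤ M →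
  x ^ ((1 : ℝ) / 3 - ε) ≤ N →
  x ^ (1 - ε) ≤ (M : ℝ) * N → (M : ℝ) * N ≤ x → (∀ m, ‖f m‖ ≤ 1) → (∀ n, ‖g n‖ ≤ 1) →
  (∀ q ∈ F, MQ.Mt (1 / 2 + δ) τ κ0 x (t q) q ∧ Int.gcd (a q) q = 1 ∧ x ^ (1 / 2 - ε / 2) < (q : ℝ) ∧
    MQ.Dv κ ω x (N * x ^ (-ε)) t u q) →
  (∀ q ∈ F, ∀ q' ∈ F, t q = t q' → u q = u q' → ((t q * u q : ℕ) : ℤ) ∣ a q - a q') →
  ∑ q ∈ F, ‖∑ m ∈ Ioc M (2 * M), ∑ n ∈ Ioc N (2 * N),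
      f m * g n * Dl (a q) (t q * u q) (q / (t q * u q)) (m * n)‖ ≤ C * x ^ (1 - η)

/-- Module Bfi (theorem tBfi). STATEMENT BAllStmt (MS/Stm.lean). Uses: BdsStmt, MI.BidStmt, MN.BrmStmt, ML.BlgStmt, MI.LrgStmt, MI.BtaStmt. MODEL: Lib/MQ/Bfi.lean. -/
def BfiStmt : Prop := BAllStmt

end Pool.Agent.Lib.MS
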