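import Pool.Agent.Lib.MS.Stm
import Pool.Agent.Lib.ML.SpecD

/-!
MP_00e23e_nt, directory Lib/MS (THEOREM MI, version 9, architect helper34), chapter D: as in Lib/ML (SpecD), without any
hypothesis on the classes A r s modulo the primes of s. New: the pairs s1, s2 with a common factor e = gcd(s1, s2), z < e ≤ z1,
such that A r s1, A r s2 differ at all primes of e (Inc): s1 = e g1, s2 = e g2; m n1 ≡ A r s1 mod r s1, m n2 ≡ A r s2 mod r s2,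
n2 = n1 + k r means m ≡ ν mod K = r g1 g2 e and n1 ≡ ρ mod e; Fourier transform in m modulo K.
RULES. Module X: file Pool/Agent/Lib/MS/X.lean, first line `import Pool.Agent.Lib.MS.SpecD`, then
`namespace Pool.Agent.Lib.MS` and `open Finset Pool.Agent.Lib.EH3 Pool.Agent.Lib.TB Pool.Agent.Results.MP_00e23e_nt Pool.Agent.Lib.MI`
(MS.Pr, MS.TE, MS.DspStmt, ... win over those of MI; write MI.X, MJ.X, ML.X, MQ.X for the others: ML.Cp, ML.TT, ML.Bd, ...), private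
lemmas with names starting with X_, final theorem `theorem tX (h1 : AStmt) ... : XStmt`; the statements listed under Uses are
hypotheses, in this order. MODEL file: copy it and change it. Basic lemmas: MI/Basic.lean (en_congr, en_add, en_crt, iv_mul_mul,
iv_dvd_dvd, norm_en, ...), TB/Basic.lean (iv_dvd, iv_unique, iv_congr), MS.mem_PE. Never use congr!. Below 60 s.
-/

namespace Pool.Agent.Lib.MS

open Finset Pool.Agent.Lib.EH3 Pool.Agent.Lib.TB Pool.Agent.Results.MP_00e23e_nt Pool.Agent.Lib.MI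

/-- r, g1, g2: the pair s1 = e g1, s2 = e g2, g1, g2 coprime, the classes differ at all primes of e -/
def InE (A : ℕ → ℕ → ℤ) (P : Finset (ℕ × ℕ)) (e r g1 g2 : ℕ) : Prop :=
  (r, e * g1) ∈ P ∧ (r, e * g2) ∈ P ∧ g1.Coprime g2 ∧
    ∀ p : ℕ, p.Prime → p ∣ e → ¬ (p : ℤ) ∣ A r (e * g1) - A r (e * g2)

/-- the pair s1, s2 has a common factor, its gcd is ≤ z1 and the classes differ at all common primes -/
def Inc (A : ℕ → ℕ → ℤ) (P : Finset (ℕ × ℕ)) (z1 : ℝ) (r s1 s2 : ℕ) : Prop :=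
  (r, s1) ∈ P ∧ (r, s2) ∈ P ∧ ¬ s1.Coprime s2 ∧ ((Nat.gcd s1 s2 : ℕ) : ℝ) ≤ z1 ∧
    ∀ p : ℕ, p.Prime → p ∣ s1 → p ∣ s2 → ¬ (p : ℤ) ∣ A r s1 - A r s2

/-- the smoothed correlation of two full indicators -/
noncomputable def Pf (a1 a2 : ℤ) (M q1 q2 n1 n2 : ℕ) : ℂ := Ten M (fun m => dl a1 q1 (m * n1) * dl a2 q2 (m * n2))

/-- the condition on n (n2 = n + k r) -/
def Nc (a ρ : ℕ → ℕ → ℕ → ℤ) (e k r g1 g2 n : ℕ) : Prop :=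
  (k * r).Coprime e ∧ Gd (a r g1 g2) r g1 g2 n (n + k * r) ∧ (e : ℤ) ∣ (n : ℤ) - ρ r g1 g2

open Classical in
/-- the sum over the pairs with gcd e and n2 = n + k r -/
noncomputable def Se (A : ℕ → ℕ → ℤ) (P : Finset (ℕ × ℕ)) (c : ℕ × ℕ → ℂ) (w : ℕ → ℕ → ℂ) (R S M N e k : ℕ) : ℂ :=
  ∑ r ∈ Ioc R (2 * R), ∑ g1 ∈ Ioc (S / e) (2 * (S / e)), ∑ g2 ∈ Ioc (S / e) (2 * (S / e)), ∑ n ∈ Ioc N (2 * N),
    if InE A P e r g1 g2 then c (r, e * g1) * (starRingEnd ℂ) (c (r, e * g2)) * w r n *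
      Pf (A r (e * g1)) (A r (e * g2)) M (r * (e * g1)) (r * (e * g2)) n (n + k * r) else 0

open Classical in
/-- the coefficients of the main part for the common factor e; μ is the class of m modulo e -/
noncomputable def gae (A : ℕ → ℕ → ℤ) (P : Finset (ℕ × ℕ)) (c : ℕ × ℕ → ℂ) (μ : ℕ → ℕ → ℕ → ℤ) (M H e k : ℕ) (h : ℤ)
    (r g1 g2 : ℕ) : ℂ :=
  if h ≠ 0 ∧ |h| ≤ (H : ℤ) ∧ InE A P e r g1 g2 ∧ (k * r).Coprime e then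
    c (r, e * g1) * (starRingEnd ℂ) (c (r, e * g2)) *
      ((1 / ((r * g1 * g2 * e : ℕ) : ℂ)) * Ten M (fun m => en (h * m) (r * g1 * g2 * e))) *
      en (-(h * μ r g1 g2 * (iv (r * g1 * g2) e : ℤ))) e
  else 0

/-- Module Ecq (theorem tEcq; existence of a). Uses: nothing. MODEL: Lib/ML/Ecp.lean.
Proof. For (r, e g1), (r, e g2) ∈ P with g1, g2 coprime: r e g1 and r e g2 are squarefree (Pr), so r, e, g1 are pairwise coprime, r, e, g2 too; r g1 and g2 are coprime. Chinese remainder theorem: x ≡ iv e (r g1) * A r (e g1) mod r g1, x ≡ iv e g2 * A r (e g2) mod g2. Then e x ≡ A r (e g1) mod r g1 (iv_dvd),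
e x ≡ A r (e g2) mod g2, and modulo r: e x ≡ A r (e g1) ≡ b r ≡ A r (e g2) (Pr); r, g2 coprime: e x ≡ A r (e g2) mod r g2. Choice. -/
def EcqStmt : Prop := ∀ (A : ℕ → ℕ → ℤ) (b : ℕ → ℤ) (R S e : ℕ) (z : ℝ) (P : Finset (ℕ × ℕ)), Pr A b R S z P → 1 ≤ e →
  ∃ a : ℕ → ℕ → ℕ → ℤ, CpE P A e a

/-- Module Ect (theorem tEct; number of n in a class). Uses: nothing.
Proof. N = e Q + rest: the n ∈ (N, 2N] in one class modulo e: at most N/e + 1 (they differ by multiples of e, e.g. Int.Ioc_filter_modEq_card or Nat.Ioc_filter_modEq_card, or n ↦ n / e is injective with values in an interval), and N/e + 1 ≤ 2N/e since e ≤ N. -/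
def EctStmt : Prop := ∀ (e N : ℕ) (ρ : ℤ), 1 ≤ e → e ≤ N →
  (((Ioc N (2 * N)).filter (fun n : ℕ => (e : ℤ) ∣ (n : ℤ) - ρ)).card : ℝ) ≤ 2 * (N : ℝ) / e

/-- Module Efo (theorem tEfo; Fourier transform of a class modulo K). Uses: MI.DggStmt. MODEL: Lib/MI/Dta.lean.
Proof. dl ν K m = (1/K) ∑_{h ∈ range K} en (h (m - ν)) K = (1/K) ∑_h en (h m) K * en (-(h ν)) K (geometric series; orth in EH3, see also the proofs of MI/Dfo.lean). G(h) = Ten M (en (h m) K) * en (-(h ν)) K depends only on h mod K; from here on as in the MODEL without the conditions s1 ∤ h, s2 ∤ h. -/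
def EfoStmt : Prop := ∀ (ν : ℤ) (M H K : ℕ), 1 ≤ M → 1 ≤ H → 2 * H < K →
  ‖Ten M (fun m => dl ν K m) - (1 / (K : ℂ)) *
      ∑ h ∈ Icc (-(H : ℤ)) H, Ten M (fun m => en (h * m) K) * en (-(h * ν)) K‖ ≤ 2 * (K : ℝ) / ((M : ℝ) * H)

/-- Module Eph (theorem tEph; the classes ρ, μ, ν and the phase). Uses: MI.DphStmt.
Notation: A1 = A r (e g1), A2 = A r (e g2), a = a r g1 g2, K = r g1 g2 e. By Pr (Squarefree, gcd(A r s, r s) = 1, A r s ≡ b r mod r) for (r, e g1), (r, e g2) ∈ P: r, g1, g2, e are pairwise coprime (g1 ⊥ g2 by InE), A1 is coprime to r e g1, A2 to r e g2, and A2 - A1 is coprime to e (no prime of e divides it).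
Definition of ρ, μ for (r, g1, g2) with InE and k r coprime to e: y an inverse of A2 - A1 modulo e, ρ = A1 (k r) y, μ = (A2 - A1) iv (k r) e; otherwise 0 (choice, or functions of r g1 g2; they must not depend on n).
(1) Nc: n ≡ ρ mod e gives μ n ≡ A1 mod e ((A2 - A1) iv(k r) A1 (k r) y ≡ A1) and μ (n + k r) ≡ A1 + (A2 - A1) = A2 mod e. Gd (a) r g1 g2 n (n + k r) and r ∣ (n + k r) - n: GdC, so MI.DphStmt gives ν0: r g1 ∣ ν0 n - a, r g2 ∣ ν0 (n + k r) - a, en (-(h ν0)) (r g1 g2) = fz a h r g1 g2 n (n + k r).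
ν with ν ≡ e ν0 mod r g1 g2, ν ≡ μ mod e (r g1 g2 ⊥ e). n is coprime to r g1 (Gd) and to e (μ n ≡ A1 is a unit), n + k r is coprime to r g2 and to e. For m: r e g1 ∣ m n - A1 iff [r g1 ∣ m n - A1 and e ∣ m n - A1]; modulo r g1: A1 ≡ e a ≡ e ν0 n (CpE), so iff m ≡ e ν0 mod r g1; modulo e: A1 ≡ μ n, iff m ≡ μ;
similarly r e g2 ∣ m (n + k r) - A2 iff m ≡ e ν0 mod r g2 and m ≡ μ mod e. Together: iff K ∣ m - ν. Phase: en_crt with K = (r g1 g2) e: en (-(h ν)) K = en (-(h ν) iv e (r g1 g2)) (r g1 g2) * en (-(h ν) iv (r g1 g2) e) e, ν iv e ≡ e ν0 iv e ≡ ν0 modulo r g1 g2, ν ≡ μ modulo e.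
(2) not Nc: suppose r e g1 ∣ m n - A1 and r e g2 ∣ m (n + k r) - A2. Then m, n are coprime to r e g1, m, n + k r to r e g2; modulo e: m (k r) ≡ A2 - A1, a unit, so k r is coprime to e; n (A2 - A1) ≡ n m k r ≡ A1 k r, so n ≡ ρ mod e; Gd: squarefree, coprime, gcd(a, r g1) = 1 since e a ≡ A1 mod r g1, gcd(a, r g2) = 1: contradiction to not Nc. -/
def EphStmt : Prop := ∀ (A : ℕ → ℕ → ℤ) (b : ℕ → ℤ) (a : ℕ → ℕ → ℕ → ℤ) (R S e k : ℕ) (z : ℝ) (P : Finset (ℕ × ℕ)),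
  Pr A b R S z P → 1 ≤ e → CpE P A e a → ∃ ρ μ : ℕ → ℕ → ℕ → ℤ, ∀ r g1 g2 n : ℕ, InE A P e r g1 g2 →
    (Nc a ρ e k r g1 g2 n → ∃ ν : ℤ,
      (∀ m : ℕ, dl (A r (e * g1)) (r * (e * g1)) (m * n) * dl (A r (e * g2)) (r * (e * g2)) (m * (n + k * r)) =
        dl ν (r * g1 * g2 * e) m) ∧
      ∀ h : ℤ, en (-(h * ν)) (r * g1 * g2 * e) =
        fz (a r g1 g2) h r g1 g2 n (n + k * r) * en (-(h * μ r g1 g2 * (iv (r * g1 * g2) e : ℤ))) e) ∧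
    (¬ Nc a ρ e k r g1 g2 n →
      ∀ m : ℕ, dl (A r (e * g1)) (r * (e * g1)) (m * n) * dl (A r (e * g2)) (r * (e * g2)) (m * (n + k * r)) = 0)

/-- Module Eit (theorem tEit; one tuple). Uses: EfoStmt, EphStmt.
Proof. ρ, μ of Eph. K = r g1 g2 e ≥ r > R > 2H (the factors are ≥ 1: Squarefree numbers). Nc: Pf = Ten M (dl ν K) (Eph), Efo, and replace en (-(h ν)) K by Eph. Not Nc: Ten M 0 = 0. -/
def EitStmt : Prop := ∀ (A : ℕ → ℕ → ℤ) (b : ℕ → ℤ) (a : ℕ → ℕ → ℕ → ℤ) (R S M H e k : ℕ) (z : ℝ) (P : Finset (ℕ × ℕ)),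
  Pr A b R S z P → 1 ≤ e → CpE P A e a → 1 ≤ M → 1 ≤ H → 2 * H < R →
  ∃ ρ μ : ℕ → ℕ → ℕ → ℤ, ∀ r g1 g2 n : ℕ, InE A P e r g1 g2 →
    (Nc a ρ e k r g1 g2 n →
      ‖Pf (A r (e * g1)) (A r (e * g2)) M (r * (e * g1)) (r * (e * g2)) n (n + k * r) -
        (1 / ((r * g1 * g2 * e : ℕ) : ℂ)) * ∑ h ∈ Icc (-(H : ℤ)) H, Ten M (fun m => en (h * m) (r * g1 * g2 * e)) *
          (fz (a r g1 g2) h r g1 g2 n (n + k * r) * en (-(h * μ r g1 g2 * (iv (r * g1 * g2) e : ℤ))) e)‖ ≤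
        2 * ((r : ℝ) * g1 * g2 * e) / ((M : ℝ) * H)) ∧
    (¬ Nc a ρ e k r g1 g2 n →
      Pf (A r (e * g1)) (A r (e * g2)) M (r * (e * g1)) (r * (e * g2)) n (n + k * r) = 0)

/-- Module Egc (theorem tEgc; the coefficients are admissible). Uses: MI.DggStmt. MODEL: Lib/MI/Dco.lean.
Proof. gae at h = 0 is 0. gae ≠ 0: InE gives (r, e g1), (r, e g2) ∈ P, so (r, g_i) ∈ PE P e (mem_PE). Norm, K = r g1 g2 e, G = S/e (natural division), M' = M/e + 1: by Pr S < e g_i ≤ 3S/2, R < r ≤ 2R, so K ≥ R (S/e)^2 e and K ≤ 2R (3S/(2e))^2 e = (9/2) R S^2/e (real division); G ≤ S/e,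
G > S/e - 1 ≥ (3/4) S/e (4e ≤ S), M/e < M' ≤ M/e + 1 ≤ 2M/e (e ≤ M). 2|h| ≤ 2H < R ≤ K. (i) ‖gae‖ ≤ 4M/K ≤ 4 (M/e)/(R (S/e)^2) ≤ 4 M'/(R G^2). (ii) ‖gae‖ ≤ K/(M h^2) ≤ (9/2) R S^2/(e M h^2) ≤ 18 R S^2/(e M h^2) = 64 R (9/16) (S/e)^2/((2M/e) h^2) ≤ 64 R G^2/(M' h^2)
= (4 M'/(R G^2)) (4 R G^2/(M' |h|))^2. -/
def EgcStmt : Prop := ∀ (A : ℕ → ℕ → ℤ) (b : ℕ → ℤ) (R S M H e k : ℕ) (z : ℝ) (P : Finset (ℕ × ℕ)) (c : ℕ × ℕ → ℂ)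
    (μ : ℕ → ℕ → ℕ → ℤ), Pr A b R S z P → 1 ≤ e → 4 * e ≤ S → e ≤ M → 1 ≤ R → 1 ≤ M → 2 * H < R → (∀ u, ‖c u‖ ≤ 1) →
  Cf (PE P e) R (S / e) (M / e + 1) (gae A P c μ M H e k)

/-- Module Ein (theorem tEin; fixed e and k). Uses: EctStmt, MI.DggStmt, EitStmt, EgcStmt.
Proof. ρ, μ of Eit. In Se only the (r, g1, g2, n) with InE and Nc contribute; replace Pf by (1/K) ∑_h .. with an error ≤ 2K/(M H). (i) h ≠ 0: the sum over all tuples is exactly ∑_{h ∈ Icc (-H) H} TE a ρ e h k R (S/e) N (gae A P c μ M H e k h) w (gae contains InE, k r ⊥ e and h ≠ 0; TE contains Gd and e ∣ n - ρ), norm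
≤ B'/e by the hypothesis and Egc. (ii) h = 0: en 0 = 1, fz with h = 0 is 1; ‖(1/K) Ten M (1)‖ ≤ 4M/K (Dgg), K ≥ R (S/e)^2 e = R S^2/e (real; e g_i > S, r > R). Number of tuples: r: R, g_i: S/e ≤ S/e (real) values each, n: ≤ 2N/e (Ect): total ≤ R (S/e)^2 (2N/e) 4M e/(R S^2) = 8 M N/e^2.
(iii) the errors: 2K/(M H) ≤ 2 · (2R)(2S/e)^2 e/(M H) = 16 R S^2/(e M H); total ≤ R (S/e)^2 (2N/e) 16 R S^2/(e M H) = 32 R^2 S^4 N/(M H e^4). -/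
def EinStmt : Prop := ∀ (z B' : ℝ) (A : ℕ → ℕ → ℤ) (b : ℕ → ℤ) (a : ℕ → ℕ → ℕ → ℤ) (R S M N H e k : ℕ)
    (P : Finset (ℕ × ℕ)) (c : ℕ × ℕ → ℂ) (w : ℕ → ℕ → ℂ), Pr A b R S z P → 1 ≤ e → 4 * e ≤ S → e ≤ N → e ≤ M →
  1 ≤ R → 1 ≤ M → 1 ≤ H → 2 * H < R → CpE P A e a → (∀ u, ‖c u‖ ≤ 1) → (∀ r n, ‖w r n‖ ≤ 1) →
  (∀ (ρ : ℕ → ℕ → ℕ → ℤ) (γ : ℤ → ℕ → ℕ → ℕ → ℂ) (ω : ℕ → ℕ → ℂ), Cf (PE P e) R (S / e) (M / e + 1) γ →
    (∀ r n, ‖ω r n‖ ≤ 1) → ‖∑ h ∈ Icc (-(H : ℤ)) H, TE a ρ e h k R (S / e) N (γ h) ω‖ ≤ B' / e) →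
  ‖Se A P c w R S M N e k‖ ≤
    B' / e + 8 * ((M : ℝ) * N) / (e : ℝ) ^ 2 + 64 * ((R : ℝ) ^ 2 * (S : ℝ) ^ 4 * N) / ((M : ℝ) * H * (e : ℝ) ^ 4)

open Classical in
/-- the weights n2 = n + k r for the first and the second order of n1, n2 -/
noncomputable def wk (β : ℕ → ℂ) (N k r n : ℕ) : ℂ :=
  if n + k * r ≤ 2 * N then β n * (starRingEnd ℂ) (β (n + k * r)) else 0
open Classical in
noncomputable def wk' (β : ℕ → ℂ) (N k r n : ℕ) : ℂ :=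
  if n + k * r ≤ 2 * N then β (n + k * r) * (starRingEnd ℂ) (β n) else 0

open Classical in
/-- Module Eir (theorem tEir; the sum over e and k). Uses: MI.DspnStmt.
Proof. (1) For (s1, s2) with Inc put e = gcd(s1, s2), s_i = e g_i, g1, g2 coprime. e ≠ 1 has a prime factor p, p ∣ s1, so p > z (Pr) and e > z; e ≤ z1 ≤ S/4. S < e g_i ≤ 3S/2 gives S/e < g_i ≤ 2 (S/e) (natural division: e (S/e) ≤ S < e g_i, and e (S/e) > S - e ≥ (3/4) S, so 2 e (S/e) > (3/2) S ≥ e g_i). InE A P e r g1 g2.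
Conversely for e with z < e ≤ z1 (z ≥ 1) and InE A P e r g1 g2: Inc A P z1 r (e g1) (e g2) (gcd(e g1, e g2) = e, a common prime of e g1 and e g2 divides e). So ∑_{s1,s2} [Inc] F s1 s2 = ∑_e ∑_{g1,g2} [InE] F (e g1) (e g2) (bijection). (2) For fixed r, e, g1, g2: Pf .. n1 n2 = 0 unless r ∣ n2 - n1: a nonzero term of Ten has
r ∣ m n1 - A1, r ∣ m n2 - A2, A1 ≡ b r ≡ A2 mod r and m coprime to r (gcd(A1, r) = 1). So insert the condition (r : ℤ) ∣ n2 - n1 and apply MI.DspnStmt (norm_add_le, then sum over k outside). First part: c c̄ wk Pf .. n (n + k r): Se A P c (wk β N k). Second part: Pf (A r (e g1)) (A r (e g2)) M .. (n + k r) n with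
β (n + k r) conj (β n); exchange the names of g1, g2 (InE is symmetric, Pf a2 a1 M q2 q1 n2 n1 = Pf a1 a2 M q1 q2 n1 n2): it is Se A P (conj ∘ c) (wk' β N k). -/
def EirStmt : Prop := ∀ (z z1 : ℝ) (A : ℕ → ℕ → ℤ) (b : ℕ → ℤ) (R S M N : ℕ) (P : Finset (ℕ × ℕ)) (β : ℕ → ℂ)
    (c : ℕ × ℕ → ℂ), Pr A b R S z P → 1 ≤ z → 4 * z1 ≤ S → 1 ≤ R →
  ‖∑ r ∈ Ioc R (2 * R), ∑ s1 ∈ Ioc S (2 * S), ∑ s2 ∈ Ioc S (2 * S), ∑ n1 ∈ Ioc N (2 * N), ∑ n2 ∈ Ioc N (2 * N),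
      (if Inc A P z1 r s1 s2 then c (r, s1) * (starRingEnd ℂ) (c (r, s2)) * (β n1 * (starRingEnd ℂ) (β n2)) *
        Pf (A r s1) (A r s2) M (r * s1) (r * s2) n1 n2 else 0)‖ ≤
    ∑ e ∈ (Icc 1 S).filter (fun e : ℕ => z < e ∧ (e : ℝ) ≤ z1),
      (∑ k ∈ range (N / R + 1), ‖Se A P c (wk β N k) R S M N e k‖ +
        ∑ k ∈ Icc 1 (N / R), ‖Se A P (fun u => (starRingEnd ℂ) (c u)) (wk' β N k) R S M N e k‖)

open Classical in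
/-- Module Eis (theorem tEis; the pairs with Inc). Uses: EcqStmt, EinStmt, EirStmt.
Proof. Eir; for every e choose a with CpE (Ecq) and apply Ein (4e ≤ 4 z1 ≤ S, e ≤ S ≤ N ≤ M; ‖wk‖, ‖wk'‖ ≤ 1). Number of k: (N/R + 1) + N/R ≤ 4N/R (real; R ≤ N). ∑_{z < e ≤ z1} 1/e ≤ 1 + log S ≤ T (e ≤ S ≤ X; harmonic_le_one_add_log), ∑_{e > z} 1/e^2 ≤ 2/z (z ≥ 1; 1/e^2 ≤ 1/(e-1) - 1/e for e ≥ 2), ∑ 1/e^4 ≤ ∑ 1/e^2 ≤ 2. -/
def EisStmt : Prop := ∀ (X T z z1 B' : ℝ) (A : ℕ → ℕ → ℤ) (b : ℕ → ℤ) (R S M N H : ℕ) (P : Finset (ℕ × ℕ)) (β : ℕ → ℂ)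
    (c : ℕ × ℕ → ℂ), Tau X T → 1 ≤ z → 1 ≤ z1 → 4 * z1 ≤ S → 0 ≤ B' → 1 ≤ R → 1 ≤ N → N ≤ M → 8 ≤ M → 1 ≤ H → R ≤ N →
  2 * S ≤ N → 2 * H < R → (S : ℝ) ≤ X → Pr A b R S z P → (∀ n, ‖β n‖ ≤ 1) → (∀ u, ‖c u‖ ≤ 1) →
  (∀ (e : ℕ) (a ρ : ℕ → ℕ → ℕ → ℤ), z < e → (e : ℝ) ≤ z1 → CpE P A e a →
    ∀ (k : ℕ) (γ : ℤ → ℕ → ℕ → ℕ → ℂ) (ω : ℕ → ℕ → ℂ), Cf (PE P e) R (S / e) (M / e + 1) γ →
    (∀ r n, ‖ω r n‖ ≤ 1) → ‖∑ h ∈ Icc (-(H : ℤ)) H, TE a ρ e h k R (S / e) N (γ h) ω‖ ≤ B' / e) →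
  ‖∑ r ∈ Ioc R (2 * R), ∑ s1 ∈ Ioc S (2 * S), ∑ s2 ∈ Ioc S (2 * S), ∑ n1 ∈ Ioc N (2 * N), ∑ n2 ∈ Ioc N (2 * N),
      (if Inc A P z1 r s1 s2 then c (r, s1) * (starRingEnd ℂ) (c (r, s2)) * (β n1 * (starRingEnd ℂ) (β n2)) *
        Pf (A r s1) (A r s2) M (r * s1) (r * s2) n1 n2 else 0)‖ ≤
    4 * N / R * (T * B' + 16 * ((M : ℝ) * N) / z + 128 * ((R : ℝ) ^ 2 * (S : ℝ) ^ 4 * N) / ((M : ℝ) * H))

open Classical in
/-- the bad tuples, without the pairs with Inc in the full-full part -/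
noncomputable def Db (A : ℕ → ℕ → ℤ) (P : Finset (ℕ × ℕ)) (z1 : ℝ) (r s1 s2 n1 n2 m : ℕ) : ℝ :=
  (if Inc A P z1 r s1 s2 then 0 else D1 (A r s1) r s1 (m * n1) * D1 (A r s2) r s2 (m * n2)) +
    D1 (A r s1) r s1 (m * n1) * D2 (A r s2) r s2 (m * n2) + D2 (A r s1) r s1 (m * n1) * D1 (A r s2) r s2 (m * n2) +
    D2 (A r s1) r s1 (m * n1) * D2 (A r s2) r s2 (m * n2)

open Classical in
/-- Module Dey (theorem tDey; opening the square). Uses: nothing. MODEL: Lib/ML/Dex.lean.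
Proof. As there the left side is the sum over all tuples of c c̄ β β̄ Ph2 (ML.Ph2 (A r s1) (A r s2) M r s1 s2 n1 n2). GdC: as there (Inc is false: s1, s2 coprime). Not GdC and c (r,s1) ≠ 0 ≠ c (r,s2): ML.Bd. Dl = dl a (r s) - (1/s) dl a r, ‖dl a (r s) t‖ = D1 a r s t, ‖(1/s) dl a r t‖ = D2 a r s t. If Inc: Ph2 = Pf + Ten M (the
three other products), and ‖Ten M (three other products)‖ ≤ TR M (Db); not Inc: ‖Ph2‖ ≤ TR M (Db). A tuple with Inc is always Bd (s1, s2 not coprime, so not GdC). -/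
def DeyStmt : Prop := ∀ (z1 : ℝ) (A : ℕ → ℕ → ℤ) (a : ℕ → ℕ → ℕ → ℤ) (R S M N : ℕ) (P : Finset (ℕ × ℕ)) (β : ℕ → ℂ)
    (c : ℕ × ℕ → ℂ), 8 ≤ M → ML.Cp P A a → (∀ n, ‖β n‖ ≤ 1) → (∀ w, ‖c w‖ ≤ 1) → (∀ w, w ∉ P → c w = 0) →
  ∑ r ∈ Ioc R (2 * R), TR M (fun m =>
      ‖∑ s ∈ Ioc S (2 * S), c (r, s) * ∑ n ∈ Ioc N (2 * N), β n * Dl (A r s) r s (m * n)‖ ^ 2) ≤
    ‖∑ r ∈ Ioc R (2 * R), ∑ s1 ∈ Ioc S (2 * S), ∑ s2 ∈ Ioc S (2 * S), ∑ n1 ∈ Ioc N (2 * N), ∑ n2 ∈ Ioc N (2 * N),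
      (if GdC (a r s1 s2) r s1 s2 n1 n2 then
        c (r, s1) * (starRingEnd ℂ) (c (r, s2)) * (β n1 * (starRingEnd ℂ) (β n2)) * Ph (a r s1 s2) M r s1 s2 n1 n2
        else 0)‖ +
    ‖∑ r ∈ Ioc R (2 * R), ∑ s1 ∈ Ioc S (2 * S), ∑ s2 ∈ Ioc S (2 * S), ∑ n1 ∈ Ioc N (2 * N), ∑ n2 ∈ Ioc N (2 * N),
      (if Inc A P z1 r s1 s2 then c (r, s1) * (starRingEnd ℂ) (c (r, s2)) * (β n1 * (starRingEnd ℂ) (β n2)) *
        Pf (A r s1) (A r s2) M (r * s1) (r * s2) n1 n2 else 0)‖ +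
    ∑ r ∈ Ioc R (2 * R), ∑ s1 ∈ Ioc S (2 * S), ∑ s2 ∈ Ioc S (2 * S), ∑ n1 ∈ Ioc N (2 * N), ∑ n2 ∈ Ioc N (2 * N),
      (if ML.Bd a P r s1 s2 n1 n2 then TR M (fun m => Db A P z1 r s1 s2 n1 n2 m) else 0)

open Classical in
/-- Module Eqe (theorem tEqe; gcd > z1, the classes differ at all common primes). Uses: nothing. MODEL: Lib/ML/Eeq.lean.
Proof. As there: e = gcd(s1, s2) > z1 ≥ 1 is now a hypothesis (in the MODEL it followed from Pr), e > z since a prime factor of e is > z. -/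
def EqeStmt : Prop := ∀ (X T z z1 : ℝ) (A : ℕ → ℕ → ℤ) (b : ℕ → ℤ) (R S M N : ℕ) (P : Finset (ℕ × ℕ)),
  MJ.Sz X T z R S M N → 1 ≤ z1 → 2 * S ≤ N → ML.Pr A b R S z 1 P →
  ∑ m ∈ Icc (M / 2) (3 * M), ∑ r ∈ Ioc R (2 * R), ∑ s1 ∈ Ioc S (2 * S), ∑ s2 ∈ Ioc S (2 * S),
    ∑ n1 ∈ Ioc N (2 * N), ∑ n2 ∈ Ioc N (2 * N),
      (if (r, s1) ∈ P ∧ (r, s2) ∈ P ∧ z1 < ((Nat.gcd s1 s2 : ℕ) : ℝ) ∧
          (∀ p : ℕ, p.Prime → p ∣ s1 → p ∣ s2 → ¬ (p : ℤ) ∣ A r s1 - A r s2) then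
        D1 (A r s1) r s1 (m * n1) * D1 (A r s2) r s2 (m * n2) else 0) ≤
    100 * ((M : ℝ) * N * (N / ((R : ℝ) * z)) + (N : ℝ) ^ 2 * (S : ℝ) ^ 2 / z1 ^ 2)

open Classical in
/-- Module Eda (theorem tEda; both full, not Inc). Uses: ML.EepStmt, EqeStmt. MODEL: Lib/ML/Eea.lean.
Proof. As there s1, s2 are not coprime in a nonzero bad term. Either some common prime p divides A r s1 - A r s2 (ML.EepStmt with z1 := 1), or not, and then gcd(s1, s2) > z1 since Inc is false (EqeStmt). -/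
def EdaStmt : Prop := ∀ (X T z z1 : ℝ) (A : ℕ → ℕ → ℤ) (b : ℕ → ℤ) (a : ℕ → ℕ → ℕ → ℤ) (R S M N : ℕ)
    (P : Finset (ℕ × ℕ)), MJ.Sz X T z R S M N → 1 ≤ z1 → 2 * S ≤ N → ML.Pr A b R S z 1 P → ML.Cp P A a →
  ∑ m ∈ Icc (M / 2) (3 * M), ∑ r ∈ Ioc R (2 * R), ∑ s1 ∈ Ioc S (2 * S), ∑ s2 ∈ Ioc S (2 * S),
    ∑ n1 ∈ Ioc N (2 * N), ∑ n2 ∈ Ioc N (2 * N),
      (if ML.Bd a P r s1 s2 n1 n2 then (if Inc A P z1 r s1 s2 then 0 else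
        D1 (A r s1) r s1 (m * n1) * D1 (A r s2) r s2 (m * n2)) else 0) ≤
    160 * T ^ 5 * ((M : ℝ) * N * (1 + N / ((R : ℝ) * z)) + (N : ℝ) ^ 2 * (S : ℝ) ^ 2 / z1 ^ 2)

open Classical in
/-- Module Edb (theorem tEdb). Uses: MI.DtrStmt, EdaStmt, ML.EebStmt, ML.EecStmt. MODEL: Lib/ML/Eba.lean.
Proof. TR M (Db) ≤ 4 ∑_{m ∈ Icc (M/2) (3M)} Db (Dtr), then as in the MODEL (ML.EebStmt, ML.EecStmt with z1 := 1). 4 (160 + 14 + 14 + 42) = 920. -/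
def EdbStmt : Prop := ∀ (X T z z1 : ℝ) (A : ℕ → ℕ → ℤ) (b : ℕ → ℤ) (a : ℕ → ℕ → ℕ → ℤ) (R S M N : ℕ)
    (P : Finset (ℕ × ℕ)), MJ.Sz X T z R S M N → 1 ≤ z1 → 2 * S ≤ N → ML.Pr A b R S z 1 P → ML.Cp P A a →
  ∑ r ∈ Ioc R (2 * R), ∑ s1 ∈ Ioc S (2 * S), ∑ s2 ∈ Ioc S (2 * S), ∑ n1 ∈ Ioc N (2 * N), ∑ n2 ∈ Ioc N (2 * N),
      (if ML.Bd a P r s1 s2 n1 n2 then TR M (fun m => Db A P z1 r s1 s2 n1 n2 m) else 0) ≤
    1000 * T ^ 5 * ((M : ℝ) * N * (1 + N / ((R : ℝ) * z)) + (N : ℝ) ^ 2 * (S : ℝ) ^ 2 / z1 ^ 2)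

/-- Module Efi (theorem tEfi). STATEMENT DspStmt (MS/Stm.lean). Uses: ML.EcpStmt, ML.DcaStmt, DeyStmt, EdbStmt, ML.DgoStmt, EisStmt. MODEL: Lib/ML/Efi.lean.
Proof. As there: the square is ≤ R M (4N/R B + 32 R S^4 N^2/(M H) + 4N/R (T B' + 16 M N/z + 128 R^2 S^4 N/(M H)) + 1000 T^5 (M N (1 + N/(R z)) + N^2 S^2/z1^2)) = 4 M N B + 32 R^2 S^4 N^2/H + 4 T M N B' + 64 M^2 N^2/z + 512 R^2 S^4 N^2/H + 1000 T^5 (..). C = 2000, A0 = 5. 1 ≤ S from 4 z1 ≤ S; S ≤ X from 100 M^2 N^2 R^2 S^4 ≤ X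
(all ≥ 1). -/
def EfiStmt : Prop := DspStmt

end Pool.Agent.Lib.MS
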