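import Pool.Agent.Lib.MS.SpecD

/-!
MP_00e23e_nt, directory Lib/MS (THEOREM MI, version 9, architect helper34), chapter T: Type I and Type II sums with n restricted
to one class ρ r s1 s2 modulo e (TE of MS/Stm.lean).
RULES. Module X: file Pool/Agent/Lib/MS/X.lean, first line `import Pool.Agent.Lib.MS.SpecT`, then
`namespace Pool.Agent.Lib.MS` and `open Finset Pool.Agent.Lib.EH3 Pool.Agent.Lib.TB Pool.Agent.Results.MP_00e23e_nt Pool.Agent.Lib.MI`
(MS.TE, ... win over those of MI; write MI.X, ML.X for the others: ML.TT, ML.T1Stmt, ...), private lemmas with names starting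
with X_, final theorem `theorem tX (h1 : AStmt) ... : XStmt`; the statements listed under Uses are hypotheses, in this order.
MODEL file: copy it and change it. Never use congr!. Below 60 s.
-/

namespace Pool.Agent.Lib.MS

open Finset Pool.Agent.Lib.EH3 Pool.Agent.Lib.TB Pool.Agent.Results.MP_00e23e_nt Pool.Agent.Lib.MI

/-- Module Tad (theorem tTad; additive characters modulo e). Uses: nothing.
Proof. 1(e ∣ n - ρ) = (1/e) ∑_{j < e} en (j (n - ρ)) e = (1/e) ∑_j en (-(j ρ)) e * en (j n) e (geometric series; orth in EH3), and en (j n) e depends on n only, en (-(j ρ r s1 s2)) e on (r, s1, s2). Insert this into TE and exchange the sums. -/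
def TadStmt : Prop := ∀ (a ρ : ℕ → ℕ → ℕ → ℤ) (e : ℕ) (h : ℤ) (k R S N : ℕ) (γ : ℕ → ℕ → ℕ → ℂ) (ω : ℕ → ℕ → ℂ),
  1 ≤ e → TE a ρ e h k R S N γ ω = (1 / (e : ℂ)) * ∑ j ∈ range e,
    ML.TT a h k R S N (fun r s1 s2 => γ r s1 s2 * en (-(j * ρ r s1 s2)) e) (fun r n => ω r n * en (j * n) e)

/-- Module T1e (theorem tT1e). STATEMENT T1eStmt (MS/Stm.lean). Uses: ML.T1Stmt, TadStmt.
Proof. For γ h r s1 s2 ≠ 0 let i = i(s1) be the natural number with 2^i V < v s1 ≤ 2^(i+1) V (i = Nat.log 2 ((v s1 - 1)/V)); 2^i V < v s1 ≤ 4 e V gives 2^i < 4e, i < I = Nat.log 2 (4e) + 1 ≤ 2T (log 2 ≥ 0.69, 1 + log (4e) ≤ 1 + log X ≤ T). For j < e, i < I put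
γ_{j,i} h r s1 s2 = γ h r s1 s2 * en (-(j ρ r s1 s2)) e if γ ≠ 0 and i(s1) = i, 0 otherwise, ω_j r n = ω r n * en (j n) e. By Tad ∑_h TE = (1/e) ∑_j ∑_i ∑_h ML.TT (γ_{j,i} h) ω_j (ML.TT is additive in γ). ML.T1Stmt with V := 2^i V (2 ≤ 2^i V; 100 R^2 S^4 N^2 (2^i V)^2 H^2 L^2 ≤ 1600 e^2 R^2 S^4 N^2 V^2 H^2 L^2 ≤ X)
for each (j,i): the square is ≤ C T^A (R S^2 N)^2 Q_i, Q_i ≤ Q = the bracket of T1eStmt: 1/(2^i V) ≤ 1/V, S/(2^i V H) ≤ S/(V H), L 2^i V ≥ L V, L' 2^i V ≤ 4 e L' V. So ‖∑_h TE‖ ≤ (1/e) e I (C T^A (R S^2 N)^2 Q)^(1/2), the square is ≤ 4 T^2 C T^A (R S^2 N)^2 Q. -/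
def T1eS : Prop := T1eStmt

/-- Module T2e (theorem tT2e). STATEMENT T2eStmt (MS/Stm.lean). Uses: TV.VsqStmt, EctStmt. MODEL: Lib/ML/T2d.lean (import Lib/MI/T2d.lean, see there).
Proof. The kernel of a triple is now γ * [e ∣ n - ρ r s1 s2] * t2K. Correlation of two triples: the factor [e ∣ n - ρ] [e ∣ n - ρ'] is periodic in n modulo e; apply t2_inner with the modulus W := e * (s1 s2 (s1' s2')) in place of s1 s2 (s1' s2') (e is coprime to r by the last hypothesis; W ≤ 16 e S^4): the correlation is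
≤ T N gcd(t2T, r)/R + 91 T^2 e S^4 R^(1/2). If t2D = 0: the trivial bound is the number of n ∈ Ioc N 2N with e ∣ n - ρ, ≤ 2N/e (Ect). So the sum over r of all correlations is ≤ 2 H S^2 T^2 (R 2N/e) + (2 H S^2)^2 (2 T^2 N + 91 T^2 e S^4 R R^(1/2)), times R N. C = 364, A0 = 2. -/
def T2eS : Prop := T2eStmt

end Pool.Agent.Lib.MS
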