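import Pool.Agent.Lib.MQ.SpecA

/-!
MP_00e23e_nt, directory Lib/MS (architect helper34; THEOREM MI, version 9): as version 8 (Lib/MQ), but the class modulo d is
arbitrary apart from the class modulo r = t d * v Z d (which depends on t and r): no condition on the classes modulo the primes
of d/r, no parameter κ1. In the dispersion the pairs s1, s2 with a common factor e > z at whose primes the classes differ are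
treated as the coprime pairs g1 = s1/e, g2 = s2/e, with n restricted to one class modulo e.
-/

namespace Pool.Agent.Lib.MS

open Finset Pool.Agent.Lib.EH3 Pool.Agent.Lib.TB Pool.Agent.Results.MP_00e23e_nt Pool.Agent.Lib.MI

open Classical in
/-- the sums of the dispersion ML.TT with n restricted to the class ρ r s1 s2 modulo e -/
noncomputable def TE (a : ℕ → ℕ → ℕ → ℤ) (ρ : ℕ → ℕ → ℕ → ℤ) (e : ℕ) (h : ℤ) (k R S N : ℕ) (γ : ℕ → ℕ → ℕ → ℂ)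
    (ω : ℕ → ℕ → ℂ) : ℂ :=
  ∑ r ∈ Ioc R (2 * R), ∑ s1 ∈ Ioc S (2 * S), ∑ s2 ∈ Ioc S (2 * S), γ r s1 s2 *
    ∑ n ∈ Ioc N (2 * N), if Gd (a r s1 s2) r s1 s2 n (n + k * r) ∧ (e : ℤ) ∣ (n : ℤ) - ρ r s1 s2 then
      ω r n * fz (a r s1 s2) h r s1 s2 n (n + k * r) else 0

/-- the pairs (r, g) with (r, e g) ∈ P -/
def PE (P : Finset (ℕ × ℕ)) (e : ℕ) : Finset (ℕ × ℕ) :=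
  (P.image (fun w => (w.1, w.2 / e))).filter (fun w => (w.1, e * w.2) ∈ P)

lemma mem_PE {P : Finset (ℕ × ℕ)} {e : ℕ} (he : 1 ≤ e) {w : ℕ × ℕ} : w ∈ PE P e ↔ (w.1, e * w.2) ∈ P := by
  unfold PE
  rw [mem_filter, mem_image]
  refine ⟨fun h => h.2, fun h => ⟨⟨_, h, ?_⟩, h⟩⟩
  ext
  · rfl
  · exact Nat.mul_div_cancel_left _ he

/-- the pairs (r, s) of the dispersion and the classes A r s modulo r s: modulo r they are b r; all primes of s are > z;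
S < s ≤ 3S/2 -/
def Pr (A : ℕ → ℕ → ℤ) (b : ℕ → ℤ) (R S : ℕ) (z : ℝ) (P : Finset (ℕ × ℕ)) : Prop :=
  ML.Pr A b R S z 1 P ∧ ∀ w ∈ P, 2 * w.2 ≤ 3 * S

/-- e * a r g1 g2 is in the classes A r (e g1) modulo r g1 and A r (e g2) modulo r g2 -/
def CpE (P : Finset (ℕ × ℕ)) (A : ℕ → ℕ → ℤ) (e : ℕ) (a : ℕ → ℕ → ℕ → ℤ) : Prop :=
  ∀ r g1 g2 : ℕ, (r, e * g1) ∈ P → (r, e * g2) ∈ P → g1.Coprime g2 →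
    ((r * g1 : ℕ) : ℤ) ∣ (e : ℤ) * a r g1 g2 - A r (e * g1) ∧ ((r * g2 : ℕ) : ℤ) ∣ (e : ℤ) * a r g1 g2 - A r (e * g2)

/-- Chapter T. Type I, n in one class modulo e. -/
def T1eStmt : Prop := ∃ C : ℝ, 0 < C ∧ ∃ A0 : ℕ, ∀ (X T : ℝ) (a : ℕ → ℕ → ℕ → ℤ) (A : ℕ → ℕ → ℤ) (ρ : ℕ → ℕ → ℕ → ℤ)
    (e k R S N H V L L' : ℕ) (r0 v : ℕ → ℕ)
    (Hs : Finset ℤ) (γ : ℤ → ℕ → ℕ → ℕ → ℂ) (ω : ℕ → ℕ → ℂ), Tau X T → 1 ≤ e → 1 ≤ R → 1 ≤ S → 1 ≤ N → 1 ≤ H →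
  2 ≤ V → 1 ≤ L →
  1600 * (e : ℝ) ^ 2 * (R : ℝ) ^ 2 * (S : ℝ) ^ 4 * (N : ℝ) ^ 2 * (V : ℝ) ^ 2 * (H : ℝ) ^ 2 * (L : ℝ) ^ 2 ≤ X →
  2 * R ≤ N → (∀ h ∈ Hs, h ≠ 0 ∧ |h| ≤ (H : ℤ)) → (∀ h r s1 s2, ‖γ h r s1 s2‖ ≤ 1) → (∀ r n, ‖ω r n‖ ≤ 1) →
  (∀ h r s1 s2, γ h r s1 s2 ≠ 0 → r0 r ∣ r ∧ L < r0 r ∧ r0 r ≤ L' ∧ v s1 ∣ s1 ∧ V < v s1 ∧ v s1 ≤ 4 * e * V) →
  (∀ h r s1 s2, γ h r s1 s2 ≠ 0 → s1.Coprime s2 → ((r * s2 : ℕ) : ℤ) ∣ a r s1 s2 - A r s2) →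
  ‖∑ h ∈ Hs, TE a ρ e h k R S N (γ h) ω‖ ^ 2 ≤ C * T ^ A0 * ((R : ℝ) * (S : ℝ) ^ 2 * N) ^ 2 *
    ((H : ℝ) / V + (H : ℝ) ^ 2 * Real.sqrt (1 / (L : ℝ) +
      Real.sqrt (1 + (S : ℝ) / ((V : ℝ) * H)) / (Real.sqrt ((L : ℝ) * V) * S) +
      Real.sqrt (4 * e * (L' : ℝ) * V) * S / N))

/-- Chapter T. Type II, n in one class modulo e. -/
def T2eStmt : Prop := ∃ C : ℝ, 0 < C ∧ ∃ A0 : ℕ, ∀ (X T : ℝ) (a : ℕ → ℕ → ℕ → ℤ) (b : ℕ → ℤ) (ρ : ℕ → ℕ → ℕ → ℤ)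
    (e k R S N H : ℕ)
    (Hs : Finset ℤ) (γ : ℤ → ℕ → ℕ → ℕ → ℂ) (ω : ℕ → ℕ → ℂ), Tau X T → 1 ≤ e → e ≤ N → 1 ≤ R → 1 ≤ S → 1 ≤ N →
  1 ≤ H → 100 * (R : ℝ) ^ 2 * (S : ℝ) ^ 4 * (N : ℝ) ^ 2 * (H : ℝ) ^ 2 ≤ X →
  (∀ h ∈ Hs, h ≠ 0 ∧ |h| ≤ (H : ℤ)) → (∀ h r s1 s2, ‖γ h r s1 s2‖ ≤ 1) → (∀ r n, ‖ω r n‖ ≤ 1) →
  (∀ h r s1 s2, γ h r s1 s2 ≠ 0 → e.Coprime r ∧ (s1.Coprime s2 → (r : ℤ) ∣ a r s1 s2 - b r)) →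
  ‖∑ h ∈ Hs, TE a ρ e h k R S N (γ h) ω‖ ^ 2 ≤ C * T ^ A0 * ((R : ℝ) * (S : ℝ) ^ 2 * N) ^ 2 *
    (Real.sqrt R * (H : ℝ) ^ 2 * ((e : ℝ) * (S : ℝ) ^ 4) / N + (H : ℝ) / ((S : ℝ) ^ 2 * e) + (H : ℝ) ^ 2 / R)

/-- Chapter D. The dispersion method, arbitrary classes modulo s. -/
def DspStmt : Prop := ∃ C : ℝ, 0 < C ∧ ∃ A0 : ℕ, ∀ (X T z z1 B B' : ℝ) (A : ℕ → ℕ → ℤ) (b : ℕ → ℤ) (R S M N H : ℕ)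
    (P : Finset (ℕ × ℕ)) (α β : ℕ → ℂ), Tau X T → 1 ≤ z → 1 ≤ z1 → 4 * z1 ≤ S → 0 ≤ B → 0 ≤ B' → 1 ≤ N → N ≤ M →
  8 ≤ M → 1 ≤ H → R ≤ N →
  2 * S ≤ N → 2 * H < R → 100 * (M : ℝ) ^ 2 * (N : ℝ) ^ 2 * (R : ℝ) ^ 2 * (S : ℝ) ^ 4 ≤ X → R * S ^ 2 ≤ M * N →
  Pr A b R S z P → (∀ m, ‖α m‖ ≤ 1) → (∀ n, ‖β n‖ ≤ 1) →
  (∀ a : ℕ → ℕ → ℕ → ℤ, ML.Cp P A a → ∀ (k : ℕ) (γ : ℤ → ℕ → ℕ → ℕ → ℂ) (ω : ℕ → ℕ → ℂ), Cf P R S M γ →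
    (∀ r n, ‖ω r n‖ ≤ 1) → ‖∑ h ∈ Icc (-(H : ℤ)) H, ML.TT a h k R S N (γ h) ω‖ ≤ B) →
  (∀ (e : ℕ) (a ρ : ℕ → ℕ → ℕ → ℤ), z < e → (e : ℝ) ≤ z1 → CpE P A e a →
    ∀ (k : ℕ) (γ : ℤ → ℕ → ℕ → ℕ → ℂ) (ω : ℕ → ℕ → ℂ), Cf (PE P e) R (S / e) (M / e + 1) γ →
    (∀ r n, ‖ω r n‖ ≤ 1) → ‖∑ h ∈ Icc (-(H : ℤ)) H, TE a ρ e h k R (S / e) N (γ h) ω‖ ≤ B' / e) →
  (∑ w ∈ P, ‖∑ m ∈ Ioc M (2 * M), ∑ n ∈ Ioc N (2 * N), α m * β n * Dl (A w.1 w.2) w.1 w.2 (m * n)‖) ^ 2 ≤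
    C * T ^ A0 * ((R : ℝ) * (M : ℝ) ^ 2 * N + (M : ℝ) ^ 2 * (N : ℝ) ^ 2 / z +
      (R : ℝ) ^ 2 * (S : ℝ) ^ 4 * (N : ℝ) ^ 2 / H + (R : ℝ) * M * (N : ℝ) ^ 2 * (S : ℝ) ^ 2 / z1 ^ 2 +
      (M : ℝ) * N * B + (M : ℝ) * N * B')

/-- the hypothesis on the classes a q, q ∈ F: for every Z in [x^σ, x^(1/2)] and every q > Z the divisor t q * v Z q; the
classes of two moduli with the same t and v agree modulo t * v -/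
def Nst (κ σ ω x : ℝ) (a : ℕ → ℤ) (t : ℕ → ℕ) (v : ℝ → ℕ → ℕ) (F : Finset ℕ) : Prop :=
  ∀ Z : ℝ, x ^ σ ≤ Z → Z ≤ x ^ ((1 : ℝ) / 2) → (∀ q ∈ F, Z < q → MQ.Dv κ ω x Z t (v Z) q) ∧
    ∀ q ∈ F, ∀ q' ∈ F, Z < q → Z < q' → t q = t q' → v Z q = v Z q' → ((t q * v Z q : ℕ) : ℤ) ∣ a q - a q'

/-- Chapter B. The bilinear theorem for the moduli Mt, variables ≥ x^(1/3-ε), product ≥ x^(1-ε). -/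
def BlStmt (α τ κ σ ω ε : ℝ) : Prop := ∀ κ0 : ℝ, 0 < κ0 → κ0 < κ → ∃ η C x0 : ℝ, 0 < η ∧ ∀ (x : ℝ) (a : ℕ → ℤ)
    (M N : ℕ) (f g : ℕ → ℂ) (F : Finset ℕ) (t : ℕ → ℕ) (v : ℝ → ℕ → ℕ), x0 ≤ x → x ^ ((1 : ℝ) / 3 - ε) ≤ N →
  x ^ ((1 : ℝ) / 3 - ε) ≤ M → x ^ (1 - ε) ≤ (M : ℝ) * N → (M : ℝ) * N ≤ x → (∀ m, ‖f m‖ ≤ 1) → (∀ n, ‖g n‖ ≤ 1) →
  (∀ q ∈ F, MQ.Mt α τ κ0 x (t q) q ∧ Int.gcd (a q) q = 1) → Nst κ σ ω x a t v F →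
  ∑ q ∈ F, ‖∑ m ∈ Ioc M (2 * M), ∑ n ∈ Ioc N (2 * N), f m * g n * Ek (a q) (t q) q (m * n)‖ ≤ C * x ^ (1 - η)

/-- Chapter A. The theorem for the von Mangoldt function, one class function and one Y ≤ x. -/
def CoreStmt (α τ κ σ ω : ℝ) : Prop := ∀ κ0 : ℝ, 0 < κ0 → κ0 < κ → ∃ η C x0 : ℝ, 0 < η ∧ ∀ (x : ℝ) (a : ℕ → ℤ)
    (Y : ℕ) (F : Finset ℕ) (t : ℕ → ℕ) (v : ℝ → ℕ → ℕ), x0 ≤ x → (Y : ℝ) ≤ x →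
  (∀ q ∈ F, MQ.Mt α τ κ0 x (t q) q ∧ Int.gcd (a q) q = 1) → Nst κ σ ω x a t v F →
  ∑ q ∈ F, ‖∑ n ∈ Icc 1 Y, (ArithmeticFunction.vonMangoldt n : ℂ) * Ek (a q) (t q) q n‖ ≤ C * x ^ (1 - η)

/-- Chapter F. THEOREM MI (version 9) for the level x^α, t ≤ x^τ, primes of d/t > x^κ0: x^η class functions
(i d is the number of the one used for d). -/
def MIAt (α τ κ σ ω : ℝ) : Prop := ∀ κ0 : ℝ, 0 < κ0 → κ0 < κ → ∃ η : ℝ, 0 < η ∧ ∀ U : ℝ, 0 < U → ∃ C : ℝ,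
  ∀ (x : ℝ) (s : ℕ → ℤ) (t i : ℕ → ℕ) (v : ℝ → ℕ → ℕ) (y : ℕ → ℝ) (M : Finset ℕ), 3 ≤ x →
  ((M.image i).card : ℝ) ≤ x ^ η → (∀ d, 2 ≤ y d ∧ y d ≤ x) →
  (∀ d ∈ M, MQ.Mt α τ κ0 x (t d) d ∧ Int.gcd (s d) d = 1) →
  (∀ Z : ℝ, x ^ σ ≤ Z → Z ≤ x ^ ((1 : ℝ) / 2) → (∀ d ∈ M, Z < d → MQ.Dv κ ω x Z t (v Z) d) ∧
    ∀ d ∈ M, ∀ d' ∈ M, Z < d → Z < d' → i d = i d' → t d = t d' → v Z d = v Z d' →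
      ((t d * v Z d : ℕ) : ℤ) ∣ s d - s d') →
  ∑ d ∈ M, |(resCount (y d) d (s d) : ℝ) - (resCount (y d) (t d) (s d) : ℝ) / ((d / t d).totient : ℝ)| ≤
      C * x ^ (1 - η) ∧
    ∑ d ∈ M, |resErr (y d) d (s d)| ≤ C * (x / (Real.log x) ^ U)

/-- THEOREM MI, version 9 -/
def MIStmt : Prop := ∀ δ τ κ σ ω : ℝ, 0 ≤ δ → 0 ≤ τ → τ ≤ 1 / 3 → 0 < κ → 86 * δ + 60 * κ < 1 →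
  σ < 1 / 3 → 8 * δ + 5 * κ < ω → MIAt (1 / 2 + δ) τ κ σ ω

/-- Chapter B: to prove -/
def BAllStmt : Prop := ∀ δ τ κ σ ω : ℝ, 0 ≤ δ → 0 ≤ τ → τ ≤ 1 / 3 → 0 < κ → 86 * δ + 60 * κ < 1 →
  σ < 1 / 3 → 8 * δ + 5 * κ < ω → ∃ ε : ℝ, 0 < ε ∧ ε < 1 / 100 ∧ BlStmt (1 / 2 + δ) τ κ σ ω ε

/-- Chapter A: to prove -/
def AAllStmt : Prop := ∀ α τ κ σ ω ε : ℝ, 0 < ε → ε < 1 / 100 → α ≤ 3 / 5 → 0 ≤ τ → τ ≤ 1 / 3 → 0 < κ →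
  κ ≤ 1 / 10 → BlStmt α τ κ σ ω ε → CoreStmt α τ κ σ ω

/-- Chapter F: to prove. -/
def FAllStmt : Prop := ∀ α τ κ σ ω : ℝ, α ≤ 3 / 5 → 0 ≤ τ → τ ≤ 1 / 3 → 0 < κ → κ ≤ 1 / 10 →
  CoreStmt α τ κ σ ω → MIAt α τ κ σ ω

end Pool.Agent.Lib.MS
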